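import Pool.Agent.Lib.SmL.I.GridEnd
import Pool.Agent.Lib.SmL.I.Cancel
import Pool.Agent.Lib.SmL.Cnt.Psi

/-!
# SMITH-L (l odd), block I: the form at the good pairs and the cancellation give `HasTop`
-/

set_option autoImplicit false

open Finset

namespace Pool.Agent.SmL

open Pool.Agent.SmA

variable {l : ℕ} {A G V V1 Pl : Type*} [CommRing A] [Group G] [AddCommGroup V] [Module A V]
  [DistribMulAction G V] [AddCommGroup V1] [Module (ZMod l) V1] {S : Sys l A G V V1 Pl}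
variable {m r : ℕ} {X : Option (Option (Fin m)) → Type*} {Γ : Grid S X}
  {τ : Twr l G V1 (Option (Option (Fin m))) r}

/-- `HasTop` from the form of `F` at the good pairs. -/
theorem top_of_form [Fintype (X none)] {Pr : Type*} (hS : S.Ok) (hΓ : Γ.Ok) (hτ : τ.Ok Γ m)
    (hm : 1 ≤ m) (hσ : τ.sig 0 ⊆ {none, some none}) (F : (∀ i, X i) → ℂ) (ps : AddChar V1 ℂ)
    (hps : ∀ u : ZMod l, u ≠ 0 → ps (u • (τ.c 0).2 (some none)) ≠ 1)
    (hform : ∀ x0 : ∀ i, X i, ∃ ψ : Option (Option (Fin m)) → (∀ i, X i) → ℂ,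
      (∀ j, Misses j (ψ j)) ∧ ∀ x, τ.Good Γ m x0 x → F x =
        (τ.UU Γ x0 (fun i => x (some i))).Kt ps (Γ.phx none (x none)) * ∏ j, ψ j x)
    (pl : Pr → Pl) (deg : Pr → ℕ) {q a C : ℕ}
    (hC : ChebU S.NN S.ac.ker Γ.R deg (fun P => S.sg (pl P)) (fun P => S.phi (pl P)) q a C)
    (po : ∀ i, X i → Pr) (M : Subgroup G) (K0 : ℕ) (Q : G → Prop) (D : ℕ) (E B0 : Finset Pr)
    (rr : ℕ) (hL : LastOk Γ pl deg po M K0 Q D E B0 rr) :
    HasTop τ Γ F (bGr l (Nat.card V1) m K0 rr a q C D) := by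
  refine ⟨fun x0 x' P => CA.hh τ Γ ps x0 x' P, fun x0 x' P => CA.hh_norm hS ps x' P,
    fun x0 => ?_, fun x0 ya yb hab => ?_⟩
  · obtain ⟨ψ, hψ1, hψ2⟩ := hform x0
    refine ⟨ψ, hψ1, fun x hx => ?_⟩
    have h1 : CA.hh τ Γ ps x0 (fun i => x (some i)) (x none) =
        (τ.UU Γ x0 (fun i => x (some i))).Kt ps (Γ.phx none (x none)) := if_pos (UD.good_FG hx)
    beta_reduce
    rw [h1]
    exact hψ2 x hx
  · exact CA.hBd_abs hS hΓ hτ hm hσ rfl ps hps pl deg hC po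
      hL.hpo hL.inj M hL.Mn hL.MG hL.MN hL.Ms K0 hL.M0 hL.MK Q hL.Q1 hL.Q2 D rr hL.D1 hL.hX E hL.hE
      B0 hL.hB0 hL.hB0D hL.hpoD hL.hrr x0 ya yb hab

/-- The character used: `psi (c e(w, b))`. -/
noncomputable def topPs [NeZero l] (S : Sys l A G V V1 Pl) (c : ZMod l) (b : V1) : AddChar V1 ℂ :=
  (psiC l).compAddMonoidHom ((AddMonoidHom.mulLeft c).comp (S.e.flip b).toAddMonoidHom)

theorem topPs_apply [NeZero l] (c : ZMod l) (b w : V1) : topPs S c b w = psi (c * S.e w b) := by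
  unfold topPs
  rw [AddChar.compAddMonoidHom_apply, psiC_apply]
  rfl

theorem topPs_ne [Fact l.Prime] {c : ZMod l} (hc : c ≠ 0) {b e : V1} (he : S.e e b ≠ 0)
    {u : ZMod l} (hu : u ≠ 0) : topPs S c b (u • e) ≠ 1 := by
  rw [topPs_apply, Ne, psi_eq_one_iff, map_smul, LinearMap.smul_apply, smul_eq_mul]
  exact mul_ne_zero hc (mul_ne_zero hu he)

end Pool.Agent.SmL
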