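import Pool.Agent.Lib.SmL.I.Defs

/-!
# SMITH-L (l odd), block I: the hypotheses on the last direction

Version of `LastOk` of `Lib/SmN/I/GridEnd.lean` over `ZMod l`.
-/

set_option autoImplicit false

open Finset

namespace Pool.Agent.SmL

variable {l : ℕ} {A G V V1 Pl : Type*} [CommRing A] [Group G] [AddCommGroup V] [Module A V]
  [DistribMulAction G V] [AddCommGroup V1] [Module (ZMod l) V1] {S : Sys l A G V V1 Pl}
variable {m : ℕ} {X : Option (Option (Fin m)) → Type*}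

/-- The hypotheses on the last direction: the points of `X none` are the pairs `(P, g)`, `deg P = D`,
`phi P` acts trivially on `V1`, `g ∈ R` and `g (phi P) g⁻¹` is in the class `Q`, which is
invariant under `M` and conjugation by elements of the kernel of the action on `V1`. -/
structure LastOk {Pr : Type*} (Γ : Grid S X) (pl : Pr → Pl) (deg : Pr → ℕ)
    (po : ∀ i, X i → Pr) (M : Subgroup G) (K0 : ℕ) (Q : G → Prop) (D : ℕ) (E B0 : Finset Pr)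
    (rr : ℕ) : Prop where
  hpo : ∀ i x, Γ.pl i x = pl (po i x)
  inj : Function.Injective pl
  Mn : M.Normal
  MG : M ≤ S.ac.ker
  MN : ∃ N ∈ S.NN, N ≤ M
  Ms : ∀ v, v ∉ Γ.bad → S.sg v ∈ M
  M0 : M.index ≠ 0
  MK : M.index ≤ K0
  Q1 : ∀ s ∈ S.ac.ker, ∀ n ∈ M, (Q (s * n) ↔ Q s)
  Q2 : ∀ s ∈ S.ac.ker, ∀ t ∈ S.ac.ker, (Q (t * s * t⁻¹) ↔ Q s)
  D1 : 1 ≤ D
  hX : ∀ P g, (∃ x : X none, po none x = P ∧ Γ.cj none x = g) ↔
    deg P = D ∧ g ∈ Γ.R ∧ S.phi (pl P) ∈ S.ac.ker ∧ Q (g * S.phi (pl P) * g⁻¹)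
  hE : ∀ P, P ∈ E ↔ deg P = D ∧ S.phi (pl P) ∈ S.ac.ker
  hB0 : ∀ P, pl P ∈ Γ.bad → P ∈ B0
  hB0D : ∀ P ∈ B0, deg P ≠ D
  hpoD : ∀ i x, deg (po (some i) x) ≠ D
  hrr : ∀ x y z : ∀ i : Option (Fin m), X (some i), ∑ P ∈ B0, deg P +
      ∑ i, (deg (po (some i) (x i)) + deg (po (some i) (y i)) +
        deg (po (some i) (z i))) ≤ rr

end Pool.Agent.SmL
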