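import Pool.Agent.Lib.SmL.H.Defs
import Pool.Agent.Lib.SmL.G.Kum
import Pool.Agent.Lib.SmL.G.ConjOk

/-!
# SMITH-L, block I: small tools (finite functions, homomorphisms, cocycles, local conditions)
-/

set_option autoImplicit false

open Finset

namespace Pool.Agent.SmL.IT

variable {l : ℕ} {A G V V1 Pl : Type*} [CommRing A] [Group G] [AddCommGroup V] [Module A V]
  [DistribMulAction G V] [AddCommGroup V1] [Module (ZMod l) V1] {S : Sys l A G V V1 Pl}

/-! ### Finite functions -/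

theorem tf_const (hS : S.Ok) {α : Type*} (a : α) : S.TF (fun _ : G => a) :=
  ⟨⊤, hS.top_mem, fun _ _ _ => rfl⟩

theorem tf_comp {α β : Type*} {f : G → α} (hf : S.TF f) (F : α → β) : S.TF (fun s => F (f s)) := by
  obtain ⟨N, hN, h⟩ := hf
  exact ⟨N, hN, fun s n hn => congrArg F (h s n hn)⟩

theorem tf_comp2 (hS : S.Ok) {α β γ : Type*} {f : G → α} {g : G → β} (hf : S.TF f) (hg : S.TF g)
    (F : α → β → γ) : S.TF (fun s => F (f s) (g s)) := by
  obtain ⟨N, hN, h⟩ := hf
  obtain ⟨N', hN', h'⟩ := hg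
  exact ⟨N ⊓ N', hS.inf_mem N hN N' hN', fun s n hn => congrArg₂ F (h s n hn.1) (h' s n hn.2)⟩

theorem tf_sum (hS : S.Ok) {α M : Type*} [AddCommMonoid M] (T : Finset α) (f : α → G → M)
    (hf : ∀ a ∈ T, S.TF (f a)) : S.TF (fun s => ∑ a ∈ T, f a s) := by
  classical
  induction T using Finset.induction_on with
  | empty =>
    simp only [sum_empty]
    exact tf_const hS 0
  | insert a T ha ih =>
    simp only [sum_insert ha]
    exact tf_comp2 hS (hf a (mem_insert_self a T)) (ih fun b hb => hf b (mem_insert_of_mem hb))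
      (fun x y => x + y)

/-! ### Homomorphisms -/

section hom

variable {B : Type*} [AddCommGroup B]

theorem homG_zero (hS : S.Ok) : S.HomG (fun _ : G => (0 : B)) :=
  ⟨tf_const hS 0, fun _ _ => (add_zero 0).symm⟩

theorem homG_add (hS : S.Ok) {c d : G → B} (hc : S.HomG c) (hd : S.HomG d) :
    S.HomG (fun s => c s + d s) :=
  ⟨tf_comp2 hS hc.1 hd.1 (fun x y => x + y), fun s t => by beta_reduce; rw [hc.2, hd.2]; abel⟩

theorem homG_sub (hS : S.Ok) {c d : G → B} (hc : S.HomG c) (hd : S.HomG d) :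
    S.HomG (fun s => c s - d s) :=
  ⟨tf_comp2 hS hc.1 hd.1 (fun x y => x - y), fun s t => by beta_reduce; rw [hc.2, hd.2]; abel⟩

theorem homG_neg {c : G → B} (hc : S.HomG c) : S.HomG (fun s => - c s) :=
  ⟨tf_comp hc.1 (fun x => -x), fun s t => by beta_reduce; rw [hc.2]; abel⟩

theorem homG_smul {R : Type*} [Monoid R] [DistribMulAction R B] (a : R) {c : G → B}
    (hc : S.HomG c) : S.HomG (fun s => a • c s) :=
  ⟨tf_comp hc.1 (fun x => a • x), fun s t => by beta_reduce; rw [hc.2, smul_add]⟩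

theorem homG_mul (a : ZMod l) {c : G → ZMod l} (hc : S.HomG c) : S.HomG (fun s => a * c s) :=
  ⟨tf_comp hc.1 (fun x => a * x), fun s t => by beta_reduce; rw [hc.2, mul_add]⟩

theorem homG_sum (hS : S.Ok) {α : Type*} (T : Finset α) (f : α → G → B)
    (hf : ∀ a ∈ T, S.HomG (f a)) : S.HomG (fun s => ∑ a ∈ T, f a s) :=
  ⟨tf_sum hS T f fun a ha => (hf a ha).1, fun s t => by
    rw [← sum_add_distrib]
    exact sum_congr rfl fun a ha => (hf a ha).2 s t⟩

theorem homG_one {c : G → B} (hc : ∀ s t, c (s * t) = c s + c t) : c 1 = 0 := by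
  have := hc 1 1
  rw [mul_one] at this
  exact left_eq_add.mp this

theorem homG_inv {c : G → B} (hc : ∀ s t, c (s * t) = c s + c t) (s : G) : c s⁻¹ = - c s := by
  have := hc s s⁻¹
  rw [mul_inv_cancel, homG_one hc] at this
  exact (neg_eq_of_add_eq_zero_right this.symm).symm

/-- A homomorphism to an abelian group has the same values at conjugate elements. -/
theorem homG_conj {c : G → B} (hc : ∀ s t, c (s * t) = c s + c t) (a s : G) :
    c (a * s * a⁻¹) = c s := by
  rw [hc, hc, homG_inv hc]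
  abel

/-- A homomorphism which vanishes at `sg v` and `phi v` vanishes on `D v`. -/
theorem homG_D (hS : S.Ok) {c : G → B} (hc : S.HomG c) (v : Pl) (h1 : c (S.sg v) = 0)
    (h2 : c (S.phi v) = 0) : ∀ s ∈ S.D v, c s = 0 := by
  intro s hs
  obtain ⟨N, hN, hcN⟩ := hc.1
  obtain ⟨t, ht, hts⟩ := hS.gen v N hN s hs
  have h3 := hcN t _ hts
  rw [mul_inv_cancel_left] at h3
  rw [h3]
  refine Subgroup.closure_induction (p := fun x _ => c x = 0) ?_ (homG_one hc.2) ?_ ?_ ht
  · rintro y (rfl | rfl)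
    · exact h2
    · exact h1
  · intro a b _ _ ha hb
    rw [hc.2, ha, hb, add_zero]
  · intro a _ ha
    rw [homG_inv hc.2, ha, neg_zero]

end hom

/-! ### Cocycles with values in `V1` -/

theorem cocG_zero (hS : S.Ok) : S.CocG (fun _ : G => (0 : V1)) :=
  ⟨tf_const hS 0, fun s _ => by beta_reduce; rw [map_zero, add_zero]⟩

theorem cocG_add (hS : S.Ok) {c d : G → V1} (hc : S.CocG c) (hd : S.CocG d) :
    S.CocG (fun s => c s + d s) :=
  ⟨tf_comp2 hS hc.1 hd.1 (fun x y => x + y), fun s t => by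
    beta_reduce
    rw [hc.2, hd.2, map_add]
    abel⟩

theorem cocG_sub (hS : S.Ok) {c d : G → V1} (hc : S.CocG c) (hd : S.CocG d) :
    S.CocG (fun s => c s - d s) :=
  ⟨tf_comp2 hS hc.1 hd.1 (fun x y => x - y), fun s t => by
    beta_reduce
    rw [hc.2, hd.2, map_sub]
    abel⟩

theorem cocG_neg {c : G → V1} (hc : S.CocG c) : S.CocG (fun s => - c s) :=
  ⟨tf_comp hc.1 (fun x => -x), fun s t => by
    beta_reduce
    rw [hc.2, map_neg]
    abel⟩

theorem cocG_smul (a : ZMod l) {c : G → V1} (hc : S.CocG c) : S.CocG (fun s => a • c s) :=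
  ⟨tf_comp hc.1 (fun x => a • x), fun s t => by
    beta_reduce
    rw [hc.2, smul_add, map_smul]⟩

theorem cocG_sum (hS : S.Ok) {α : Type*} (T : Finset α) (f : α → G → V1)
    (hf : ∀ a ∈ T, S.CocG (f a)) : S.CocG (fun s => ∑ a ∈ T, f a s) :=
  ⟨tf_sum hS T f fun a ha => (hf a ha).1, fun s t => by
    beta_reduce
    rw [map_sum, ← sum_add_distrib]
    exact sum_congr rfl fun a ha => (hf a ha).2 s t⟩

theorem cocG_inv {b : G → V1} (hb : ∀ s t, b (s * t) = b s + S.ac s (b t)) (a : G) :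
    b a⁻¹ = - S.ac a⁻¹ (b a) := by
  have h := hb a⁻¹ a
  rw [inv_mul_cancel, Sys.cocG_one hb] at h
  exact eq_neg_of_add_eq_zero_left h.symm

/-- The value at a conjugate of an element which acts trivially. -/
theorem cocG_conj {b : G → V1} (hb : ∀ s t, b (s * t) = b s + S.ac s (b t)) (a : G) {s : G}
    (hs : S.ac s = 1) : b (a * s * a⁻¹) = S.ac a (b s) := by
  have h1 : ∀ w, S.ac a (S.ac a⁻¹ w) = w := by
    intro w
    have h2 : (S.ac a * S.ac a⁻¹) w = w := by rw [← map_mul, mul_inv_cancel, map_one]; rfl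
    exact h2
  rw [hb, hb, cocG_inv hb, map_mul, hs, mul_one, map_neg, h1]
  abel

theorem ac_eq_zero {a : G} {w : V1} : S.ac a w = 0 ↔ w = 0 := (S.ac a).map_eq_zero_iff

/-- A cocycle which vanishes at `sg v` and `phi v` vanishes on `D v`. -/
theorem cocG_D (hS : S.Ok) {b : G → V1} (hb : S.CocG b) (v : Pl) (h1 : b (S.sg v) = 0)
    (h2 : b (S.phi v) = 0) : ∀ s ∈ S.D v, b s = 0 := by
  intro s hs
  obtain ⟨N, hN, hbN⟩ := hb.1
  obtain ⟨t, ht, hts⟩ := hS.gen v N hN s hs
  have h3 := hbN t _ hts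
  rw [mul_inv_cancel_left] at h3
  rw [h3]
  refine Subgroup.closure_induction (p := fun x _ => b x = 0) ?_ (Sys.cocG_one hb.2) ?_ ?_ ht
  · rintro y (rfl | rfl)
    · exact h2
    · exact h1
  · intro a c _ _ ha hc
    rw [hb.2, ha, hc, map_zero, add_zero]
  · intro a _ ha
    rw [cocG_inv hb.2, ha, map_zero, neg_zero]

/-! ### Dependence of the local conditions on the twist -/

theorem zv_congr {chi chi' : G → ZMod l} {v : Pl} (h : ∀ s ∈ S.D v, chi s = chi' s) {c : G → V}
    (hc : S.Zv chi v c) : S.Zv chi' v c := by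
  obtain ⟨Q, hQ⟩ := hc
  refine ⟨Q, fun s hs => ?_⟩
  rw [hQ s hs, dl_congr S (h s hs)]

theorem wl_congr {chi chi' : G → ZMod l} {v : Pl} (hS : S.Ok) (h : ∀ s ∈ S.D v, chi s = chi' s)
    {x : V1 × V1} (hx : x ∈ S.Wl chi v) : x ∈ S.Wl chi' v := by
  obtain ⟨Q, h1, h2, h3⟩ := hx
  have e : ∀ s ∈ S.D v, S.dl chi' Q s = S.dl chi Q s := fun s hs => (dl_congr S (h s hs) Q).symm
  exact ⟨Q, fun s hs => by rw [e s hs, h1 s hs], by rw [e _ (hS.sg_mem v), h2],
    by rw [e _ (hS.phi_mem v), h3]⟩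

theorem wl_congr_iff {chi chi' : G → ZMod l} {v : Pl} (hS : S.Ok)
    (h : ∀ s ∈ S.D v, chi s = chi' s) {x : V1 × V1} : x ∈ S.Wl chi v ↔ x ∈ S.Wl chi' v :=
  ⟨wl_congr hS h, wl_congr hS fun s hs => (h s hs).symm⟩

/-! ### The conjugate systems -/

theorem mem_D_conj_one {v : Pl} {s : G} (hs : s ∈ S.D v) :
    s ∈ (S.conj fun _ => (1 : G)).D v := by
  rw [Sys.mem_conj_D, inv_one, one_mul, mul_one]
  exact hs

/-- The local condition of a global cocycle does not depend on the place of `Ω` above `v`. -/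
theorem loc_conj_iff (hS : S.Ok) {chi : G → ZMod l} (hchi : S.HomG chi) {b : G → V1}
    (hb : S.CocG b) (g : Pl → G) (v : Pl) :
    (S.conj g).loc v b ∈ (S.conj g).Wl chi v ↔ S.loc v b ∈ S.Wl chi v := by
  rw [Sys.mem_conj_Wl hS hchi, Sys.conj_loc hb]
  constructor
  · intro h
    have h1 := (S.W chi v).add_mem h (Sys.cob_mem_Wl hS chi v (S.ac (g v)⁻¹ (b (g v))))
    rwa [sub_add_cancel] at h1
  · intro h
    exact (S.W chi v).sub_mem h (Sys.cob_mem_Wl hS chi v _)

/-! ### The torsion cocycles -/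

/-- The twisted coboundary of an element `z` with `lam z = iota w` at an element which acts
trivially on `V1`. -/
theorem dl_of_lam (hS : S.Ok) {w : V1} {z : V} (hz : S.lam • z = S.iota w) (chi : G → ZMod l)
    {s : G} (hs : S.ac s = 1) :
    S.dl chi z s = S.iota (S.un (s • z - z) - chi s • w) := by
  have h1 : S.lam • (s • z) = S.iota w := by
    rw [← hS.smul_comm, hz, hS.iota_ac, hs]
    rfl
  have h2 : S.lam • (s • z - z) = 0 := by rw [smul_sub, h1, hz, sub_self]
  rw [Sys.dl, Sys.tw, Sys.zz_eq, sub_smul, one_smul, mul_comm, mul_smul, h1, Sys.uu_iota hS,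
    map_sub, Sys.iota_un hS h2]
  abel

/-- For `w ∈ V1` there is a function `κ : G → V1` such that at a good split place where `chi` has
the value `u ≠ 0` at the tame generator the local Kummer group consists of the
`(w, - u⁻¹ κ (phi v) + u⁻¹ chi (phi v) w)`, for all the places of `Ω` above `v`. -/
theorem exists_kap (hS : S.Ok) (w : V1) : ∃ κ : G → V1,
    (∀ s t, (∀ Q : V, S.lam ^ 2 • Q = 0 → s • Q = t • Q) → κ s = κ t) ∧
    (∃ z : V, S.lam • z = S.iota w ∧
      ∀ (chi : G → ZMod l) (s : G), S.ac s = 1 → S.dl chi z s = S.iota (κ s - chi s • w)) ∧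
    ∀ (g : Pl → G) (chi : G → ZMod l) (u : ZMod l), u ≠ 0 → ∀ v ∈ S.good, S.ac (S.phi v) = 1 →
      chi ((S.conj g).sg v) = u → ∀ y : V1, ((w, y) ∈ (S.conj g).Wl chi v ↔
        y = -(u⁻¹ • κ ((S.conj g).phi v)) + (u⁻¹ * chi ((S.conj g).phi v)) • w) := by
  have : Fact l.Prime := ⟨hS.prime⟩
  have : NeZero l := ⟨hS.prime.ne_zero⟩
  obtain ⟨z, hz⟩ := hS.half (S.iota w)
  have h4 : S.lam ^ 2 • z = 0 := by
    rw [pow_two, mul_smul, hz, hS.lam_iota]
  refine ⟨fun s => S.un (s • z - z), fun s t hst => ?_,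
    ⟨z, hz, fun chi s hs => dl_of_lam hS hz chi hs⟩, ?_⟩
  · beta_reduce
    rw [hst z h4]
  · intro g chi u hu v hv hsp hchi y
    have hS' : (S.conj g).Ok := hS.conj g
    have hsp' : (S.conj g).ac ((S.conj g).phi v) = 1 := Sys.ac_conj_eq_one.2 hsp
    have hsg' : (S.conj g).ac ((S.conj g).sg v) = 1 := Sys.ac_sg hS' hv
    -- the element with `lam Q = - u⁻¹ w`
    set a : ZMod l := -u⁻¹ with ha
    have hQ : ∀ Q : V, S.lam • Q = S.iota (a • w) → S.dl chi Q ((S.conj g).sg v) = S.iota w := by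
      intro Q hQ
      have h5 : (S.conj g).dl chi Q ((S.conj g).sg v) =
          (S.conj g).iota ((S.conj g).un (((S.conj g).sg v) • Q - Q) -
            chi ((S.conj g).sg v) • (a • w)) := dl_of_lam hS' hQ chi hsg'
      have h6 : ((S.conj g).sg v) • Q = Q := hS'.good_triv v hv Q
      rw [h6, sub_self, Sys.un_zero hS', zero_sub, hchi, smul_smul, ha, mul_neg,
        mul_inv_cancel₀ hu, neg_smul, one_smul, neg_neg] at h5
      exact h5
    have hz' : S.lam • (a.val • z) = S.iota (a • w) := by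
      rw [smul_comm, hz, ← map_nsmul, ← Nat.cast_smul_eq_nsmul (ZMod l), ZMod.natCast_zmod_val]
    have hphi : S.dl chi (a.val • z) ((S.conj g).phi v) =
        S.iota (a • S.un (((S.conj g).phi v) • z - z) -
          (chi ((S.conj g).phi v) * a) • w) := by
      have h5 := dl_of_lam hS hz chi (s := (S.conj g).phi v) hsp'
      rw [Sys.dl_nsmul, h5, ← map_nsmul, ← Nat.cast_smul_eq_nsmul (ZMod l),
        ZMod.natCast_zmod_val, smul_sub, smul_smul, mul_comm a]
    have hy : a • S.un (((S.conj g).phi v) • z - z) - (chi ((S.conj g).phi v) * a) • w =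
        -(u⁻¹ • S.un (((S.conj g).phi v) • z - z)) + (u⁻¹ * chi ((S.conj g).phi v)) • w := by
      rw [ha, neg_smul, mul_neg, neg_smul, sub_neg_eq_add, mul_comm u⁻¹]
    constructor
    · rintro ⟨Q, h1, h2, h3⟩
      have h7 : (S.conj g).dl chi Q ((S.conj g).sg v) =
          (S.conj g).dl chi (a.val • z) ((S.conj g).sg v) := h2.trans (hQ _ hz').symm
      have hne : chi ((S.conj g).sg v) ≠ 0 := by rw [hchi]; exact hu
      have h8 := Sys.fill_eq hS' hv hne h7 hsp'
      have h9 : S.iota y = S.iota (a • S.un (((S.conj g).phi v) • z - z) -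
          (chi ((S.conj g).phi v) * a) • w) := (h3.symm.trans h8).trans hphi
      rw [← hy]
      exact hS.iota_inj h9
    · intro h
      refine ⟨a.val • z, fun s hsD => ?_, hQ _ hz', ?_⟩
      · have hs1 : (S.conj g).ac s = 1 := Sys.ac_D hS' hv hsp' s hsD
        have h5 : S.dl chi (a.val • z) s = _ := dl_of_lam hS hz' chi hs1
        change S.lam • S.dl chi (a.val • z) s = 0
        rw [h5, hS.lam_iota]
      · change S.dl chi (a.val • z) ((S.conj g).phi v) = S.iota y
        rw [hphi, hy, ← h]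

end Pool.Agent.SmL.IT
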