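import Pool.Agent.Lib.SmL.I.GridDefs
import Pool.Agent.Lib.SmL.I.LastDefs
import Pool.Agent.Lib.SmL.I.Mean
import Pool.Agent.Lib.SmL.I.Tools

/-!
# SMITH-L, block I: the hypotheses `LastOk` on the last direction

Version of `Lib/SmN/I/LastN.lean` for an odd prime `l`: the concrete grid of the big classes.
-/

set_option autoImplicit false

open Finset

namespace Pool.Agent.SmL.CData

open Pool.Agent.SmL.IT

variable {l : ℕ} {A G V V1 Pl : Type} [CommRing A] [Group G] [AddCommGroup V] [Module A V]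
  [DistribMulAction G V] [AddCommGroup V1] [Module (ZMod l) V1] {S : Sys l A G V V1 Pl} {X : PSys}
  {cd : CData S X}

namespace LastN

theorem exists_common (hS : S.Ok) {α : Type*} (A : Finset α) (P : α → G → Prop)
    (h : ∀ a ∈ A, ∃ N ∈ S.NN, ∀ n ∈ N, P a n) : ∃ N ∈ S.NN, ∀ n ∈ N, ∀ a ∈ A, P a n := by
  classical
  induction A using Finset.induction_on with
  | empty => exact ⟨⊤, hS.top_mem, fun n _ a ha => absurd ha (notMem_empty a)⟩
  | insert a A ha ih =>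
    obtain ⟨N, hN, h1⟩ := ih fun b hb => h b (mem_insert_of_mem hb)
    obtain ⟨N', hN', h2⟩ := h a (mem_insert_self a A)
    refine ⟨N ⊓ N', hS.inf_mem N hN N' hN', fun n hn b hb => ?_⟩
    rcases mem_insert.1 hb with rfl | hb
    · exact h2 n hn.2
    · exact h1 n hn.1 b hb

theorem coc_one {b : G → V1} (hb : S.CocG b) : b 1 = 0 := by
  have h1 := hb.2 1 1
  rw [mul_one, map_one] at h1
  change b 1 = b 1 + b 1 at h1
  exact left_eq_add.mp h1

theorem coc_inv {b : G → V1} (hb : S.CocG b) {n : G} (hn : b n = 0) : b n⁻¹ = 0 := by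
  have h1 := hb.2 n⁻¹ n
  rw [inv_mul_cancel, coc_one hb, hn, map_zero, add_zero] at h1
  exact h1.symm

theorem coc_tf {b : G → V1} (hb : S.CocG b) : ∃ N ∈ S.NN, ∀ n ∈ N, b n = 0 := by
  obtain ⟨N, hN, h⟩ := hb.1
  refine ⟨N, hN, fun n hn => ?_⟩
  have h1 := h 1 n hn
  rw [one_mul, coc_one hb] at h1
  exact h1

theorem hom_tf {c : G → ZMod l} (hc : S.HomG c) : ∃ N ∈ S.NN, ∀ n ∈ N, c n = 0 := by
  obtain ⟨N, hN, h⟩ := hc.1
  refine ⟨N, hN, fun n hn => ?_⟩
  have h1 := h 1 n hn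
  rw [one_mul, homG_one hc.2] at h1
  exact h1

theorem ker_tf (hS : S.Ok) : ∃ N ∈ S.NN, ∀ n ∈ N, n ∈ S.ac.ker :=
  Sys.ac_fin hS

theorem fx_iff (x : cd.Mk) (w : V1) :
    cd.Fx x w ↔ S.ac (S.phi (cd.pl x.1)) (S.ac x.2.1⁻¹ w) = S.ac x.2.1⁻¹ w := by
  have h1 : ∀ (g k : G) (w : V1), S.ac (g * k) w = S.ac g (S.ac k w) := by
    intro g k w
    rw [map_mul, LinearEquiv.mul_apply]
  have h2 : ∀ (g : G) (w : V1), S.ac g (S.ac g⁻¹ w) = w := by
    intro g w
    rw [← h1, mul_inv_cancel, map_one]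
    rfl
  have h3 : ∀ (g : G) (w : V1), S.ac g⁻¹ (S.ac g w) = w := by
    intro g w
    rw [← h1, inv_mul_cancel, map_one]
    rfl
  rw [Fx, phx, h1, h1]
  constructor
  · intro h
    have := congrArg (S.ac x.2.1⁻¹) h
    rwa [h3] at this
  · intro h
    rw [h, h2]

theorem bex_coc (hc : cd.Ok) {x : cd.Mk} {w : V1} (h : cd.Fx x w) : S.CocG (cd.bex x w) :=
  hc.be_coc _ _ ((fx_iff x w).1 h)

theorem bex_unr (hc : cd.Ok) {x : cd.Mk} {w : V1} (h : cd.Fx x w) {Q : X.Pr} (hQ : Q ≠ x.1) :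
    cd.bex x w (S.sg (cd.pl Q)) = 0 :=
  hc.be_unr _ _ _ hQ ((fx_iff x w).1 h)

/-- The normal subgroup on the cosets of which the symbols with respect to the marked primes of `T`
and the class `kf` are constant. -/
theorem exists_M (hS : S.Ok) (hc : cd.Ok) (hNf : ∀ N ∈ S.NN, N.index ≠ 0) :
    ∃ K1 : ℕ, ∀ T : Finset cd.Mk, ∃ M : Subgroup G, M.Normal ∧ M ≤ S.ac.ker ∧
      (∃ N ∈ S.NN, N ≤ M) ∧ (∀ P, (∀ x ∈ T, P ≠ x.1) → S.sg (cd.pl P) ∈ M) ∧ M.index ≠ 0 ∧
      M.index ≤ K1 * (l * Nat.card V1 ^ Nat.card V1) ^ T.card ∧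
      (∀ s, ∀ n ∈ M, cd.kf (s * n) = cd.kf s) ∧
      ∀ x ∈ T, (∀ s, ∀ n ∈ M, cd.ch x.1 (s * n) = cd.ch x.1 s) ∧
        ∀ w, cd.Fx x w → ∀ s, ∀ n ∈ M, cd.bex x w (s * n) = cd.bex x w s := by
  classical
  obtain ⟨NT, hNT, hNTi, hNT1, hNT2⟩ := hc.kf_tf
  have hfin1 := hS.fin1
  have hft1 : Fintype V1 := Fintype.ofFinite V1
  have hl0 : NeZero l := ⟨hS.prime.ne_zero⟩
  refine ⟨NT.index * S.ac.ker.index, fun T => ?_⟩
  let M : Subgroup G :=
    { carrier := {n | n ∈ NT ∧ n ∈ S.ac.ker ∧ ∀ x ∈ T, cd.ch x.1 n = 0 ∧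
        ∀ w, cd.Fx x w → cd.bex x w n = 0}
      one_mem' := ⟨NT.one_mem, S.ac.ker.one_mem, fun x _ => ⟨homG_one (hc.ch_hom x.1).2,
        fun w hw => coc_one (bex_coc hc hw)⟩⟩
      mul_mem' := by
        rintro n n' ⟨h1, h2, h3⟩ ⟨h1', h2', h3'⟩
        refine ⟨NT.mul_mem h1 h1', S.ac.ker.mul_mem h2 h2', fun x hx => ⟨?_, fun w hw => ?_⟩⟩
        · rw [(hc.ch_hom x.1).2, (h3 x hx).1, (h3' x hx).1, add_zero]
        · rw [(bex_coc hc hw).2, (h3 x hx).2 w hw, (h3' x hx).2 w hw, map_zero, add_zero]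
      inv_mem' := by
        rintro n ⟨h1, h2, h3⟩
        refine ⟨NT.inv_mem h1, S.ac.ker.inv_mem h2, fun x hx => ⟨?_, fun w hw => ?_⟩⟩
        · rw [homG_inv (hc.ch_hom x.1).2, (h3 x hx).1, neg_zero]
        · exact coc_inv (bex_coc hc hw) ((h3 x hx).2 w hw) }
  have hM : ∀ n, n ∈ M ↔ n ∈ NT ∧ n ∈ S.ac.ker ∧ ∀ x ∈ T, cd.ch x.1 n = 0 ∧
      ∀ w, cd.Fx x w → cd.bex x w n = 0 := fun n => Iff.rfl
  have hMn : ∃ N ∈ S.NN, N ≤ M := by
    obtain ⟨N1, hN1, h1⟩ := ker_tf hS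
    obtain ⟨N2, hN2, h2⟩ := exists_common hS T (fun x n => cd.ch x.1 n = 0 ∧
      ∀ w, cd.Fx x w → cd.bex x w n = 0) (fun x _ => by
        obtain ⟨N3, hN3, h3⟩ := hom_tf (hc.ch_hom x.1)
        obtain ⟨N4, hN4, h4⟩ := exists_common hS (univ : Finset V1)
          (fun w n => cd.Fx x w → cd.bex x w n = 0) (fun w _ => by
            by_cases hw : cd.Fx x w
            · obtain ⟨N, hN, h⟩ := coc_tf (bex_coc hc hw)
              exact ⟨N, hN, fun n hn _ => h n hn⟩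
            · exact ⟨⊤, hS.top_mem, fun n _ h => absurd h hw⟩)
        exact ⟨N3 ⊓ N4, hS.inf_mem _ hN3 _ hN4, fun n hn =>
          ⟨h3 n hn.1, fun w => h4 n hn.2 w (mem_univ w)⟩⟩)
    refine ⟨NT ⊓ (N1 ⊓ N2), hS.inf_mem _ hNT _ (hS.inf_mem _ hN1 _ hN2), fun n hn => ?_⟩
    exact (hM n).2 ⟨hn.1, h1 n hn.2.1, fun x hx => h2 n hn.2.2 x hx⟩
  refine ⟨M, ⟨fun n hn g => ?_⟩, fun n hn => hn.2.1, hMn, fun P hP => ?_, ?_, ?_, ?_, ?_⟩
  · obtain ⟨h1, h2, h3⟩ := (hM n).1 hn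
    have hac : S.ac n = 1 := h2
    refine (hM _).2 ⟨(hS.normal NT hNT).conj_mem n h1 g,
      (MonoidHom.normal_ker S.ac).conj_mem n h2 g, fun x hx => ⟨?_, fun w hw => ?_⟩⟩
    · rw [homG_conj (hc.ch_hom x.1).2, (h3 x hx).1]
    · rw [cocG_conj (bex_coc hc hw).2 g hac, (h3 x hx).2 w hw, map_zero]
  · refine (hM _).2 ⟨hNT1 P, Sys.ac_sg hS (hc.pl_good P), fun x hx =>
      ⟨hc.ch_unr _ _ (hP x hx), fun w hw => bex_unr hc hw (hP x hx)⟩⟩
  · obtain ⟨N, hN, h⟩ := hMn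
    have h1 : N.FiniteIndex := ⟨hNf N hN⟩
    exact (Subgroup.finiteIndex_of_le h).index_ne_zero
  · have hfNT : Finite (G ⧸ NT) := by
      have : NT.FiniteIndex := ⟨hNf NT hNT⟩
      infer_instance
    have hfker : Finite (G ⧸ S.ac.ker) := by
      obtain ⟨N, hN, h⟩ := ker_tf hS
      have h1 : N.FiniteIndex := ⟨hNf N hN⟩
      have h2 : S.ac.ker.FiniteIndex := Subgroup.finiteIndex_of_le (H := N) h
      infer_instance
    have h6 := index_le_card M
      (fun s => (((s : G ⧸ NT), (s : G ⧸ S.ac.ker), fun x : T => (cd.ch x.1.1 s,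
        fun w => cd.bex x.1 w s)) :
        (G ⧸ NT) × (G ⧸ S.ac.ker) × (T → ZMod l × (V1 → V1)))) (by
      intro s t hst
      rw [Prod.ext_iff] at hst
      obtain ⟨e1, e2⟩ := hst
      rw [Prod.ext_iff] at e2
      obtain ⟨e2, e3⟩ := e2
      refine (hM _).2 ⟨QuotientGroup.eq.1 e1, QuotientGroup.eq.1 e2, fun x hx => ?_⟩
      have e4 := congrFun e3 ⟨x, hx⟩
      simp only [Prod.mk.injEq] at e4
      obtain ⟨e4, e5⟩ := e4
      refine ⟨?_, fun w hw => ?_⟩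
      · rw [(hc.ch_hom x.1).2, homG_inv (hc.ch_hom x.1).2, e4, neg_add_cancel]
      · have hcoc := bex_coc hc hw
        have e6 := congrFun e5 w
        have e7 := hcoc.2 s⁻¹ s
        rw [inv_mul_cancel, coc_one hcoc] at e7
        rw [hcoc.2, ← e6, ← e7])
    rw [Nat.card_prod, Nat.card_prod, Nat.card_fun, Nat.card_prod, Nat.card_fun] at h6
    have e5 : Nat.card (ZMod l) = l := Nat.card_zmod l
    have e6 : Nat.card T = T.card := by simp
    rw [e5, e6, ← mul_assoc] at h6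
    exact h6
  · intro s n hn
    exact hNT2 s n hn.1
  · intro x hx
    refine ⟨fun s n hn => ?_, fun w hw s n hn => ?_⟩
    · rw [(hc.ch_hom x.1).2, (hn.2.2 x hx).1, add_zero]
    · rw [(bex_coc hc hw).2, (hn.2.2 x hx).2 w hw, map_zero, add_zero]

end LastN

open LastN

/-- The hypotheses on the last direction. -/
theorem lastN (hS : S.Ok) (hc : cd.Ok) (hX : ∀ d, Finite (X.Of d)) (hpos : ∀ P, 1 ≤ X.deg P)
    (hNf : ∀ N ∈ S.NN, N.index ≠ 0) :
    ∃ K1 : ℕ, ∀ (J : Type) (_ : Fintype J) (ex : J → ZMod l) (m : ℕ) (p : J → cd.Mk)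
      (dir : Dir m ↪ J), cd.DirOk ex p dir →
      ∃ (M : Subgroup G) (Q : G → Prop) (E B0 : Finset X.Pr),
        LastOk (cd.gridN ex p dir) cd.pl X.deg (fun _ x => x.1.1) M
          (K1 * (l * Nat.card V1 ^ Nat.card V1) ^ Nat.card J) Q (X.deg (p (dir none)).1) E B0
          (3 * cd.degN p) := by
  classical
  obtain ⟨K1, hK⟩ := exists_M (cd := cd) hS hc hNf
  refine ⟨K1, fun J _ ex m p dir hd => ?_⟩
  obtain ⟨M, hMn, hMG, hMN, hMs, hM0, hMK, hMkf, hMx⟩ := hK ((offD dir).image p)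
  have hoff : ∀ j, j ∈ offD dir ↔ ∀ i, dir i ≠ j := by
    intro j
    unfold offD
    simp
  have hfin1 := hS.fin1
  let Q : G → Prop := fun s => cd.kf s = cd.kf (cd.phx (p (dir none))) ∧
    ∀ j, (∀ i', dir i' ≠ j) →
      cd.ch (p j).1 s = cd.ch (p j).1 (cd.phx (p (dir none))) ∧
      ∀ w, cd.Fx (p j) w → cd.bex (p j) w s = cd.bex (p j) w (cd.phx (p (dir none)))
  have hEf : {P : X.Pr | X.deg P = X.deg (p (dir none)).1}.Finite :=
    Set.finite_coe_iff.1 (hX _)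
  let E : Finset X.Pr := {P ∈ hEf.toFinset | S.phi (cd.pl P) ∈ S.ac.ker}
  let B0 : Finset X.Pr := (offD dir).image fun j => (p j).1
  have hcardV : 1 ≤ l * Nat.card V1 ^ Nat.card V1 := by
    have h1 : 0 < Nat.card V1 := Nat.card_pos
    have h2 := Nat.pow_pos (n := Nat.card V1) h1
    exact Nat.mul_pos hS.prime.pos h2
  have hsplit : S.ac (cd.phx (p (dir none))) = 1 := hd.split none
  have hsumB : ∑ P ∈ B0, X.deg P ≤ ∑ j ∈ offD dir, X.deg (p j).1 := by
    have hinj : Set.InjOn (fun j => (p j).1) (offD dir : Finset J) :=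
      fun j _ j' _ h => hd.vec h
    rw [sum_image hinj]
  refine ⟨M, Q, E, B0, ?_⟩
  refine
    { hpo := fun i x => rfl
      inj := hc.pl_inj
      Mn := hMn
      MG := hMG
      MN := hMN
      Ms := fun v hv => ?_
      M0 := hM0
      MK := ?_
      Q1 := fun s hs n hn => ?_
      Q2 := fun s hs t ht => ?_
      D1 := hpos _
      hX := fun P g => ?_
      hE := fun P => ?_
      hB0 := fun P hP => ?_
      hB0D := fun P hP => ?_
      hpoD := fun i x => ?_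
      hrr := fun x y z => ?_ }
  · have h1 : v ∈ Set.range cd.pl ∧ ∀ j, (∀ i, dir i ≠ j) → cd.pl (p j).1 ≠ v := by
      constructor
      · by_contra h
        exact hv (Or.inl h)
      · intro j hj h
        exact hv (Or.inr ⟨j, hj, h⟩)
    obtain ⟨⟨P, rfl⟩, h2⟩ := h1
    refine hMs P fun x hx => ?_
    obtain ⟨j, hj, rfl⟩ := mem_image.1 hx
    intro h
    exact h2 j ((hoff j).1 hj) (by rw [h])
  · refine hMK.trans (Nat.mul_le_mul_left _ (Nat.pow_le_pow_right hcardV ?_))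
    refine card_image_le.trans ?_
    rw [Nat.card_eq_fintype_card]
    exact card_le_univ _
  · change (_ ∧ _) ↔ (_ ∧ _)
    rw [hMkf s n hn]
    refine and_congr Iff.rfl (forall_congr' fun j => forall_congr' fun hj => ?_)
    have h1 := hMx (p j) (mem_image_of_mem p ((hoff j).2 hj))
    rw [h1.1 s n hn]
    refine and_congr Iff.rfl (forall_congr' fun w => forall_congr' fun hw => ?_)
    rw [h1.2 w hw s n hn]
  · change (_ ∧ _) ↔ (_ ∧ _)
    have hs1 : S.ac s = 1 := hs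
    have ht1 : S.ac t = 1 := ht
    rw [hc.kf_conj s t ht]
    refine and_congr Iff.rfl (forall_congr' fun j => forall_congr' fun hj => ?_)
    rw [homG_conj (hc.ch_hom (p j).1).2]
    refine and_congr Iff.rfl (forall_congr' fun w => forall_congr' fun hw => ?_)
    rw [cocG_conj (bex_coc hc hw).2 t hs1, ht1]
    rfl
  · constructor
    · rintro ⟨x, rfl, rfl⟩
      obtain ⟨h1, h2, h3⟩ := x.2
      refine ⟨h1, x.1.2.2, ?_, h2, h3⟩
      have h4 := hc.kf_ac _ _ h2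
      rw [hsplit] at h4
      have h5 : S.phi (cd.pl x.1.1) = (x.1.2.1)⁻¹ * cd.phx x.1 * ((x.1.2.1)⁻¹)⁻¹ := by
        unfold phx
        group
      rw [h5]
      exact (MonoidHom.normal_ker S.ac).conj_mem _ h4 _
    · rintro ⟨h1, h2, -, h3, h4⟩
      exact ⟨⟨(P, ⟨g, h2⟩), h1, h3, h4⟩, rfl, rfl⟩
  · rw [mem_filter, Set.Finite.mem_toFinset]
    rfl
  · rcases hP with h | ⟨j, hj, h⟩
    · exact absurd ⟨P, rfl⟩ h
    · exact mem_image.2 ⟨j, (hoff j).2 hj, hc.pl_inj h⟩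
  · obtain ⟨j, hj, rfl⟩ := mem_image.1 hP
    intro h
    exact (hoff j).1 hj none (hd.dist none j h).symm
  · intro h
    have h1 : X.deg x.1.1 = X.deg (p (dir (some i))).1 := x.2.1
    rw [h1] at h
    have h2 := dir.injective (hd.dist none _ h)
    exact absurd h2 (by simp)
  · have h1 : ∀ (i : Option (Fin m)) (x : cd.XB p dir (some i)),
        X.deg x.1.1 = X.deg (p (dir (some i))).1 := fun i x => x.2.1
    simp only [h1]
    have h2 : ∑ j ∈ offD dir, X.deg (p j).1 + ∑ i : Option (Fin m), X.deg (p (dir (some i))).1 ≤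
        cd.degN p := by
      unfold degN
      have h3 : ∑ i : Option (Fin m), X.deg (p (dir (some i))).1 =
          ∑ j ∈ (univ : Finset (Option (Fin m))).map ⟨fun i => dir (some i), fun a b h => by
            have := dir.injective h
            exact Option.some.inj this⟩, X.deg (p j).1 := by
        rw [sum_map]
        rfl
      rw [h3, ← sum_union]
      · exact sum_le_sum_of_subset (subset_univ _)
      · rw [disjoint_left]
        intro j hj hj'
        obtain ⟨i, -, hi⟩ := mem_map.1 hj'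
        exact (hoff j).1 hj (some i) hi
    have h3 : ∑ i : Option (Fin m), (X.deg (p (dir (some i))).1 + X.deg (p (dir (some i))).1 +
        X.deg (p (dir (some i))).1) = 3 * ∑ i : Option (Fin m), X.deg (p (dir (some i))).1 := by
      rw [mul_sum]
      exact sum_congr rfl fun i _ => by ring
    rw [h3]
    omega

end Pool.Agent.SmL.CData
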