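import Pool.Agent.Lib.SmL.I.CodeN
import Pool.Agent.Lib.SmL.G6.TowerN

/-!
# SMITH-L, block I (I2, I3): the type data of a grid of marked primes
-/

set_option autoImplicit false

open Finset

namespace Pool.Agent.SmL.CData

open Pool.Agent.SmL.IT

variable {l : ℕ} {A G V V1 Pl : Type} [CommRing A] [Group G] [AddCommGroup V] [Module A V]
  [DistribMulAction G V] [AddCommGroup V1] [Module (ZMod l) V1] {S : Sys l A G V V1 Pl}
  {X : PSys} {cd : CData S X}
  {J : Type} [Fintype J] {m : ℕ} {p : J → cd.Mk} {dir : Dir m ↪ J} {ex : J → ZMod l}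

omit [Fintype J] in
theorem hUp (p : J → cd.Mk) : ∀ c, c ∈ cd.VF p ↔ cd.ValidN p c := fun _ => Iff.rfl

theorem hUx (hc : cd.Ok) (hd : cd.DirOk ex p dir) (x : ∀ i, cd.XB p dir i) :
    ∀ c, c ∈ cd.VF p ↔ cd.ValidN (rxN p dir x) c := fun c => (valid_rxN hc hd x c).symm

/-- The code over the grid of a valid code. -/
noncomputable def gcU (p : J → cd.Mk) (dir : Dir m ↪ J) (c : cd.VF p) : GCode G V1 (Dir m) :=
  gcodeN p dir c.1

theorem gcU_inj (hc : cd.Ok) (hd : cd.DirOk ex p dir) : Function.Injective (gcU p dir) :=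
  fun c c' h => Subtype.ext (gcodeN_inj hc hd c.2 c'.2 h)

/-- The type data over the grid from the data over `J`. -/
noncomputable def mkTwrN (p : J → cd.Mk) (dir : Dir m ↪ J) {n : ℕ} (c : Fin (n + 1) → cd.VF p)
    (jl : Fin (n + 1) → ℕ) (f : Fin (n + 1) → cd.VF p → ZMod l)
    (sig : Fin (n + 1) → Finset (Dir m)) (b : cd.CodeN J) : Twr l G V1 (Dir m) n where
  c t := gcU p dir (c t)
  jl := jl
  fl t g := f t (Function.invFun (gcU p dir) g)
  sig := sig
  b := gcodeN p dir b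

/-- Towers over the grid and over `J`. -/
theorem isTowN_iff (hS : S.Ok) (hc : cd.Ok) (hd : cd.DirOk ex p dir) (hΓ : (cd.gridN ex p dir).Ok)
    {n : ℕ} {c : Fin (n + 1) → cd.VF p} {jl : Fin (n + 1) → ℕ}
    {f : Fin (n + 1) → cd.VF p → ZMod l} {sig : Fin (n + 1) → Finset (Dir m)} {b : cd.CodeN J}
    {x : ∀ i, cd.XB p dir i} (hx : x ∈ (cd.gridN ex p dir).Xs) (t : Fin (n + 1)) (Psi : G → V) :
    (mkTwrN p dir c jl f sig b).IsTow (cd.gridN ex p dir) m x t Psi ↔
      cd.AbvN ex (rxN p dir x) (jl t) (c t).1 Psi ∧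
        (jl t < m → ∀ c' : cd.VF p, c'.1 ∈ cd.FN ex p →
          S.CT (cd.chiN ex (rxN p dir x)) Psi (cd.homN (rxN p dir x) c'.1) = f t c') := by
  have hinv : ∀ c' : cd.VF p, Function.invFun (gcU p dir) (gcU p dir c') = c' :=
    Function.leftInverse_invFun (gcU_inj hc hd)
  constructor
  · intro ht
    have h1 := ht.sel
    have h2 := ht.base
    rw [chi_gridN] at h1
    refine ⟨⟨h1, fun s => ?_⟩, fun hl c' hc' => ?_⟩
    · rw [← ch_gridN]
      exact h2 s
    · have h3 := ht.val hl (gcU p dir c') (by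
        rw [gcU, gcodeN_mem_FF hS hc hΓ hd hx c'.2, FN_rxN hS hc hd hx]
        exact hc')
      rw [chi_gridN, gcU, ch_gridN] at h3
      rw [h3]
      change f t (Function.invFun (gcU p dir) (gcU p dir c')) = f t c'
      rw [hinv]
  · rintro ⟨⟨h1, h2⟩, h3⟩
    refine ⟨?_, fun s => ?_, fun hl g hg => ?_⟩
    · rw [chi_gridN]
      exact h1
    · change _ = S.iota ((cd.gridN ex p dir).ch (gcodeN p dir (c t).1) x s)
      rw [ch_gridN]
      exact h2 s
    · obtain ⟨c', hv, rfl⟩ := exists_gcodeN hS hc hd hΓ hg.1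
      have hc' : c' ∈ cd.FN ex p := by
        rw [gcodeN_mem_FF hS hc hΓ hd hx hv, FN_rxN hS hc hd hx] at hg
        exact hg
      rw [chi_gridN, ch_gridN]
      change _ = f t (Function.invFun (gcU p dir) (gcU p dir ⟨c', hv⟩))
      rw [hinv]
      exact h3 hl ⟨c', hv⟩ hc'

/-! ### The basis -/

/-- The basis as a family of valid codes. -/
def basU {a : cd.CodeN J}
    (su : cd.BasD (cd.FN ex p) (cd.LflN (cd.FN ex p) (cd.LamN ex p)) m a) (t : Fin su.r) :
    cd.VF p := ⟨su.c t, FN_le (hUp p) (su.mem t)⟩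

omit [Fintype J] in
theorem sum_coe {n : ℕ} (U : Submodule (ZMod l) (cd.CodeN J)) (α : Fin n → ZMod l)
    (c : Fin n → U) : ((∑ t, α t • c t : U) : cd.CodeN J) = ∑ t, α t • (c t).1 := by
  rw [Submodule.coe_sum]
  rfl

/-- The basis is adapted in the sense of the tower. -/
theorem adapted_of_basD [Nonempty J] (hS : S.Ok) (hc : cd.Ok) (hp : cd.PVecN p)
    (hex : ∀ j, ex j ≠ 0) {a : cd.CodeN J}
    (su : cd.BasD (cd.FN ex p) (cd.LflN (cd.FN ex p) (cd.LamN ex p)) m a) :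
    Adapted (twN cd hS hc ex p (cd.VF p) (hUp p)).Fs (twN cd hS hc ex p (cd.VF p) (hUp p)).L
      (twN cd hS hc ex p (cd.VF p) (hUp p)).Kp m (basU su) where
  mem i := (mem_twN_Fs hS hc (hUp p) _).2 (su.mem i)
  indep x hx := by
    obtain ⟨w, hw⟩ := (mem_twN_Kp hS hc (hUp p) hp hex _).1 hx
    rw [sum_coe] at hw
    exact su.indep x w hw
  span a ha := by
    obtain ⟨α, w, hw⟩ := su.span a.1 ((mem_twN_Fs hS hc (hUp p) a).1 ha)
    refine ⟨α, (mem_twN_Kp hS hc (hUp p) hp hex _).2 ⟨w, ?_⟩⟩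
    have h1 : ((a - ∑ i, α i • basU su i : cd.VF p) : cd.CodeN J) =
        a.1 - ∑ t, α t • su.c t := by
      rw [AddSubgroupClass.coe_sub, sum_coe]
      rfl
    rw [h1, hw, add_sub_cancel_right]
  adapt j hj hjm x hx i hi := by
    have h1 : ∑ i, x i • su.c i ∈ cd.LflN (cd.FN ex p) (cd.LamN ex p) j := by
      have := (mem_LflN_iff_tw hS hc (hUp p) hp hj _).2 hx
      rwa [sum_coe] at this
    obtain ⟨α, w, hw, hα⟩ := su.adapted j hj hjm _ h1
    have h2 : ∑ i, (x i - α i) • su.c i = cd.kapN J w := by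
      simp only [sub_smul, sum_sub_distrib]
      rw [hw, add_sub_cancel_right]
    have h3 := congrFun (su.indep (fun i => x i - α i) w h2) i
    have h4 : x i = α i := sub_eq_zero.1 h3
    rw [← mem_LflN_iff_tw hS hc (hUp p) hp hj]
    exact hα i (h4 ▸ hi)

/-- The number of elements of the basis. -/
theorem basD_r_le (hS : S.Ok) (hc : cd.Ok) {a : cd.CodeN J}
    (su : cd.BasD (cd.FN ex p) (cd.LflN (cd.FN ex p) (cd.LamN ex p)) m a) :
    2 ^ su.r ≤ Nat.card (cd.FN ex p) := by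
  have := hS.fin1
  have : NeZero l := ⟨hS.prime.ne_zero⟩
  let f : (Fin su.r → ZMod l) → cd.FN ex p := fun x => ⟨∑ t, x t • su.c t, by
    have h1 : (∑ t, x t • basU su t : cd.VF p) ∈ (twN cd hS hc ex p (cd.VF p) (hUp p)).Fs :=
      Submodule.sum_mem _ fun t _ => Submodule.smul_mem _ _
        ((mem_twN_Fs hS hc (hUp p) _).2 (su.mem t))
    have h2 := (mem_twN_Fs hS hc (hUp p) _).1 h1
    rwa [sum_coe] at h2⟩
  have hf : Function.Injective f := by
    intro x y hxy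
    have h1 : ∑ t, x t • su.c t = ∑ t, y t • su.c t := congrArg Subtype.val hxy
    have h2 : ∑ t, (x t - y t) • su.c t = cd.kapN J 0 := by
      simp only [sub_smul, sum_sub_distrib]
      rw [h1, sub_self, kapN_zero]
    have h3 := su.indep (fun t => x t - y t) 0 h2
    funext t
    exact sub_eq_zero.1 (congrFun h3 t)
  have h1 := Nat.card_le_card_of_injective f hf
  rw [Nat.card_fun, Nat.card_zmod, Nat.card_eq_fintype_card, Fintype.card_fin] at h1
  exact (Nat.pow_le_pow_left hS.prime.two_le _).trans h1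

/-- The number of elements of the basis of `SuppN`. -/
theorem suppN_r_le (hS : S.Ok) (hc : cd.Ok) {a b : cd.CodeN J}
    (su : cd.SuppN (cd.FN ex p) (cd.LflN (cd.FN ex p) (cd.LamN ex p)) m a b dir) :
    2 ^ su.r ≤ Nat.card (cd.FN ex p) := basD_r_le hS hc su.toBasD

/-- The number of elements of the basis of `SuppD`. -/
theorem suppD_r_le (hS : S.Ok) (hc : cd.Ok) {a : cd.CodeN J}
    (su : cd.SuppD (cd.FN ex p) (cd.LflN (cd.FN ex p) (cd.LamN ex p)) m a dir) :
    2 ^ su.r ≤ Nat.card (cd.FN ex p) := basD_r_le hS hc su.toBasD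

/-- The points of a type. -/
theorem typN_iff [Nonempty J] (hS : S.Ok) (hc : cd.Ok) (hd : cd.DirOk ex p dir)
    (hm : 1 ≤ m) {r : ℕ} {c : Fin r → cd.VF p} {jl : Fin r → ℕ} {f : Fin r → cd.VF p → ZMod l}
    (had : Adapted (twN cd hS hc ex p (cd.VF p) (hUp p)).Fs (twN cd hS hc ex p (cd.VF p) (hUp p)).L
      (twN cd hS hc ex p (cd.VF p) (hUp p)).Kp m c)
    (h1 : ∀ t, 1 ≤ jl t) (h2 : ∀ t, jl t ≤ m)
    (h3 : ∀ t, c t ∈ (twN cd hS hc ex p (cd.VF p) (hUp p)).L (jl t))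
    (h4 : ∀ t, jl t < m → c t ∉ (twN cd hS hc ex p (cd.VF p) (hUp p)).L (jl t + 1))
    (h5 : ∀ t, jl t < m → (c t, f t) ∈ (twN cd hS hc ex p (cd.VF p) (hUp p)).Lam (jl t))
    {x : ∀ i, cd.XB p dir i} (hx : x ∈ (cd.gridN ex p dir).Xs) :
    (∀ t, ∃ Psi, cd.AbvN ex (rxN p dir x) (jl t) (c t).1 Psi ∧
        (jl t < m → ∀ c' : cd.VF p, c'.1 ∈ cd.FN ex p →
          S.CT (cd.chiN ex (rxN p dir x)) Psi (cd.homN (rxN p dir x) c'.1) = f t c')) ↔
      ∀ i, 1 ≤ i → i < m → cd.LamN ex (rxN p dir x) i = cd.LamN ex p i := by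
  have hF := FN_rxN hS hc hd hx
  have hp := hd.vec
  have hq := pvec_rxN hd x
  have hUq := hUx hc hd x
  set q := rxN p dir x with hqd
  have hFs : (twN cd hS hc ex q (cd.VF p) hUq).Fs = (twN cd hS hc ex p (cd.VF p) (hUp p)).Fs := by
    ext a
    rw [mem_twN_Fs, mem_twN_Fs, hF]
  have hKp : (twN cd hS hc ex q (cd.VF p) hUq).Kp = (twN cd hS hc ex p (cd.VF p) (hUp p)).Kp := by
    ext a
    rw [mem_twN_Kp hS hc hUq hq hd.ex_ne, mem_twN_Kp hS hc (hUp p) hp hd.ex_ne]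
  constructor
  · intro ht i hi him
    choose Psi hP1 hP2 using ht
    obtain ⟨Psi0, e1, e2, e3⟩ := Tower.exists_Psi (W := twN cd hS hc ex p (cd.VF p) (hUp p))
      (k := m) (jl := jl) (f := f) h5 (fun t _ => h3 t)
    rw [LamN_congr hS hc hUq hq (hUp p) hp hi]
    refine Tower.lam_same (twN_ok hS hc hUq hq) (twN_ldiv hS hc hUq)
      (twN_ok hS hc (hUp p) hp) (twN_ldiv hS hc (hUp p)) hFs hKp (k := m)
      (cc := c) ?_ (jl := jl) (f := f) ?_ (Psi := Psi)
      (fun t => ((abvN_iff hS hc hUq).1 (hP1 t)).1)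
      (fun t => ((abvN_iff hS hc hUq).1 (hP1 t)).2) ?_ (Psi' := Psi0) e1 e2 e3 hi him
    · intro a ha
      rw [hFs] at ha
      obtain ⟨y, hy⟩ := had.span a ha
      exact ⟨y, by rw [hKp]; exact hy⟩
    · intro y hy h0
      exact Tower.f_indep (twN_ok hS hc (hUp p) hp) had h1 h4 h5 y hy
        (fun D hD => h0 D (hFs ▸ hD))
    · intro t hl D hD
      rw [twN_PV hS hc hUq]
      refine hP2 t hl D ?_
      rw [hFs] at hD
      exact (mem_twN_Fs hS hc (hUp p) D).1 hD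
  · intro ht t
    by_cases hl : jl t < m
    · have e1 : ((c t).1, extU (cd.VF p) (f t)) ∈ cd.LamN ex q (jl t) := by
        rw [ht _ (h1 t) hl, mem_LamN_iff hS hc (hUp p) hp (h1 t)]
        exact ⟨(c t, f t), h5 t hl, rfl, rfl⟩
      obtain ⟨-, Psi, e2, e3, -⟩ := e1
      refine ⟨Psi, e2, fun _ c' hc' => ?_⟩
      have e4 := e3 c'.1 (by rw [hF]; exact hc')
      rw [← e4]
      exact extU_mem (f t) c'
    · have hjl : jl t = m := le_antisymm (h2 t) (not_lt.1 hl)
      have e0 : cd.LflN (cd.FN ex q) (cd.LamN ex q) m = cd.LflN (cd.FN ex p) (cd.LamN ex p) m := by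
        rw [hF]
        obtain ⟨m', rfl⟩ := Nat.exists_eq_add_of_le' hm
        cases m' with
        | zero => rfl
        | succ m' =>
          change {a | (a, 0) ∈ cd.LamN ex q (m' + 1)} = {a | (a, 0) ∈ cd.LamN ex p (m' + 1)}
          rw [ht (m' + 1) (by omega) (by omega)]
      have e1 : (c t).1 ∈ cd.LflN (cd.FN ex q) (cd.LamN ex q) m := by
        rw [e0, mem_LflN_iff_tw hS hc (hUp p) hp hm, ← hjl]
        exact h3 t
      obtain ⟨Psi, e2⟩ := (mem_LflN_iff hS hc hUq hq hm _).1 e1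
      rw [hjl]
      exact ⟨Psi, e2, fun hh => absurd hh (lt_irrefl m)⟩

/-- The type data of a grid: common part of the two cases. -/
theorem exists_twr_core (hS : S.Ok) (hc : cd.Ok) (hd : cd.DirOk ex p dir)
    (hΓ : (cd.gridN ex p dir).Ok) (hm : 1 ≤ m) {a b : cd.CodeN J}
    (ha : a ∈ cd.LflN (cd.FN ex p) (cd.LamN ex p) m) (hb : b ∈ cd.FN ex p)
    (hP : cd.PerpN (cd.LamN ex p) (m - 1) b)
    (su : cd.BasD (cd.FN ex p) (cd.LflN (cd.FN ex p) (cd.LamN ex p)) m a)
    (sg : Fin su.r → Finset (Dir m)) (hsg : ∀ t, (sg t).card ≤ 2)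
    (hsupp : ∀ t i, i ∉ sg t → (su.c t).2 (dir i) = 0) :
    ∃ (n : ℕ) (τ : Twr l G V1 (Dir m) n), n + 1 = su.r ∧ τ.Ok (cd.gridN ex p dir) m ∧
      τ.sig 0 = sg su.l1 ∧ τ.c 0 = gcodeN p dir a ∧ τ.b = gcodeN p dir b ∧
      (∀ x, x ∈ τ.Y (cd.gridN ex p dir) m ↔ cd.TypEqN ex dir (rxN p dir x) p) ∧
      ∀ x ∈ τ.Y (cd.gridN ex p dir) m, τ.Fab (cd.gridN ex p dir) m x =
        cd.FFN ex (rxN p dir x) m a b := by
  classical
  have hJ : Nonempty J := ⟨dir none⟩
  have hp := hd.vec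
  -- the order of the basis
  obtain ⟨n, hn⟩ : ∃ n, n + 1 = su.r := ⟨su.r - 1, by
    have := su.l1.2
    omega⟩
  obtain ⟨e, he⟩ : ∃ e : Fin (n + 1) ≃ Fin su.r, e 0 = su.l1 :=
    ⟨(finCongr hn).trans (Equiv.swap (finCongr hn 0) su.l1), by
      rw [Equiv.trans_apply, Equiv.swap_apply_left]⟩
  have had := adapted_of_basD hS hc hp hd.ex_ne su
  have had' : Adapted (twN cd hS hc ex p (cd.VF p) (hUp p)).Fs
      (twN cd hS hc ex p (cd.VF p) (hUp p)).L (twN cd hS hc ex p (cd.VF p) (hUp p)).Kp m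
      (fun t => basU su (e t)) := by
    have hsum : ∀ x : Fin (n + 1) → ZMod l,
        ∑ t, x t • basU su (e t) = ∑ t, x (e.symm t) • basU su t := by
      intro x
      rw [← Equiv.sum_comp e (fun t => x (e.symm t) • basU su t)]
      exact sum_congr rfl fun t _ => by rw [Equiv.symm_apply_apply]
    refine ⟨fun i => had.mem _, fun x hx => ?_, fun a ha => ?_, fun j hj hjm x hx i hi => ?_⟩
    · rw [hsum] at hx
      have h1 := had.indep (fun t => x (e.symm t)) hx
      funext t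
      have h2 := congrFun h1 (e t)
      rwa [Equiv.symm_apply_apply] at h2
    · obtain ⟨y, hy⟩ := had.span a ha
      refine ⟨fun t => y (e t), ?_⟩
      rw [hsum]
      simp only [Equiv.apply_symm_apply]
      exact hy
    · rw [hsum] at hx
      have h1 := had.adapt j hj hjm (fun t => x (e.symm t)) hx (e i)
      rw [Equiv.symm_apply_apply] at h1
      exact h1 hi
  obtain ⟨jl, f, h1, h2, h3, h4, h5, h6⟩ := Tower.exists_jl (twN_ok hS hc (hUp p) hp) hm
    (cc := fun t => basU su (e t)) had'.mem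
  have hY : ∀ x, x ∈ (mkTwrN p dir (fun t => basU su (e t)) jl f (fun t => sg (e t)) b).Y
      (cd.gridN ex p dir) m ↔ cd.TypEqN ex dir (rxN p dir x) p := by
    intro x
    constructor
    · rintro ⟨hx, ht⟩
      refine ⟨(mem_XsN hS hd x).1 hx, FN_rxN hS hc hd hx, ?_⟩
      rw [← typN_iff hS hc hd hm had' h1 h2 h3 h4 h5 hx]
      intro t
      obtain ⟨Psi, hPsi⟩ := ht t
      exact ⟨Psi, (isTowN_iff hS hc hd hΓ hx t Psi).1 hPsi⟩
    · rintro ⟨hx, -, ht⟩
      have hx' := (mem_XsN hS hd x).2 hx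
      refine ⟨hx', fun t => ?_⟩
      obtain ⟨Psi, hPsi⟩ := (typN_iff hS hc hd hm had' h1 h2 h3 h4 h5 hx').2 ht t
      exact ⟨Psi, (isTowN_iff hS hc hd hΓ hx' t Psi).2 hPsi⟩
  have hjl0 : jl 0 = m := by
    apply h6
    change basU su (e 0) ∈ _
    rw [← mem_LflN_iff_tw hS hc (hUp p) hp hm]
    change su.c (e 0) ∈ _
    rw [he, su.c_l1]
    exact ha
  have hperp : ∀ x, cd.TypEqN ex dir (rxN p dir x) p →
      cd.PerpN (cd.LamN ex (rxN p dir x)) (m - 1) b := by
    intro x hx h0 y hy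
    rw [hx.2.2 (m - 1) h0 (by omega)] at hy
    exact hP h0 y hy
  have hbU : b ∈ cd.VF p := FN_le (hUp p) hb
  refine ⟨n, mkTwrN p dir (fun t => basU su (e t)) jl f (fun t => sg (e t)) b, hn, ?_, ?_, ?_,
    rfl, hY, ?_⟩
  · have hx0 := xpN_mem (p := p) (dir := dir) hS hd
    refine ⟨fun t => ?_, ?_, h1, h2, hjl0, fun t => hsg _, fun t i hi => hsupp _ _ hi,
      fun x hx Psi hPsi => ?_⟩
    · change gcodeN p dir (su.c (e t)) ∈ _
      rw [gcodeN_mem_FF hS hc hΓ hd hx0 (su.mem _).1, rxN_xp]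
      exact su.mem _
    · change gcodeN p dir b ∈ _
      rw [gcodeN_mem_FF hS hc hΓ hd hx0 hb.1, rxN_xp]
      exact hb
    · have hT := (hY x).1 hx
      rw [chi_gridN] at hPsi ⊢
      change S.CT _ Psi ((cd.gridN ex p dir).ch (gcodeN p dir b) x) = 0
      rw [ch_gridN]
      exact (perpN_iff_CT hS hc (hUx hc hd x) (pvec_rxN hd x) (m - 1) ⟨b, hbU⟩
        (by rw [hT.2.1]; exact hb)).1 (hperp x hT) Psi hPsi
  · change sg (e 0) = _
    rw [he]
  · change gcodeN p dir (su.c (e 0)) = _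
    rw [he, su.c_l1]
  · intro x hx
    have hT := (hY x).1 hx
    have h0 : (mkTwrN p dir (fun t => basU su (e t)) jl f (fun t => sg (e t)) b).IsTow
        (cd.gridN ex p dir) m x 0
        ((mkTwrN p dir (fun t => basU su (e t)) jl f (fun t => sg (e t)) b).psi
          (cd.gridN ex p dir) m x 0) := by
      unfold Twr.psi
      rw [dif_pos (hx.2 0)]
      exact (hx.2 0).choose_spec
    have h7 := (isTowN_iff hS hc hd hΓ hx.1 0 _).1 h0
    have h8 := h7.1
    rw [hjl0] at h8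
    change cd.AbvN ex (rxN p dir x) m (su.c (e 0)) _ at h8
    rw [he, su.c_l1] at h8
    have haU : a ∈ cd.VF p := FN_le (hUp p) (LflN_sub_FN hS hc (hUp p) hp hm ha)
    rw [FFN_eq hS hc (hUx hc hd x) (pvec_rxN hd x) hm ⟨a, haU⟩ ⟨b, hbU⟩
      (by rw [hT.2.1]; exact hb) (hperp x hT) h8]
    unfold Twr.Fab
    rw [chi_gridN]
    change S.CT _ _ ((cd.gridN ex p dir).ch (gcodeN p dir b) x) = _
    rw [ch_gridN]

/-- **The type data of a grid, independent pairs.** -/
theorem exists_twrN (hS : S.Ok) (hc : cd.Ok) (hd : cd.DirOk ex p dir)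
    (hΓ : (cd.gridN ex p dir).Ok) (hm : 1 ≤ m) {a b : cd.CodeN J}
    (ha : a ∈ cd.LflN (cd.FN ex p) (cd.LamN ex p) m) (hb : b ∈ cd.FN ex p)
    (hP : cd.PerpN (cd.LamN ex p) (m - 1) b)
    (su : cd.SuppN (cd.FN ex p) (cd.LflN (cd.FN ex p) (cd.LamN ex p)) m a b dir) :
    ∃ (n : ℕ) (τ : Twr l G V1 (Dir m) n), n + 1 = su.r ∧ τ.Ok (cd.gridN ex p dir) m ∧
      τ.sig 0 = {some none} ∧ (τ.c 0).2 (some none) = su.e ∧ (∀ i, i ≠ none → τ.b.2 i = 0) ∧
      τ.b.2 none = su.e' ∧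
      (∀ x, x ∈ τ.Y (cd.gridN ex p dir) m ↔ cd.TypEqN ex dir (rxN p dir x) p) ∧
      ∀ x ∈ τ.Y (cd.gridN ex p dir) m, τ.Fab (cd.gridN ex p dir) m x =
        cd.FFN ex (rxN p dir x) m a b := by
  classical
  have hbdir : ∀ i, b.2 (dir i) = ∑ t, su.β t • (su.c t).2 (dir i) := by
    intro i
    conv_lhs => rw [su.b_eq]
    rw [Prod.snd_sum, Finset.sum_apply]
    rfl
  obtain ⟨n, τ, h1, h2, h3, h4, h5, h6, h7⟩ := exists_twr_core hS hc hd hΓ hm ha hb hP su.toBasD
    (fun t => if t = su.l1 then {some none} else if t = su.l0 then {none} else ∅) (fun t => by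
      split_ifs
      · exact (card_singleton _).le.trans one_le_two
      · exact (card_singleton _).le.trans one_le_two
      · exact (card_empty).le.trans (Nat.zero_le 2)) (fun t i hi => by
      rcases i with _ | _ | i
      · rw [su.suppb, if_neg]
        intro ht
        have ht0 : t ≠ su.l1 := fun h => su.ne (ht.symm.trans h)
        rw [if_neg ht0, if_pos ht] at hi
        exact hi (mem_singleton_self _)
      · rw [su.suppa, if_neg]
        intro ht
        rw [if_pos ht] at hi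
        exact hi (mem_singleton_self _)
      · exact su.supp0 _ i)
  refine ⟨n, τ, h1, h2, h3.trans (if_pos rfl), ?_, ?_, ?_, h6, h7⟩
  · rw [h4]
    change a.2 (dir (some none)) = su.e
    have h8 := su.suppa su.l1
    rwa [if_pos rfl, su.c_l1] at h8
  · intro i hi
    rw [h5]
    change b.2 (dir i) = 0
    rw [hbdir]
    refine sum_eq_zero fun t _ => ?_
    rcases i with _ | _ | i
    · exact absurd rfl hi
    · rw [su.suppa]
      by_cases ht : t = su.l1
      · rw [ht, su.β_l1, zero_smul]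
      · rw [if_neg ht, smul_zero]
    · rw [su.supp0, smul_zero]
  · rw [h5]
    change b.2 (dir none) = su.e'
    rw [hbdir, sum_eq_single su.l0]
    · rw [su.suppb, if_pos rfl, su.β_l0, one_smul]
    · intro t _ ht
      rw [su.suppb, if_neg ht, smul_zero]
    · intro hh
      exact absurd (mem_univ _) hh

/-- **The type data of a grid, diagonal pairs.** -/
theorem exists_twrD (hS : S.Ok) (hc : cd.Ok) (hd : cd.DirOk ex p dir)
    (hΓ : (cd.gridN ex p dir).Ok) (hm : 1 ≤ m) {a b : cd.CodeN J}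
    (ha : a ∈ cd.LflN (cd.FN ex p) (cd.LamN ex p) m) (hb : b ∈ cd.FN ex p)
    (hP : cd.PerpN (cd.LamN ex p) (m - 1) b) (hdiag : cd.DiagN a b)
    (su : cd.SuppD (cd.FN ex p) (cd.LflN (cd.FN ex p) (cd.LamN ex p)) m a dir) :
    ∃ (n : ℕ) (τ : Twr l G V1 (Dir m) n), n + 1 = su.r ∧ τ.Ok (cd.gridN ex p dir) m ∧
      τ.sig 0 = {some none, none} ∧ (τ.c 0).2 (some none) = su.e ∧ (τ.c 0).2 none = su.e' ∧
      (∃ μ : ZMod l, μ ≠ 0 ∧ ∀ i, τ.b.2 i = μ • (τ.c 0).2 i) ∧
      (∀ x, x ∈ τ.Y (cd.gridN ex p dir) m ↔ cd.TypEqN ex dir (rxN p dir x) p) ∧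
      ∀ x ∈ τ.Y (cd.gridN ex p dir) m, τ.Fab (cd.gridN ex p dir) m x =
        cd.FFN ex (rxN p dir x) m a b := by
  classical
  obtain ⟨n, τ, h1, h2, h3, h4, h5, h6, h7⟩ := exists_twr_core hS hc hd hΓ hm ha hb hP su.toBasD
    (fun t => if t = su.l1 then {some none, none} else ∅) (fun t => by
      split_ifs
      · exact card_le_two
      · exact (card_empty).le.trans (Nat.zero_le 2)) (fun t i hi => by
      rcases i with _ | _ | i
      · rw [su.suppb, if_neg]
        intro ht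
        rw [if_pos ht] at hi
        exact hi (mem_insert_of_mem (mem_singleton_self _))
      · rw [su.suppa, if_neg]
        intro ht
        rw [if_pos ht] at hi
        exact hi (mem_insert_self _ _)
      · exact su.supp0 _ i)
  refine ⟨n, τ, h1, h2, h3.trans (if_pos rfl), ?_, ?_, ?_, h6, h7⟩
  · rw [h4]
    change a.2 (dir (some none)) = su.e
    have h8 := su.suppa su.l1
    rwa [if_pos rfl, su.c_l1] at h8
  · rw [h4]
    change a.2 (dir none) = su.e'
    have h8 := su.suppb su.l1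
    rwa [if_pos rfl, su.c_l1] at h8
  · obtain ⟨-, μ, hμ, z, hz⟩ := hdiag
    refine ⟨μ, hμ, fun i => ?_⟩
    rw [h4, h5]
    change b.2 (dir i) = μ • a.2 (dir i)
    rw [hz]
    change μ • a.2 (dir i) + 0 = _
    rw [add_zero]

end Pool.Agent.SmL.CData
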