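import Mathlib

/-!
# SMITH-L: the group form of the top cochain (odd `l`)

Version of `Lib/Sm/I/Uni.lean` and of the first part of `Lib/SmN/I/MeanN.lean` over `ZMod l`.

`Uni l ι G A`: characters `dl i : G → ZMod l` (`i : ι`) and functions `Phi T : G → A`
(`T : Finset ι`) with `Phi T (s t) = Phi T s + ∑_{W ⊆ T} (∏_{i ∈ W} dl i s) ac s (Phi (T \ W) t)`
(`IsA`; `Is` if the action is trivial).

`Kt U ps` is the class function `ps (Phi univ s)` on the subgroup where all the other functions vanish,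
`0` elsewhere; `ps` is an additive character of `A` with complex values.
-/

set_option autoImplicit false

namespace Pool.Agent.SmL

/-- Characters and cochains on a group. -/
structure Uni (l : ℕ) (ι G A : Type*) where
  dl : ι → G → ZMod l
  Phi : Finset ι → G → A

/-- Iterated commutator `[...[[g, t₁], t₂], ..., tₙ]`. -/
def iterC {G : Type*} [Group G] (g : G) (L : List G) : G :=
  L.foldl (fun s t => s * t * s⁻¹ * t⁻¹) g

namespace Uni

variable {l : ℕ} {ι G A : Type*} [DecidableEq ι] [Group G] [AddCommGroup A] [Module (ZMod l) A]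

/-- The cocycle relations. -/
structure Is (U : Uni l ι G A) : Prop where
  hdl : ∀ i s t, U.dl i (s * t) = U.dl i s + U.dl i t
  coc : ∀ T s t, U.Phi T (s * t) =
    U.Phi T s + ∑ W ∈ T.powerset, (∏ i ∈ W, U.dl i s) • U.Phi (T \ W) t

/-- The cocycle relations with an action `ac` on the values. -/
structure IsA (ac : G →* (A ≃ₗ[ZMod l] A)) (U : Uni l ι G A) : Prop where
  hdl : ∀ i s t, U.dl i (s * t) = U.dl i s + U.dl i t
  coc : ∀ T s t, U.Phi T (s * t) =
    U.Phi T s + ∑ W ∈ T.powerset, (∏ i ∈ W, U.dl i s) • ac s (U.Phi (T \ W) t)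

/-- The restriction to a subgroup. -/
def res (U : Uni l ι G A) (H : Subgroup G) : Uni l ι H A where
  dl i s := U.dl i s
  Phi T s := U.Phi T s

variable {U : Uni l ι G A}

theorem Is.dl_one (h : U.Is) (i : ι) : U.dl i 1 = 0 := by
  have := h.hdl i 1 1
  rw [mul_one] at this
  simpa using this

theorem Is.dl_inv (h : U.Is) (i : ι) (s : G) : U.dl i s⁻¹ = - U.dl i s := by
  have := h.hdl i s s⁻¹
  rw [mul_inv_cancel, h.dl_one i] at this
  exact eq_neg_of_add_eq_zero_right this.symm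

theorem Is.mulK (h : U.Is) {s : G} (hs : ∀ i, U.dl i s = 0) (T : Finset ι) (t : G) :
    U.Phi T (s * t) = U.Phi T s + U.Phi T t := by
  rw [h.coc T s t]
  congr 1
  rw [Finset.sum_eq_single ∅]
  · simp
  · intro W _ hW
    obtain ⟨i, hi⟩ := Finset.nonempty_iff_ne_empty.mpr hW
    rw [Finset.prod_eq_zero hi (hs i), zero_smul]
  · intro hh
    exact absurd (Finset.empty_mem_powerset T) hh

theorem Is.Phi_one (h : U.Is) (T : Finset ι) : U.Phi T 1 = 0 := by
  have := h.mulK (s := 1) (fun i => h.dl_one i) T 1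
  rw [mul_one] at this
  simpa using this

theorem Is.Phi_inv (h : U.Is) {s : G} (hs : ∀ i, U.dl i s = 0) (T : Finset ι) :
    U.Phi T s⁻¹ = -U.Phi T s := by
  have h1 := h.mulK hs T s⁻¹
  rw [mul_inv_cancel, h.Phi_one T] at h1
  exact eq_neg_of_add_eq_zero_right h1.symm

/-- The subgroup where all characters vanish and all `Phi T`, `T ≠ univ`, vanish. -/
def K0 [Fintype ι] (U : Uni l ι G A) (h : U.Is) : Subgroup G where
  carrier := {s | (∀ i, U.dl i s = 0) ∧ ∀ T, T ≠ Finset.univ → U.Phi T s = 0}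
  one_mem' := ⟨fun i => h.dl_one i, fun T _ => h.Phi_one T⟩
  mul_mem' := by
    rintro a b ⟨ha, ha'⟩ ⟨hb, hb'⟩
    refine ⟨fun i => by rw [h.hdl, ha, hb, add_zero], fun T hT => ?_⟩
    rw [h.mulK ha, ha' T hT, hb' T hT, add_zero]
  inv_mem' := by
    rintro a ⟨ha, ha'⟩
    refine ⟨fun i => by rw [h.dl_inv, ha, neg_zero], fun T hT => ?_⟩
    rw [h.Phi_inv ha, ha' T hT, neg_zero]

/-- The subgroup where everything vanishes. -/
def K1 (U : Uni l ι G A) (h : U.Is) : Subgroup G where
  carrier := {s | (∀ i, U.dl i s = 0) ∧ ∀ T, U.Phi T s = 0}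
  one_mem' := ⟨fun i => h.dl_one i, fun T => h.Phi_one T⟩
  mul_mem' := by
    rintro a b ⟨ha, ha'⟩ ⟨hb, hb'⟩
    refine ⟨fun i => by rw [h.hdl, ha, hb, add_zero], fun T => ?_⟩
    rw [h.mulK ha, ha' T, hb' T, add_zero]
  inv_mem' := by
    rintro a ⟨ha, ha'⟩
    refine ⟨fun i => by rw [h.dl_inv, ha, neg_zero], fun T => ?_⟩
    rw [h.Phi_inv ha, ha' T, neg_zero]

theorem Is.dl_conj (h : U.Is) (i : ι) (s t : G) : U.dl i (t * s * t⁻¹) = U.dl i s := by
  rw [h.hdl, h.hdl, h.dl_inv]
  abel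

/-- Conjugation formula. -/
theorem Is.conj (h : U.Is) {s : G} (hs : ∀ i, U.dl i s = 0) (T : Finset ι) (t : G) :
    U.Phi T (t * s * t⁻¹) = ∑ W ∈ T.powerset, (∏ i ∈ W, U.dl i t) • U.Phi (T \ W) s := by
  have h1 : U.Phi T (t * s * t⁻¹ * t) = U.Phi T (t * s * t⁻¹) + U.Phi T t :=
    h.mulK (fun i => by rw [h.dl_conj, hs]) T t
  have h2 : t * s * t⁻¹ * t = t * s := by group
  rw [h2, h.coc T t s] at h1
  rw [add_comm] at h1
  exact (add_right_cancel h1).symm

theorem Is.conj_K0 [Fintype ι] (h : U.Is) {s : G} (hs : s ∈ U.K0 h) (t : G) :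
    t * s * t⁻¹ ∈ U.K0 h ∧ U.Phi Finset.univ (t * s * t⁻¹) = U.Phi Finset.univ s := by
  obtain ⟨h1, h2⟩ := hs
  have key : ∀ T : Finset ι, U.Phi T (t * s * t⁻¹) = U.Phi T s := by
    intro T
    rw [h.conj h1 T t, Finset.sum_eq_single ∅]
    · simp
    · intro W hW hW0
      rw [h2 (T \ W), smul_zero]
      intro hh
      obtain ⟨i, hi⟩ := Finset.nonempty_iff_ne_empty.mpr hW0
      have : i ∈ T \ W := by rw [hh]; exact Finset.mem_univ i
      exact (Finset.mem_sdiff.mp this).2 hi
    · intro hh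
      exact absurd (Finset.empty_mem_powerset T) hh
  refine ⟨⟨fun i => by rw [h.dl_conj, h1], fun T hT => by rw [key, h2 T hT]⟩, key _⟩

instance K1_normal (U : Uni l ι G A) (h : U.Is) : (U.K1 h).Normal where
  conj_mem := by
    rintro s ⟨h1, h2⟩ t
    refine ⟨fun i => by rw [h.dl_conj, h1], fun T => ?_⟩
    rw [h.conj h1 T t]
    apply Finset.sum_eq_zero
    intro W _
    rw [h2, smul_zero]

/-- Commutator formula. -/
theorem Is.comm (h : U.Is) {s : G} (hs : ∀ i, U.dl i s = 0) (T : Finset ι) (t : G) :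
    U.Phi T (s * t * s⁻¹ * t⁻¹) =
      -∑ W ∈ T.powerset.erase ∅, (∏ i ∈ W, U.dl i t) • U.Phi (T \ W) s := by
  have h1 : s * t * s⁻¹ * t⁻¹ = s * (t * s⁻¹ * t⁻¹) := by group
  have hs' : ∀ i, U.dl i s⁻¹ = 0 := fun i => by rw [h.dl_inv, hs, neg_zero]
  rw [h1, h.mulK hs, h.conj hs' T t]
  have h2 : ∀ W ∈ T.powerset, (∏ i ∈ W, U.dl i t) • U.Phi (T \ W) s⁻¹ =
      -((∏ i ∈ W, U.dl i t) • U.Phi (T \ W) s) := fun W _ => by
    rw [h.Phi_inv hs, smul_neg]
  rw [Finset.sum_congr rfl h2, Finset.sum_neg_distrib,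
    ← Finset.add_sum_erase _ _ (Finset.empty_mem_powerset T)]
  simp only [Finset.prod_empty, one_smul, Finset.sdiff_empty]
  abel

theorem Is.dl_comm (h : U.Is) (i : ι) (s t : G) : U.dl i (s * t * s⁻¹ * t⁻¹) = 0 := by
  rw [h.hdl, h.hdl, h.hdl, h.dl_inv, h.dl_inv]
  abel

/-- Commutator with an element seen by one character only. -/
theorem Is.comm_one (h : U.Is) {s : G} (hs : ∀ i, U.dl i s = 0) (T : Finset ι) {t : G} {i : ι}
    (ht : ∀ m, m ≠ i → U.dl m t = 0) :
    U.Phi T (s * t * s⁻¹ * t⁻¹) = if i ∈ T then -(U.dl i t • U.Phi (T \ {i}) s) else 0 := by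
  rw [h.comm hs T t]
  split_ifs with hi
  · rw [Finset.sum_eq_single {i}]
    · simp
    · intro W hW hWi
      rw [Finset.mem_erase, Finset.mem_powerset] at hW
      obtain ⟨m, hm⟩ := Finset.nonempty_iff_ne_empty.mpr hW.1
      by_cases hli : ∃ m ∈ W, m ≠ i
      · obtain ⟨m, hm, hmi⟩ := hli
        rw [Finset.prod_eq_zero hm (ht m hmi), zero_smul]
      · push Not at hli
        exact absurd (Finset.eq_singleton_iff_unique_mem.mpr
          ⟨(hli m hm) ▸ hm, hli⟩) hWi
    · intro hh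
      exfalso
      apply hh
      rw [Finset.mem_erase, Finset.mem_powerset]
      exact ⟨Finset.singleton_ne_empty i, by simpa using hi⟩
  · rw [Finset.sum_eq_zero, neg_zero]
    intro W hW
    rw [Finset.mem_erase, Finset.mem_powerset] at hW
    obtain ⟨m, hm⟩ := Finset.nonempty_iff_ne_empty.mpr hW.1
    have : m ≠ i := fun hh => hi (hh ▸ hW.2 hm)
    rw [Finset.prod_eq_zero hm (ht m this), zero_smul]

/-- Iterated commutators: characters. -/
theorem Is.iter_dl (h : U.Is) {g : G} (hg : ∀ i, U.dl i g = 0) (L : List G) (i : ι) :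
    U.dl i (iterC g L) = 0 := by
  induction L generalizing g with
  | nil => exact hg i
  | cons t L ih =>
    exact ih (g := g * t * g⁻¹ * t⁻¹) (fun i => h.dl_comm i g t)

/-- Iterated commutators: the values of the cochains. -/
theorem Is.iter (h : U.Is) {g : G} (hg : ∀ i, U.dl i g = 0) {sg : ι → G}
    (hsg : ∀ i m, m ≠ i → U.dl m (sg i) = 0) (L : List ι) (hL : L.Nodup) (T : Finset ι) :
    U.Phi T (iterC g (L.map sg)) =
      if L.toFinset ⊆ T then (∏ i ∈ L.toFinset, -U.dl i (sg i)) • U.Phi (T \ L.toFinset) g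
      else 0 := by
  induction L generalizing g T with
  | nil => simp [iterC]
  | cons i L ih =>
    rw [List.nodup_cons] at hL
    have h1 : iterC g ((i :: L).map sg) = iterC (g * sg i * g⁻¹ * (sg i)⁻¹) (L.map sg) := rfl
    rw [h1, ih (fun m => h.dl_comm m g (sg i)) hL.2 T]
    have hiL : i ∉ L.toFinset := by rw [List.mem_toFinset]; exact hL.1
    rw [List.toFinset_cons]
    have hins : insert i L.toFinset ⊆ T ↔ i ∈ T ∧ L.toFinset ⊆ T := Finset.insert_subset_iff
    by_cases hLT : L.toFinset ⊆ T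
    · rw [if_pos hLT, h.comm_one hg _ (hsg i)]
      by_cases hi : i ∈ T
      · rw [if_pos (Finset.mem_sdiff.mpr ⟨hi, hiL⟩), if_pos (hins.mpr ⟨hi, hLT⟩),
          Finset.prod_insert hiL, ← neg_smul, smul_smul, mul_comm]
        congr 2
        ext x
        simp only [Finset.mem_sdiff, Finset.mem_singleton, Finset.mem_insert]
        tauto
      · rw [if_neg (fun hh => hi (Finset.mem_sdiff.mp hh).1),
          if_neg (fun hh => hi (hins.mp hh).1), smul_zero]
    · rw [if_neg hLT, if_neg (fun hh => hLT (hins.mp hh).2)]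

/-- Iterated commutators over all directions. -/
theorem Is.iter_univ [Fintype ι] (h : U.Is) {g : G} (hg : ∀ i, U.dl i g = 0) {sg : ι → G}
    (hsg : ∀ i m, m ≠ i → U.dl m (sg i) = 0) :
    iterC g (Finset.univ.toList.map sg) ∈ U.K0 h ∧
      U.Phi Finset.univ (iterC g (Finset.univ.toList.map sg)) =
        (∏ i, -U.dl i (sg i)) • U.Phi ∅ g := by
  have h1 := fun T => h.iter hg hsg Finset.univ.toList (Finset.nodup_toList _) T
  simp only [Finset.toList_toFinset] at h1
  refine ⟨⟨fun i => h.iter_dl hg _ i, fun T hT => ?_⟩, ?_⟩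
  · rw [h1 T, if_neg]
    intro hh
    exact hT (Finset.univ_subset_iff.mp hh)
  · rw [h1 Finset.univ, if_pos (Finset.Subset.refl _), Finset.sdiff_self]

omit [DecidableEq ι] in
/-- The iterated commutator lies in the commutator subgroup. -/
theorem iterC_mem [Fintype ι] [Nonempty ι] (g : G) (sg : ι → G) :
    iterC g (Finset.univ.toList.map sg) ∈ commutator G := by
  have key : ∀ (L : List G) (g : G), g ∈ commutator G → iterC g L ∈ commutator G := by
    intro L
    induction L with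
    | nil => intro g hg; exact hg
    | cons t L ih =>
      intro g _
      refine ih (g * t * g⁻¹ * t⁻¹) ?_
      exact Subgroup.commutator_mem_commutator (Subgroup.mem_top g) (Subgroup.mem_top t)
  cases hl : (Finset.univ : Finset ι).toList with
  | nil =>
    exfalso
    rw [Finset.toList_eq_nil] at hl
    exact Finset.univ_nonempty.ne_empty hl
  | cons i L =>
    refine key (L.map sg) (g * sg i * g⁻¹ * (sg i)⁻¹) ?_
    exact Subgroup.commutator_mem_commutator (Subgroup.mem_top g) (Subgroup.mem_top (sg i))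

omit [DecidableEq ι] in
/-- An iterated commutator of an element of a normal subgroup stays in it. -/
theorem iterC_mem_normal {M : Subgroup G} (hM : M.Normal) (L : List G) {x : G} (hx : x ∈ M) :
    iterC x L ∈ M := by
  induction L generalizing x with
  | nil => exact hx
  | cons y L ih =>
    refine ih (x := x * y * x⁻¹ * y⁻¹) ?_
    have h6 := M.mul_mem hx (hM.conj_mem _ (M.inv_mem hx) y)
    have e : x * y * x⁻¹ * y⁻¹ = x * (y * x⁻¹ * y⁻¹) := by group
    rw [e]
    exact h6

/-! ### The class function -/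

open Classical in
/-- The class function attached to `U` and the character `ps`. -/
noncomputable def Kt [Fintype ι] (U : Uni l ι G A) (ps : AddChar A ℂ) (s : G) : ℂ :=
  if (∀ i, U.dl i s = 0) ∧ ∀ T, T ≠ Finset.univ → U.Phi T s = 0 then
    ps (U.Phi Finset.univ s) else 0

omit [Group G] [Module (ZMod l) A] in
theorem Kt_norm [Fintype ι] [Finite A] (U : Uni l ι G A) (ps : AddChar A ℂ) (s : G) :
    ‖U.Kt ps s‖ ≤ 1 := by
  unfold Kt
  split_ifs
  · exact (AddChar.norm_apply ps _).le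
  · simp

omit [Group G] [Module (ZMod l) A] in
theorem Kt_conj_inv [Fintype ι] [Finite A] (U : Uni l ι G A) (ps : AddChar A ℂ) (s : G) :
    (starRingEnd ℂ) (U.Kt ps s) = U.Kt ps⁻¹ s := by
  unfold Kt
  split_ifs
  · rw [AddChar.inv_apply, ← AddChar.map_neg_eq_conj]
  · simp

theorem Is.Kt_mem [Fintype ι] (h : U.Is) (ps : AddChar A ℂ) {s : G} (hs : s ∈ U.K0 h) :
    U.Kt ps s = ps (U.Phi Finset.univ s) := by
  unfold Kt
  exact if_pos hs

theorem Is.Kt_not_mem [Fintype ι] (h : U.Is) (ps : AddChar A ℂ) {s : G} (hs : s ∉ U.K0 h) :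
    U.Kt ps s = 0 := by
  unfold Kt
  exact if_neg hs

theorem Is.Kt_conj [Fintype ι] (h : U.Is) (ps : AddChar A ℂ) (s t : G) :
    U.Kt ps (t * s * t⁻¹) = U.Kt ps s := by
  by_cases hs : s ∈ U.K0 h
  · obtain ⟨h1, h2⟩ := h.conj_K0 hs t
    rw [h.Kt_mem ps hs, h.Kt_mem ps h1, h2]
  · have h3 : t * s * t⁻¹ ∉ U.K0 h := by
      intro hh
      apply hs
      have := (h.conj_K0 hh t⁻¹).1
      have h4 : t⁻¹ * (t * s * t⁻¹) * t⁻¹⁻¹ = s := by group
      rwa [h4] at this
    rw [h.Kt_not_mem ps hs, h.Kt_not_mem ps h3]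

/-- Multiplication by an element of `K0`. -/
theorem Is.Kt_mul [Fintype ι] (h : U.Is) (ps : AddChar A ℂ) (s : G) {g : G}
    (hg : g ∈ U.K0 h) :
    U.Kt ps (s * g) = ps (U.Phi Finset.univ g) * U.Kt ps s := by
  by_cases hs : s ∈ U.K0 h
  · have h1 : s * g ∈ U.K0 h := mul_mem hs hg
    rw [h.Kt_mem ps hs, h.Kt_mem ps h1, h.mulK hs.1, AddChar.map_add_eq_mul, mul_comm]
  · have h3 : s * g ∉ U.K0 h := by
      intro hh
      apply hs
      have := mul_mem hh (inv_mem hg)
      rwa [mul_inv_cancel_right] at this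
    rw [h.Kt_not_mem ps hs, h.Kt_not_mem ps h3, mul_zero]

theorem Is.Kt_K1 [Fintype ι] (h : U.Is) (ps : AddChar A ℂ) (s : G) {g : G}
    (hg : g ∈ U.K1 h) : U.Kt ps (s * g) = U.Kt ps s := by
  rw [h.Kt_mul ps s (g := g) ⟨hg.1, fun T _ => hg.2 T⟩, hg.2, AddChar.map_zero_eq_one, one_mul]

/-- Two elements with the same values differ by an element of `K1`. -/
theorem Is.mem_K1 (h : U.Is) {s t : G} (h1 : ∀ i, U.dl i s = U.dl i t)
    (h2 : ∀ T, U.Phi T s = U.Phi T t) : s⁻¹ * t ∈ U.K1 h := by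
  have hd : ∀ i, U.dl i (s⁻¹ * t) = 0 := by
    intro i
    rw [h.hdl, h.dl_inv, h1 i]
    abel
  refine ⟨hd, fun T => ?_⟩
  induction T using Finset.strongInduction with
  | H T ih =>
    have e1 := h.coc T s (s⁻¹ * t)
    rw [mul_inv_cancel_left, ← h2 T] at e1
    have e2 : ∑ W ∈ T.powerset, (∏ i ∈ W, U.dl i s) • U.Phi (T \ W) (s⁻¹ * t) =
        U.Phi T (s⁻¹ * t) := by
      rw [Finset.sum_eq_single ∅]
      · simp
      · intro W hW hW0
        rw [ih (T \ W), smul_zero]
        rw [Finset.mem_powerset] at hW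
        exact Finset.sdiff_ssubset hW (Finset.nonempty_iff_ne_empty.mpr hW0)
      · intro hh
        exact absurd (Finset.empty_mem_powerset T) hh
    rw [e2] at e1
    exact (add_eq_left.mp e1.symm)

/-! ### The version with an action -/

variable {ac : G →* (A ≃ₗ[ZMod l] A)}

theorem IsA.res (h : IsA ac U) {H : Subgroup G} (hH : ∀ s ∈ H, ac s = 1) : (U.res H).Is where
  hdl i s t := h.hdl i s t
  coc T s t := by
    change U.Phi T ((s : G) * (t : G)) = _
    rw [h.coc T s t]
    have : ac (s : G) = 1 := hH _ s.2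
    rw [this]
    rfl

theorem IsA.dl_one (h : IsA ac U) (i : ι) : U.dl i 1 = 0 := by
  have := h.hdl i 1 1
  rw [mul_one] at this
  simpa using this

theorem IsA.dl_inv (h : IsA ac U) (i : ι) (s : G) : U.dl i s⁻¹ = -U.dl i s := by
  have := h.hdl i s s⁻¹
  rw [mul_inv_cancel, h.dl_one i] at this
  exact eq_neg_of_add_eq_zero_right this.symm

theorem IsA.dl_conj (h : IsA ac U) (i : ι) (s t : G) : U.dl i (t * s * t⁻¹) = U.dl i s := by
  rw [h.hdl, h.hdl, h.dl_inv]
  abel

/-- The relation where the characters vanish. -/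
theorem IsA.mulK (h : IsA ac U) {s : G} (hs : ∀ i, U.dl i s = 0) (T : Finset ι) (t : G) :
    U.Phi T (s * t) = U.Phi T s + ac s (U.Phi T t) := by
  rw [h.coc T s t]
  congr 1
  rw [Finset.sum_eq_single ∅]
  · simp
  · intro W _ hW
    obtain ⟨i, hi⟩ := Finset.nonempty_iff_ne_empty.mpr hW
    rw [Finset.prod_eq_zero hi (hs i), zero_smul]
  · intro hh
    exact absurd (Finset.empty_mem_powerset T) hh

theorem IsA.Phi_one (h : IsA ac U) (T : Finset ι) : U.Phi T 1 = 0 := by
  have := h.mulK (s := 1) (fun i => h.dl_one i) T 1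
  rw [mul_one, map_one] at this
  have h2 : U.Phi T 1 = U.Phi T 1 + U.Phi T 1 := this
  exact left_eq_add.1 h2

/-- The relation when all the functions vanish at the right factor. -/
theorem IsA.mul_zero_right (h : IsA ac U) {t : G} (ht : ∀ T, U.Phi T t = 0) (T : Finset ι)
    (s : G) : U.Phi T (s * t) = U.Phi T s := by
  rw [h.coc T s t, Finset.sum_eq_zero, add_zero]
  intro W _
  rw [ht, map_zero, smul_zero]

/-- The relation when everything vanishes at the left factor, which acts trivially. -/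
theorem IsA.mul_zero_left (h : IsA ac U) {s : G} (hs : ac s = 1) (h1 : ∀ i, U.dl i s = 0)
    (h2 : ∀ T, U.Phi T s = 0) (T : Finset ι) (t : G) : U.Phi T (s * t) = U.Phi T t := by
  rw [h.mulK h1, h2, hs, zero_add]
  rfl

/-- If all the functions vanish at `s` and `ac s = 1` then they vanish at the conjugates of `s`. -/
theorem IsA.conj_zero (h : IsA ac U) {s : G} (hs : ac s = 1) (h1 : ∀ i, U.dl i s = 0)
    (h2 : ∀ T, U.Phi T s = 0) (g : G) (T : Finset ι) : U.Phi T (g * s * g⁻¹) = 0 := by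
  have e3 : g * s * g⁻¹ * g = g * s := by group
  have e4 : ac (g * s * g⁻¹) = 1 := by
    rw [map_mul, map_mul, hs, mul_one, ← map_mul, mul_inv_cancel, map_one]
  have e1 := h.mulK (s := g * s * g⁻¹) (fun i => by rw [h.dl_conj, h1]) T g
  rw [e3, h.mul_zero_right h2 T g, e4] at e1
  have e5 : U.Phi T g = U.Phi T (g * s * g⁻¹) + U.Phi T g := e1
  exact right_eq_add.1 e5

end Uni

end Pool.Agent.SmL
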