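import Pool.Agent.Lib.SmL.H.Th
import Pool.Agent.Lib.SmL.G.Lift

/-!
# SMITH-L, block I: existence of the function `Th` for a face

Version of `exists_Th` with weaker assumptions on the places, port of `Lib/SmN/I/ThEx.lean`.
-/

set_option autoImplicit false

open Finset

namespace Pool.Agent.SmL

variable {l : ℕ} {A G V V1 Pl I : Type*} [CommRing A] [Group G] [AddCommGroup V] [Module A V]
  [DistribMulAction G V] [AddCommGroup V1] [Module (ZMod l) V1] [DecidableEq I]
  {S : Sys l A G V V1 Pl}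

/-- At the good places the value of the alternating sum of the lifts at the tame generator is
fixed by Frobenius. -/
private theorem om_fix' (hS : S.Ok) {W : Finset I} {j : ℕ} (hW : W.card = j + 1)
    {chi0 : G → ZMod l} {del : I → G → ZMod l} (hhom : ∀ X, S.HomG (chiC chi0 del X))
    {Psi hat : Finset I → G → V} {Q : Finset I → Pl → V} (h : Star S W j Psi)
    (hd : ∀ X, X ⊆ W → S.LiftData (chiC chi0 del X) (Psi X) (hat X) (Q X))
    {v : Pl} (hv : v ∈ S.good) (hcase : S.ac (S.phi v) = 1 ∨ (∀ i, ∀ s ∈ S.D v, del i s = 0) ∨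
      (chi0 (S.sg v) = 0 ∧ ∀ i, del i (S.sg v) = 0)) :
    S.ac (S.phi v) (S.un (alt W (fun T => hat T (S.sg v)) ∅)) =
      S.un (alt W (fun T => hat T (S.sg v)) ∅) := by
  have h2 : ∀ T, T ⊆ W → ∀ s, S.lam • hat T s = Psi T s := fun T hT => (hd T hT).two
  have hcoc : ∀ T, T ⊆ W → ∀ s t,
      hat T (s * t) = hat T s + S.tw (chiC chi0 del T) s (hat T t) := fun T hT => (hd T hT).coc
  have hrel : ThRel S j del Psi W (fun s => S.un (alt W (fun T => hat T s) ∅)) :=
    om_rel hS hW h hcoc h2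
  rcases hcase with h0 | h0 | ⟨hc0, hd0⟩
  · rw [h0]
    rfl
  · have htf : S.TF (fun s => S.un (alt W (fun T => hat T s) ∅)) := by
      apply Sys.TF.comp (f := fun s => alt W (fun T => hat T s) ∅) ?_ S.un
      apply tf_alt hS W ∅ hat
      intro T hT
      rw [Finset.empty_union]
      exact (hd T hT).tf
    exact Sys.cp_fix hS hv (hrel.cp htf h0)
  · have hchi0 : ∀ X, chiC chi0 del X (S.sg v) = 0 := fun X => by
      unfold chiC
      rw [hc0, Finset.sum_eq_zero (fun i _ => hd0 i), add_zero]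
    have e1 : S.un (alt W (fun T => hat T (S.sg v)) ∅) =
        alt W (fun X => (S.xi (chiC chi0 del X) (hat X) (Q X) v).1) ∅ := by
      apply hS.iota_inj
      rw [Sys.iota_un hS (two_alt_hat h (Finset.Subset.refl W) (Finset.empty_subset _)
        (Finset.disjoint_empty_right _) (by omega) h2 _), ← alt_map]
      apply alt_congr
      intro T hT
      rw [Finset.empty_union, (hd T hT).iota_xi1 hS v, Sys.dl_sg_zero hS hv (hchi0 T), sub_zero]
    rw [e1]
    have e2 := alt_map ((S.ac (S.phi v)).toLinearMap.toAddMonoidHom) W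
      (fun X => (S.xi (chiC chi0 del X) (hat X) (Q X) v).1) ∅
    change _ = S.ac (S.phi v) _ at e2
    rw [← e2]
    apply alt_congr
    intro T hT
    rw [Finset.empty_union]
    exact Sys.cp_fix hS hv ((hd T hT).xi_CP hS (hhom T) v)

/-- Existence of `Th`, unramified at all good places. -/
theorem exists_Th_face (hS : S.Ok) {W : Finset I} {j : ℕ} (hW : W.card = j + 1)
    {chi0 : G → ZMod l} {del : I → G → ZMod l} (hhom : ∀ X, S.HomG (chiC chi0 del X))
    {Psi : Finset I → G → V} (h : Star S W j Psi)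
    (hsel : ∀ X, X ⊆ W → S.IsSel (chiC chi0 del X) j (Psi X))
    (hcase : ∀ v ∈ S.good, S.ac (S.phi v) = 1 ∨ (∀ i, ∀ s ∈ S.D v, del i s = 0) ∨
      (chi0 (S.sg v) = 0 ∧ ∀ i, del i (S.sg v) = 0)) :
    ∃ Th : G → V1, S.TF Th ∧ ThRel S j del Psi W Th ∧ ∀ v ∈ S.good, Th (S.sg v) = 0 := by
  classical
  have hl : ∀ X : Finset I, ∃ (hat : G → V) (Q : Pl → V), X ⊆ W →
      S.LiftData (chiC chi0 del X) (Psi X) hat Q := by
    intro X
    by_cases hX : X ⊆ W
    · obtain ⟨hat, Q, h1⟩ := Sys.exists_liftData hS (hhom X) (hsel X hX)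
      exact ⟨hat, Q, fun _ => h1⟩
    · exact ⟨0, 0, fun hc => absurd hc hX⟩
  choose hat Q hd using hl
  have h2 : ∀ T, T ⊆ W → ∀ s, S.lam • hat T s = Psi T s := fun T hT => (hd T hT).two
  have hcoc : ∀ T, T ⊆ W → ∀ s t,
      hat T (s * t) = hat T s + S.tw (chiC chi0 del T) s (hat T t) := fun T hT => (hd T hT).coc
  set Om : G → V1 := fun s => S.un (alt W (fun T => hat T s) ∅) with hOm
  have hrel : ThRel S j del Psi W Om := om_rel hS hW h hcoc h2
  have htfOm : S.TF Om := by
    apply Sys.TF.comp (f := fun s => alt W (fun T => hat T s) ∅) ?_ S.un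
    apply tf_alt hS W ∅ hat
    intro T hT
    rw [Finset.empty_union]
    exact (hd T hT).tf
  have hone : Om 1 = 0 := by
    have e1 : alt W (fun T => hat T (1 : G)) ∅ = alt W (fun _ => (0 : V)) ∅ := by
      apply alt_congr
      intro T hT
      rw [Finset.empty_union]
      exact Sys.coc_one (hhom T).2 (hcoc T hT)
    change S.un (alt W (fun T => hat T (1 : G)) ∅) = 0
    rw [e1, alt_zero]
    exact Sys.un_zero hS
  have hfin : {v | Om (S.sg v) ≠ 0}.Finite := by
    obtain ⟨N, hN, h3⟩ := htfOm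
    refine (hS.unr N hN).subset fun v hv hm => hv ?_
    have := h3 1 _ hm
    rwa [one_mul, hone] at this
  obtain ⟨c, hc, hcv⟩ := hS.corr (fun v => Om (S.sg v)) hfin
    (fun v hv => om_fix' hS hW hhom h hd hv (hcase v hv))
  refine ⟨fun s => Om s - c s, htfOm.comp₂ hS hc.1 (fun a b => a - b), hrel.add_coc hc.2, ?_⟩
  intro v hv
  change Om (S.sg v) - c (S.sg v) = 0
  rw [hcv v hv, sub_self]

end Pool.Agent.SmL
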