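import Pool.Agent.Lib.SmL.I.Claim
import Pool.Agent.Lib.SmL.I.UniInst
import Pool.Agent.Lib.SmL.A.GridAbs

/-!
# SMITH-L, block I: the joint between I5 and `grid_abs`: factorisation of the condition `Good` and of
`Fab` at the good points

`form_of` is the general form, `form` the case of a code `b` supported in `none = ib`, `formD` the
diagonal case (symmetric levels).
-/

set_option autoImplicit false

open Finset

namespace Pool.Agent.SmL.UD

open Pool.Agent.SmL Pool.Agent.SmL.IT Pool.Agent.SmA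

section general

variable {l : ℕ} {A G V V1 Pl : Type*} [CommRing A] [Group G] [AddCommGroup V] [Module A V]
  [DistribMulAction G V] [AddCommGroup V1] [Module (ZMod l) V1] {S : Sys l A G V V1 Pl}
variable {ι : Type*} [Fintype ι] [DecidableEq ι] {X : ι → Type*} {Γ : Grid S X} {r k : ℕ}
variable {τ : Twr l G V1 ι r} {x0 x y : ∀ i, X i}

/-- The conditions on a face depend only on the coordinates of the face. -/
theorem faceOk_congr {U : Finset ι} (h : ∀ i ∈ U, x i = y i) (hx : τ.FaceOk Γ k U x0 x) :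
    τ.FaceOk Γ k U x0 y := by
  have hm : ∀ T, T ⊆ U → mix T x0 x = mix T x0 y := fun T hT => Grid.mix_congr hT h
  refine ⟨fun i hi => h i hi ▸ hx.1 i hi, fun T hT => hm T hT ▸ hx.2.1 T hT,
    fun n W hW hW0 hWj T hT s => ?_⟩
  rw [← hx.2.2 n W hW hW0 hWj T hT s]
  refine alt_congr fun T' hT' => ?_
  unfold Twr.fam
  rw [hm (T ∪ T') (union_subset (hT.trans sdiff_subset) (hT'.trans hW))]

theorem faceOk_iff {U : Finset ι} (h : ∀ i ∈ U, x i = y i) :
    τ.FaceOk Γ k U x0 x ↔ τ.FaceOk Γ k U x0 y :=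
  ⟨faceOk_congr h, faceOk_congr fun i hi => (h i hi).symm⟩

open Classical in
/-- (hfac) -/
theorem hfac (τ : Twr l G V1 ι r) (Γ : Grid S X) (k : ℕ) (x0 : ∀ i, X i) :
    ∃ φ : ι → (∀ i, X i) → ℂ, (∀ j, SmL.Misses j (φ j)) ∧
      ∀ x, (if τ.Good Γ k x0 x then (1 : ℂ) else 0) = ∏ j, φ j x := by
  refine ⟨fun j x => if τ.FaceOk Γ k (univ.erase j) x0 x then 1 else 0, fun j => ⟨fun x => ?_,
    fun x z => ?_⟩, fun x => ?_⟩
  · beta_reduce
    split_ifs <;> simp
  · have h1 : τ.FaceOk Γ k (univ.erase j) x0 (Function.update x j z) ↔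
        τ.FaceOk Γ k (univ.erase j) x0 x :=
      faceOk_iff fun i hi => Function.update_of_ne (ne_of_mem_erase hi) _ _
    simp only [h1]
  · by_cases h : τ.Good Γ k x0 x
    · rw [if_pos h, prod_eq_one]
      intro j _
      exact if_pos (h j)
    · rw [if_neg h]
      obtain ⟨j, hj⟩ : ∃ j, ¬ τ.FaceOk Γ k (univ.erase j) x0 x := by
        by_contra hc
        push Not at hc
        exact h hc
      symm
      exact prod_eq_zero (mem_univ j) (if_neg hj)

theorem ps_sum {α B : Type*} [AddCommMonoid B] (ps : AddChar B ℂ) (s : Finset α) (f : α → B) :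
    ps (∑ i ∈ s, f i) = ∏ i ∈ s, ps (f i) := by
  classical
  induction s using Finset.induction_on with
  | empty => simp
  | insert a s ha ih => rw [sum_insert ha, prod_insert ha, AddChar.map_add_eq_mul, ih]

end general

variable {l : ℕ} {A G V V1 Pl : Type*} [CommRing A] [Group G] [AddCommGroup V] [Module A V]
  [DistribMulAction G V] [AddCommGroup V1] [Module (ZMod l) V1] {S : Sys l A G V V1 Pl}
variable {k r : ℕ} {X : Option (Option (Fin k)) → Type*} {Γ : Grid S X}
variable {τ : Twr l G V1 (Option (Option (Fin k))) r} {x0 x : ∀ i, X i}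

theorem extP_agree (x0 x : ∀ i, X i) :
    ∀ i ∈ (univ : Finset (Option (Option (Fin k)))).erase none,
      extP x0 (fun i => x (some i)) i = x i := by
  intro i hi
  cases i with
  | none => exact absurd hi (notMem_erase _ _)
  | some i => rfl

/-- (u4), first part. -/
theorem good_FG (h : τ.Good Γ k x0 x) : τ.FG Γ x0 (fun i => x (some i)) :=
  faceOk_congr (fun i hi => (extP_agree x0 x i hi).symm) (h none)

theorem none_notMem_upF (T : Finset (Fin k)) : none ∉ upF T := by
  simp [upF]

theorem upF_nonempty (T : Finset (Fin k)) : (upF T).Nonempty :=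
  insert_nonempty _ _

theorem upF_card (T : Finset (Fin k)) : (upF T).card = T.card + 1 := by
  unfold upF
  rw [card_insert_of_notMem, card_map]
  simp

theorem phiC_ext {R : Finset (Option (Option (Fin k)))} (hR : none ∉ R) :
    PhiC S k (τ.fam Γ k x0 (extP x0 (fun i => x (some i))) 0) R =
      PhiC S k (τ.fam Γ k x0 x 0) R := by
  apply IC.phiC_congr
  intro T hT
  unfold Twr.fam
  rw [Grid.mix_congr (U := univ.erase none) (IC.subset_erase fun h => hR (hT h)) (extP_agree x0 x)]

theorem pdel_ext {T : Finset (Option (Option (Fin k)))} (hT : none ∉ T) (s : G) :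
    pdel (Γ.del x0 (extP x0 (fun i => x (some i)))) T s = pdel (Γ.del x0 x) T s := by
  unfold pdel
  refine prod_congr rfl fun i hi => ?_
  cases i with
  | none => exact absurd hi hT
  | some i => rfl

/-- The condition on `Th` on the lower face, for the point `x`. -/
theorem isTh_ext {Th : G → V1} (h : τ.IsTh Γ x0 (fun i => x (some i)) Th) :
    ThRel S k (Γ.del x0 x) (τ.fam Γ k x0 x 0) (univ.erase none) Th := by
  intro s t
  have h1 := h.2.1 s t
  have key : ∀ T ∈ (univ.erase none).powerset.erase ∅,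
      pdel (Γ.del x0 (extP x0 (fun i => x (some i)))) T s •
        PhiC S k (τ.fam Γ k x0 (extP x0 (fun i => x (some i))) 0) (univ.erase none \ T) t =
      pdel (Γ.del x0 x) T s • PhiC S k (τ.fam Γ k x0 x 0) (univ.erase none \ T) t := by
    intro T hT
    have hT' : none ∉ T := fun hc =>
      notMem_erase none _ (mem_powerset.1 (mem_of_mem_erase hT) hc)
    rw [pdel_ext hT', phiC_ext]
    exact fun hc => notMem_erase none _ (mem_sdiff.1 hc).1
  rw [sum_congr rfl key] at h1
  exact h1

/-- `Th` vanishes at the tame generators of the conjugated system of the whole cube. -/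
theorem th_unr (hS : S.Ok) (hΓ : Γ.Ok) (hτ : τ.Ok Γ k) (hσ : τ.sig 0 ⊆ {none, some none})
    (h : τ.FG Γ x0 (fun i => x (some i))) (hne : Γ.Sep x0 x) {v : Pl} (hv : v ∈ S.good) :
    τ.Th Γ x0 (fun i => x (some i)) ((S.conj (Γ.cg x0 x)).sg v) = 0 := by
  have hth := exists_isTh hS hΓ hτ h
  by_cases hvn : v = Γ.pl none (x none)
  · have hIs := UU_is hS hΓ hτ hσ h
    have hb : v ∉ Γ.bad := by
      rw [hvn]
      exact hΓ.pl_bad _ _
    have hdir : ∀ (i : Option (Fin k)) (y : X (some i)), v ≠ Γ.pl (some i) y := by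
      intro i y hc
      rw [hvn] at hc
      exact absurd (hΓ.pl_dir _ _ _ _ hc) (by simp)
    obtain ⟨h1, h2⟩ := UU_sg hS hΓ hτ hσ h hb (fun i => hdir i _) (fun i => hdir i _)
    have h3 := hIs.conj_zero (Sys.ac_sg hS hv) h1 h2 (Γ.cg x0 x v) univ
    have h4 : (τ.UU Γ x0 (fun i => x (some i))).Phi univ = τ.Th Γ x0 (fun i => x (some i)) := by
      unfold Twr.UU
      exact if_pos rfl
    rw [h4] at h3
    exact h3
  · -- the two systems agree at `v`
    have hcg : Γ.cg x0 x v = Γ.cg x0 (extP x0 (fun i => x (some i))) v := by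
      by_cases hpl : ∃ i e, v = Γ.plc x0 (extP x0 (fun i => x (some i))) i e
      · obtain ⟨i, e, hve⟩ := hpl
        rw [hve, Grid.cg_plc hΓ (FG_sep h) i e]
        cases i with
        | none =>
          have h1 : Grid.pt x0 (extP x0 fun i => x (some i)) none e = x0 none := by
            cases e <;> rfl
          have h2 : Γ.plc x0 (extP x0 fun i => x (some i)) none e = Γ.plc x0 x none false := by
            unfold Grid.plc
            rw [h1]
            rfl
          rw [h2, h1, Grid.cg_plc hΓ hne none false]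
          rfl
        | some i =>
          have h2 : Γ.plc x0 (extP x0 fun i => x (some i)) (some i) e =
              Γ.plc x0 x (some i) e := rfl
          rw [h2, Grid.cg_plc hΓ hne (some i) e]
          rfl
      · push Not at hpl
        rw [Grid.cg_off hpl, Grid.cg_off]
        intro i e hc
        cases i with
        | none =>
          cases e with
          | true => exact hvn hc
          | false => exact hpl none false hc
        | some i => exact hpl (some i) e hc
    have h1 := hth.2.2 v hv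
    change τ.Th Γ x0 (fun i => x (some i)) (Γ.cg x0 x v * S.sg v * (Γ.cg x0 x v)⁻¹) = 0
    rw [hcg]
    exact h1

/-- The alternating sum of `Fab` over all good cubes with the first vertex `x0` is
`- nu e (Th (phx x) - Th (phx x0), b)`. -/
def SumOk (τ : Twr l G V1 (Option (Option (Fin k))) r) (Γ : Grid S X) (nu : ZMod l)
    (x0 : ∀ i, X i) : Prop :=
  ∀ x, τ.Good Γ k x0 x → ∀ Th : G → V1, S.TF Th →
    ThRel S k (Γ.del x0 x) (τ.fam Γ k x0 x 0) (univ.erase none) Th →
    (∀ v ∈ S.good, Th ((S.conj (Γ.cg x0 x)).sg v) = 0) →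
    ∑ T : Finset (Option (Option (Fin k))), (-1) ^ T.card * τ.Fab Γ k (mix T x0 x) =
      -(nu * S.e (Th (Γ.phx none (x none)) - Th (Γ.phx none (x0 none))) (τ.b.2 none))

open Classical in
/-- (u4), general form. -/
theorem form_of (hS : S.Ok) (hΓ : Γ.Ok) (hτ : τ.Ok Γ k) (hk : 1 ≤ k)
    (hσ : τ.sig 0 ⊆ {none, some none}) (nu : ZMod l) (x0 : ∀ i, X i) (hsum : SumOk τ Γ nu x0)
    (ps : AddChar (ZMod l) ℂ) (lam : V1 →+ ZMod l)
    (hlam : ∀ w, lam w = -(-1) ^ k * (nu * S.e w (τ.b.2 none))) :
    ∃ ψ : Option (Option (Fin k)) → (∀ i, X i) → ℂ, (∀ j, SmL.Misses j (ψ j)) ∧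
      ∀ x, τ.Good Γ k x0 x → ps (τ.Fab Γ k x) =
        (τ.UU Γ x0 (fun i => x (some i))).Kt (ps.compAddMonoidHom lam) (Γ.phx none (x none)) *
          ∏ j, ψ j x := by
  have hne0 : NeZero l := ⟨hS.prime.ne_zero⟩
  have hps : ∀ a, ‖ps a‖ = 1 := fun a => AddChar.norm_apply ps a
  -- the choice of a direction outside of `T`
  have hch : ∀ T : Finset (Option (Option (Fin k))), ∃ j, T ≠ univ → j ∉ T := by
    intro T
    by_cases hT : T = univ
    · exact ⟨none, fun h => absurd hT h⟩
    · obtain ⟨j, hj⟩ := IC.exists_notMem hT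
      exact ⟨j, fun _ => hj⟩
  choose J hJ using hch
  let E : Finset (Finset (Option (Option (Fin k)))) := univ.erase univ
  let ψ : Option (Option (Fin k)) → (∀ i, X i) → ℂ := fun j x =>
    (∏ T ∈ E with J T = j, ps (-(-1) ^ k * ((-1) ^ T.card * τ.Fab Γ k (mix T x0 x)))) *
      (if j = none then ps (-lam (τ.Th Γ x0 (fun i => x (some i)) (Γ.phx none (x0 none)))) else 1)
  refine ⟨ψ, fun j => ⟨fun x => ?_, fun x z => ?_⟩, fun x h => ?_⟩
  · change ‖_ * _‖ ≤ (1 : ℝ)
    rw [norm_mul, norm_prod, prod_congr rfl fun T _ => hps _, prod_const_one, one_mul]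
    split_ifs
    · exact (hps _).le
    · simp
  · change _ * _ = _ * _
    congr 1
    · refine prod_congr rfl fun T hT => ?_
      obtain ⟨hT1, hT2⟩ := mem_filter.1 hT
      have hj : j ∉ T := hT2 ▸ hJ T (ne_of_mem_erase hT1)
      rw [Grid.mix_congr (U := univ.erase j) (IC.subset_erase hj) fun i hi =>
        Function.update_of_ne (ne_of_mem_erase hi) z x]
    · split_ifs with hj
      · subst hj
        rfl
      · rfl
  · -- the formula
    have hcard : Fintype.card (Option (Option (Fin k))) = k + 2 := by simp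
    have hFG := good_FG h
    have hTh := exists_isTh hS hΓ hτ hFG
    have hne := IC.good_ne (by omega) h
    have hF := IC.fab_of_sum hcard (hsum x h _ hTh.1 (isTh_ext hTh)
      (fun v hv => th_unr hS hΓ hτ hσ hFG (Grid.Sep.of_ne hne) hv))
    -- the value of `Kt`
    have hcube := IC.good_cubeOk hS hΓ (by omega) h
    have hKt : (τ.UU Γ x0 (fun i => x (some i))).Kt (ps.compAddMonoidHom lam)
        (Γ.phx none (x none)) =
        ps (lam (τ.Th Γ x0 (fun i => x (some i)) (Γ.phx none (x none)))) := by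
      unfold Uni.Kt
      rw [if_pos]
      · have e1 : (τ.UU Γ x0 (fun i => x (some i))).Phi univ =
            τ.Th Γ x0 (fun i => x (some i)) := by
          unfold Twr.UU
          exact if_pos rfl
        rw [e1]
        rfl
      · refine ⟨fun i => ?_, fun T hT => ?_⟩
        · have h1 := hcube.del_D none true (some (some i)) (by simp) _
            ((hS.conj (Γ.cg x0 x)).phi_mem _)
          rw [Grid.cg_phi hΓ (Grid.Sep.of_ne hne)] at h1
          exact h1
        · have e1 : (τ.UU Γ x0 (fun i => x (some i))).Phi T =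
              PhiC S k (τ.fam Γ k x0 (extP x0 (fun i => x (some i))) 0) (upF T) := by
            unfold Twr.UU
            exact if_neg hT
          rw [e1, phiC_ext (none_notMem_upF T)]
          refine IC.good_phi_zero hS hΓ hτ hk hcard h (upF_nonempty T) ?_ (none_notMem_upF T)
            true
          rw [upF_card]
          have h2 : T.card < (univ : Finset (Fin k)).card :=
            card_lt_card (ssubset_univ_iff.2 hT)
          rw [card_univ, Fintype.card_fin] at h2
          omega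
    have e3 : ∏ j, ψ j x = (∏ T ∈ E, ps (-(-1) ^ k * ((-1) ^ T.card *
        τ.Fab Γ k (mix T x0 x)))) *
        ps (-lam (τ.Th Γ x0 (fun i => x (some i)) (Γ.phx none (x0 none)))) := by
      change ∏ j, (_ * _) = _
      rw [prod_mul_distrib]
      congr 1
      · exact prod_fiberwise_of_maps_to (fun T _ => mem_univ (J T)) _
      · rw [prod_ite_eq' univ none]
        simp
    rw [hKt, e3, ← ps_sum, ← AddChar.map_add_eq_mul, ← AddChar.map_add_eq_mul, hF, ← mul_sum,
      hlam, hlam]
    congr 1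
    change -(-1) ^ k * (∑ T ∈ E, _ + _) = _
    rw [map_sub, LinearMap.sub_apply]
    ring

/-- The code `b` is supported in the direction `none`. -/
theorem sumOk (hS : S.Ok) (hΓ : Γ.Ok) (hτ : τ.Ok Γ k) (hk : 1 ≤ k)
    (hb : ∀ i, i ≠ none → τ.b.2 i = 0) (x0 : ∀ i, X i) : SumOk τ Γ 1 x0 := by
  intro x h Th htf hrel hunr
  rw [one_mul]
  exact IC.good_sum hS hΓ hτ hk (by simp) h none hb htf hrel hunr

/-- The diagonal case. -/
theorem sumOkD (hS : S.Ok) (hΓ : Γ.Ok) (hτ : τ.Ok Γ k) (hk : 1 ≤ k)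
    (hsy : S.se * (-1) ^ k = 1) (hσ : τ.sig 0 = {none, some none}) {μ : ZMod l}
    (hb : ∀ i, τ.b.2 i = μ • (τ.c 0).2 i) (x0 : ∀ i, X i) : SumOk τ Γ 2 x0 := by
  intro x h Th htf hrel hunr
  exact IC.good_sumD hS hΓ hτ hk (by simp) h hsy
    (f := ⟨fun i : Fin k => some (some i), fun _ _ h => Option.some.inj (Option.some.inj h)⟩)
    (by simp) (ia := some none) (ib := none) (by simp) (fun i => by simp) (fun i => by simp)
    (fun x => by
      rcases x with _ | _ | i
      · exact Or.inr (Or.inl rfl)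
      · exact Or.inl rfl
      · exact Or.inr (Or.inr ⟨i, rfl⟩)) (by rw [hσ, pair_comm]) hb htf hrel hunr

/-- (u4), the code `b` is supported in the direction `none`. -/
theorem form (hS : S.Ok) (hΓ : Γ.Ok) (hτ : τ.Ok Γ k) (hk : 1 ≤ k)
    (hσ : τ.sig 0 ⊆ {none, some none}) (hb : ∀ i, i ≠ none → τ.b.2 i = 0)
    (ps : AddChar (ZMod l) ℂ) (lam : V1 →+ ZMod l)
    (hlam : ∀ w, lam w = -(-1) ^ k * S.e w (τ.b.2 none)) (x0 : ∀ i, X i) :
    ∃ ψ : Option (Option (Fin k)) → (∀ i, X i) → ℂ, (∀ j, SmL.Misses j (ψ j)) ∧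
      ∀ x, τ.Good Γ k x0 x → ps (τ.Fab Γ k x) =
        (τ.UU Γ x0 (fun i => x (some i))).Kt (ps.compAddMonoidHom lam) (Γ.phx none (x none)) *
          ∏ j, ψ j x :=
  form_of hS hΓ hτ hk hσ 1 x0 (sumOk hS hΓ hτ hk hb x0) ps lam
    (fun w => by rw [hlam, one_mul])

/-- (u4), diagonal case: symmetric level, the vector of `b` is a multiple of the vector of `c 0`. -/
theorem formD (hS : S.Ok) (hΓ : Γ.Ok) (hτ : τ.Ok Γ k) (hk : 1 ≤ k)
    (hsy : S.se * (-1) ^ k = 1) (hσ : τ.sig 0 = {none, some none}) {μ : ZMod l}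
    (hb : ∀ i, τ.b.2 i = μ • (τ.c 0).2 i)
    (ps : AddChar (ZMod l) ℂ) (lam : V1 →+ ZMod l)
    (hlam : ∀ w, lam w = -(-1) ^ k * (2 * S.e w (τ.b.2 none))) (x0 : ∀ i, X i) :
    ∃ ψ : Option (Option (Fin k)) → (∀ i, X i) → ℂ, (∀ j, SmL.Misses j (ψ j)) ∧
      ∀ x, τ.Good Γ k x0 x → ps (τ.Fab Γ k x) =
        (τ.UU Γ x0 (fun i => x (some i))).Kt (ps.compAddMonoidHom lam) (Γ.phx none (x none)) *
          ∏ j, ψ j x :=
  form_of hS hΓ hτ hk hσ.subset 2 x0 (sumOkD hS hΓ hτ hk hsy hσ hb x0) ps lam hlam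

end Pool.Agent.SmL.UD
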