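import Pool.Agent.Lib.SmL.I.GridThmN
import Pool.Agent.Lib.SmL.I.GridTop
import Pool.Agent.Lib.SmL.I.UData
import Pool.Agent.Lib.SmL.I.GridOkN
import Pool.Agent.Lib.SmL.I.LastN
import Pool.Agent.Lib.SmL.I.ChebN
import Pool.Agent.Lib.SmL.I.TypeN

/-!
# SMITH-L (l odd), block I: Theorem I from Chebotarev, for independent and for diagonal pairs
-/

set_option autoImplicit false

open Finset

namespace Pool.Agent.SmL.FrN

open Pool.Agent.SmA

section abstract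

variable {l : ℕ} {A G V V1 Pl : Type*} [CommRing A] [Group G] [AddCommGroup V] [Module A V]
  [DistribMulAction G V] [AddCommGroup V1] [Module (ZMod l) V1] {S : Sys l A G V V1 Pl}
variable {m r : ℕ} {X : Option (Option (Fin m)) → Type*} {Γ : Grid S X}
  {τ : Twr l G V1 (Option (Option (Fin m))) r}

private theorem two_ne (hS : S.Ok) : (2 : ZMod l) ≠ 0 := by
  have : Fact l.Prime := ⟨hS.prime⟩
  intro h
  have h1 : ((2 : ℕ) : ZMod l) = 0 := by exact_mod_cast h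
  rw [ZMod.natCast_eq_zero_iff] at h1
  exact hS.odd ((Nat.prime_dvd_prime_iff_eq hS.prime Nat.prime_two).1 h1)

private theorem sign_ne (hS : S.Ok) (k : ℕ) : (-(-1) ^ k : ZMod l) ≠ 0 := by
  have : Fact l.Prime := ⟨hS.prime⟩
  exact neg_ne_zero.2 (pow_ne_zero _ (neg_ne_zero.2 one_ne_zero))

/-- The form at the good pairs, independent pairs. -/
theorem top_ind [Fintype (X none)] {Pr : Type*} (hS : S.Ok) (hΓ : Γ.Ok) (hτ : τ.Ok Γ m)
    (hm : 1 ≤ m) (hσ : τ.sig 0 = {some none}) (hb : ∀ i, i ≠ none → τ.b.2 i = 0)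
    (hee : S.e ((τ.c 0).2 (some none)) (τ.b.2 none) = 1)
    (pl : Pr → Pl) (deg : Pr → ℕ) {q a C : ℕ}
    (hC : ChebU S.NN S.ac.ker Γ.R deg (fun P => S.sg (pl P)) (fun P => S.phi (pl P)) q a C)
    (po : ∀ i, X i → Pr) (M : Subgroup G) (K0 : ℕ) (Q : G → Prop) (D : ℕ) (E B0 : Finset Pr)
    (rr : ℕ) (hL : LastOk Γ pl deg po M K0 Q D E B0 rr) :
    HasTop τ Γ (fun x => psi (τ.Fab Γ m x)) (bGr l (Nat.card V1) m K0 rr a q C D) := by
  have : Fact l.Prime := ⟨hS.prime⟩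
  have hsub : τ.sig 0 ⊆ {none, some none} := by
    rw [hσ]
    intro i hi
    rw [mem_singleton] at hi
    rw [hi]
    simp
  refine top_of_form hS hΓ hτ hm hsub _ (topPs S (-(-1) ^ m) (τ.b.2 none))
    (fun u hu => topPs_ne (sign_ne hS m) (by rw [hee]; exact one_ne_zero) hu)
    (fun x0 => ?_) pl deg hC po M K0 Q D E B0 rr hL
  obtain ⟨ψ, h1, h2⟩ := UD.form hS hΓ hτ hm hsub hb (psiC l)
    ((AddMonoidHom.mulLeft (-(-1) ^ m)).comp (S.e.flip (τ.b.2 none)).toAddMonoidHom)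
    (fun w => rfl) x0
  refine ⟨ψ, h1, fun x hx => ?_⟩
  have h3 := h2 x hx
  rw [psiC_apply] at h3
  exact h3

/-- The form at the good pairs, diagonal pairs at a symmetric level. -/
theorem top_diag [Fintype (X none)] {Pr : Type*} (hS : S.Ok) (hΓ : Γ.Ok) (hτ : τ.Ok Γ m)
    (hm : 1 ≤ m) (hsym : S.se * (-1) ^ m = 1) (hσ : τ.sig 0 = {some none, none}) {μ : ZMod l}
    (hμ : μ ≠ 0)
    (hb : ∀ i, τ.b.2 i = μ • (τ.c 0).2 i)
    (hee : S.e ((τ.c 0).2 (some none)) ((τ.c 0).2 none) = 1)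
    (pl : Pr → Pl) (deg : Pr → ℕ) {q a C : ℕ}
    (hC : ChebU S.NN S.ac.ker Γ.R deg (fun P => S.sg (pl P)) (fun P => S.phi (pl P)) q a C)
    (po : ∀ i, X i → Pr) (M : Subgroup G) (K0 : ℕ) (Q : G → Prop) (D : ℕ) (E B0 : Finset Pr)
    (rr : ℕ) (hL : LastOk Γ pl deg po M K0 Q D E B0 rr) :
    HasTop τ Γ (fun x => psi (τ.Fab Γ m x)) (bGr l (Nat.card V1) m K0 rr a q C D) := by
  have : Fact l.Prime := ⟨hS.prime⟩
  have hsub : τ.sig 0 ⊆ {none, some none} := by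
    rw [hσ]
    intro i hi
    simp only [mem_insert, mem_singleton] at hi ⊢
    exact hi.symm
  refine top_of_form hS hΓ hτ hm hsub _ (topPs S (-(-1) ^ m * 2) (τ.b.2 none))
    (fun u hu => topPs_ne (mul_ne_zero (sign_ne hS m) (two_ne hS)) (by
      rw [hb, map_smul, hee, smul_eq_mul, mul_one]
      exact hμ) hu)
    (fun x0 => ?_) pl deg hC po M K0 Q D E B0 rr hL
  obtain ⟨ψ, h1, h2⟩ := UD.formD hS hΓ hτ hm hsym (by rw [hσ, pair_comm]) hb (psiC l)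
    ((AddMonoidHom.mulLeft (-(-1) ^ m * 2)).comp (S.e.flip (τ.b.2 none)).toAddMonoidHom)
    (fun w => mul_assoc _ _ _) x0
  refine ⟨ψ, h1, fun x hx => ?_⟩
  have h3 := h2 x hx
  rw [psiC_apply] at h3
  exact h3

end abstract

variable {l : ℕ} {A G V V1 Pl : Type} [CommRing A] [Group G] [AddCommGroup V] [Module A V]
  [DistribMulAction G V] [AddCommGroup V1] [Module (ZMod l) V1] {S : Sys l A G V V1 Pl} {X : PSys}
  {cd : CData S X}

/-- The data of the last direction (`LastN`). -/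
theorem exists_hasLast (hS : S.Ok) (hc : cd.Ok) (hX : ∀ d, Finite (X.Of d))
    (hpos : ∀ P, 1 ≤ X.deg P) (hNf : ∀ N ∈ S.NN, N.index ≠ 0) (m : ℕ) :
    ∃ K1 B1, HasLast cd m K1 B1 := by
  obtain ⟨K1, h⟩ := CData.lastN hS hc hX hpos hNf
  set v := Nat.card V1
  refine ⟨K1, l + v * v, fun J _ ex p dir hd => ?_⟩
  obtain ⟨M, Q, E, B0, hL⟩ := h J _ ex m p dir hd
  refine ⟨M, _, Q, E, B0, _, ?_, ?_, hL⟩
  · have h1 : l * v ^ v ≤ 2 ^ (l + v * v) := by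
      rw [pow_add, pow_mul]
      exact Nat.mul_le_mul (Nat.lt_two_pow_self).le
        (Nat.pow_le_pow_left (Nat.lt_two_pow_self).le v)
    rw [pow_mul]
    exact Nat.mul_le_mul_left _ (Nat.pow_le_pow_left h1 _)
  · exact Nat.mul_le_mul_right _ (by norm_num)

/-- **Theorem I** (SMITH-L) from Chebotarev, independent pairs. -/
theorem gridThmN (hS : S.Ok) (hc : cd.Ok) {q : ℕ} (hX : X.Ok q)
    (hNf : ∀ N ∈ S.NN, N.index ≠ 0) {Geo : Subgroup G} {fr : G} (hG : CData.GeoOk (S := S) Geo fr)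
    {a C : ℕ} (hC : cd.Cheb Geo fr q a C) {m : ℕ} (hm : 1 ≤ m) : cd.GridThmN q m := by
  intro R η hη
  obtain ⟨K1, B1, hL⟩ := exists_hasLast hS hc hX.fin hX.pos hNf m
  have hC' := CData.chebU cd hS hc hX.fin hNf hG hC
  obtain ⟨n₀, h⟩ := grid_fin hS hc hX.fin (a := a * S.ac.ker.index)
    (C := 2 * (S.ac.ker.index ^ (a + 1) * C)) hX.two_le hm hL
    (fun J _ ex p dir hd => gridN_ok hS hc hd) R η hη
  refine ⟨n₀, fun J _ ex p a' b' dir hd hn hF ha hb hP hsu hXB =>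
    h J _ ex p a' b' dir hd hn hF ?_ hXB⟩
  obtain ⟨su⟩ := hsu
  obtain ⟨n, τ, h1, h2, h3, h4, h5, h6, h7, h8⟩ :=
    CData.exists_twrN hS hc hd (gridN_ok hS hc hd) hm ha hb hP su
  refine ⟨n, τ, ⟨h2, h1 ▸ CData.suppN_r_le hS hc su, h7, h8, fun x hx =>
    ⟨(CData.sel_cardN hS hc hd hx.1).1, (CData.sel_cardN hS hc hd hx.1).2.le⟩⟩, ?_⟩
  intro _ M K0 Q E B0 rr hLO
  exact top_ind hS (gridN_ok hS hc hd) h2 hm h3 h5 (by rw [h4, h6]; exact su.pair) cd.pl X.deg hC'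
    (fun _ x => x.1.1) M K0 Q _ E B0 rr hLO

/-- **Theorem I** (SMITH-L) from Chebotarev, diagonal pairs at the symmetric levels. -/
theorem gridThmD (hS : S.Ok) (hc : cd.Ok) {q : ℕ} (hX : X.Ok q)
    (hNf : ∀ N ∈ S.NN, N.index ≠ 0) {Geo : Subgroup G} {fr : G} (hG : CData.GeoOk (S := S) Geo fr)
    {a C : ℕ} (hC : cd.Cheb Geo fr q a C) {m : ℕ} (hm : 1 ≤ m) (hsym : S.Symm m) :
    cd.GridThmD q m := by
  intro R η hη
  obtain ⟨K1, B1, hL⟩ := exists_hasLast hS hc hX.fin hX.pos hNf m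
  have hC' := CData.chebU cd hS hc hX.fin hNf hG hC
  obtain ⟨n₀, h⟩ := grid_fin hS hc hX.fin (a := a * S.ac.ker.index)
    (C := 2 * (S.ac.ker.index ^ (a + 1) * C)) hX.two_le hm hL
    (fun J _ ex p dir hd => gridN_ok hS hc hd) R η hη
  refine ⟨n₀, fun J _ ex p a' b' dir hd hn hF ha hb hP hdiag hsu hXB =>
    h J _ ex p a' b' dir hd hn hF ?_ hXB⟩
  obtain ⟨su⟩ := hsu
  obtain ⟨n, τ, h1, h2, h3, h4, h5, ⟨μ, hμ, h6⟩, h7, h8⟩ :=
    CData.exists_twrD hS hc hd (gridN_ok hS hc hd) hm ha hb hP hdiag su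
  refine ⟨n, τ, ⟨h2, h1 ▸ CData.suppD_r_le hS hc su, h7, h8, fun x hx =>
    ⟨(CData.sel_cardN hS hc hd hx.1).1, (CData.sel_cardN hS hc hd hx.1).2.le⟩⟩, ?_⟩
  intro _ M K0 Q E B0 rr hLO
  exact top_diag hS (gridN_ok hS hc hd) h2 hm hsym h3 hμ h6 (by rw [h4, h5]; exact su.pair)
    cd.pl X.deg hC' (fun _ x => x.1.1) M K0 Q _ E B0 rr hLO

end Pool.Agent.SmL.FrN
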