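import Pool.Agent.Lib.SmL.I.Face

/-!
# SMITH-L (l odd), block I, section I4: the alternating sum over a face all of whose proper faces are
minimal is an element of the finite group `HH Γ x W`

The index of a face with directions `W` is `ix σ W` (`|W|`, or `|W| - 1` if `W` meets `σ`); the
argument is the same for all nonempty faces, since `ix σ W ≤ ix σ W' + |W \ W'|`.
-/

set_option autoImplicit false

open Finset

namespace Pool.Agent.SmL

open Pool.Agent.SmL.IT Pool.Agent.SmA

section general

variable {l : ℕ} {A G V V1 Pl I : Type*} [CommRing A] [Group G] [AddCommGroup V] [Module A V]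
  [DistribMulAction G V] [AddCommGroup V1] [Module (ZMod l) V1] [DecidableEq I]
variable {S : Sys l A G V V1 Pl}

/-- Minimality gives vanishing for larger powers of `lam`. -/
theorem mn_le {σ U P : Finset I} {Psi : Finset I → G → V} {j a : ℕ} (h : Mn S σ j Psi U P)
    (ha : j ≤ ix σ U + a) (s : G) : alt U (fun T => S.lam ^ a • Psi T s) P = 0 := by
  have e : ∀ T : Finset I, S.lam ^ a • Psi T s =
      S.lam ^ (a - (j - ix σ U)) • S.lam ^ (j - ix σ U) • Psi T s := by
    intro T
    rw [smul_smul, ← pow_add]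
    congr 2
    omega
  simp only [e]
  rw [alt_smulA, h s, smul_zero]

/-- The index of a smaller face. -/
theorem ix_sdiff (σ : Finset I) {W T : Finset I} (hT : T ⊆ W) :
    ix σ W ≤ ix σ (W \ T) + T.card := by
  have h1 : (W \ T).card = W.card - T.card := card_sdiff_of_subset hT
  have h2 : T.card ≤ W.card := card_le_card hT
  by_cases hW : Disjoint W σ
  · rw [ix_of_disjoint hW, ix_of_disjoint (hW.mono_left sdiff_subset)]
    omega
  · rw [ix_of_not hW]
    by_cases hW' : Disjoint (W \ T) σ
    · rw [ix_of_disjoint hW']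
      omega
    · rw [ix_of_not hW']
      have h3 : 0 < (W \ T).card := by
        rw [card_pos]
        by_contra hc
        rw [not_nonempty_iff_eq_empty] at hc
        rw [hc] at hW'
        exact hW' (disjoint_empty_left σ)
      omega

/-- The alternating sum over a face all of whose proper faces are minimal is a cocycle with values
in `V1`. -/
theorem delta_coc (hS : S.Ok) {chi0 : G → ZMod l} {del : I → G → ZMod l}
    {Psi : Finset I → G → V} {σ W T : Finset I} {j : ℕ} (hWT : Disjoint W T) (hne : W.Nonempty)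
    (htf : ∀ T', T' ⊆ W → S.TF (Psi (T ∪ T')))
    (hc : ∀ T', T' ⊆ W → ∀ s t, Psi (T ∪ T') (s * t) =
      Psi (T ∪ T') s + S.tw (chiC chi0 del (T ∪ T')) s (Psi (T ∪ T') t))
    (hmin : ∀ W', W' ⊂ W → ∀ T', T' ⊆ W \ W' → Mn S σ j Psi W' (T ∪ T')) :
    ∃ h : G → V1, S.CocG h ∧
      ∀ s, S.iota (h s) = alt W (fun P => S.lam ^ (j - ix σ W) • Psi P s) T := by
  have h2 : ∀ s, S.lam • alt W (fun P => S.lam ^ (j - ix σ W) • Psi P s) T = 0 := by
    intro s
    obtain ⟨i, hi⟩ := hne
    have h3 : W.erase i ⊂ W := erase_ssubset hi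
    have h5 : ix σ W ≤ ix σ (W.erase i) + 1 := by
      have := ix_sdiff σ (singleton_subset_iff.2 hi)
      rwa [card_singleton, sdiff_singleton_eq_erase] at this
    have h6 : ∀ P : Finset I, S.lam • S.lam ^ (j - ix σ W) • Psi P s =
        S.lam ^ (j - ix σ W + 1) • Psi P s := by
      intro P
      rw [smul_smul, ← pow_succ']
    rw [← alt_smulA]
    simp only [h6]
    rw [alt_of_mem hi]
    have h7 := mn_le (a := j - ix σ W + 1) (hmin _ h3 ∅ (empty_subset _)) (by omega) s
    have h8 := mn_le (a := j - ix σ W + 1) (hmin _ h3 {i} (by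
      intro x hx
      rw [mem_singleton] at hx
      subst hx
      simp [hi])) (by omega) s
    rw [union_empty] at h7
    rw [union_singleton] at h8
    rw [h7, h8, sub_zero]
  obtain ⟨h, hh⟩ := Sys.exists_V1 hS h2
  refine ⟨h, ⟨?_, ?_⟩, hh⟩
  · have e : h = fun s => S.un (alt W (fun P => S.lam ^ (j - ix σ W) • Psi P s) T) := by
      funext s
      rw [← hh s, Sys.un_iota hS]
    rw [e]
    apply Sys.TF.comp (f := fun s => alt W (fun P => S.lam ^ (j - ix σ W) • Psi P s) T) ?_ S.un
    apply tf_alt hS W T (fun P s => S.lam ^ (j - ix σ W) • Psi P s)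
    intro T' hT'
    exact (htf T' hT').comp (fun x => S.lam ^ (j - ix σ W) • x)
  · intro s t
    apply hS.iota_inj
    rw [map_add, hh]
    have h1 := alt_cocycle hS chi0 del (fun P g => S.lam ^ (j - ix σ W) • Psi P g) s t W T hWT (by
      intro T' hT'
      rw [hc T' hT' s t, smul_add, Sys.tw_smul hS])
    rw [h1, hh s]
    congr 1
    have h9 : (∑ T' ∈ W.powerset, (S.lam ^ T'.card * pdelA S del T' s) •
        alt (W \ T') (fun Q => S.lam ^ (j - ix σ W) • Psi Q t) (T ∪ T')) =
        alt W (fun P => S.lam ^ (j - ix σ W) • Psi P t) T := by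
      rw [sum_eq_single ∅]
      · simp [pdelA_empty]
      · intro T' hT' hne'
        have hT'W : T' ⊆ W := mem_powerset.1 hT'
        have hss : W \ T' ⊂ W := sdiff_ssubset hT'W (nonempty_iff_ne_empty.2 hne')
        have h10 := hmin (W \ T') hss T' (by
          rw [Finset.sdiff_sdiff_eq_self hT'W])
        have h12 := ix_sdiff σ hT'W
        rw [mul_comm, mul_smul, ← alt_smulA]
        have h11 : ∀ Q : Finset I, S.lam ^ T'.card • S.lam ^ (j - ix σ W) • Psi Q t =
            S.lam ^ (T'.card + (j - ix σ W)) • Psi Q t := by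
          intro Q
          rw [smul_smul, ← pow_add]
        simp only [h11]
        rw [mn_le h10 (by omega) t, smul_zero]
      · intro hn
        exact absurd (empty_mem_powerset W) hn
    rw [h9, ← hh t, Sys.tw_iota hS]

/-- The alternating sum over a face where all vertices satisfy the local condition for the same
twist. -/
theorem delta_loc (hS : S.Ok) {chi : G → ZMod l} {v : Pl} {f : Finset I → G → V}
    {W T : Finset I} (hf : ∀ T', T' ⊆ W → S.Zv chi v (f (T ∪ T'))) {h : G → V1}
    (hh : ∀ s, S.iota (h s) = alt W (fun P => f P s) T) : S.loc v h ∈ S.Wl chi v := by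
  have hQ : ∃ Q : Finset I → V, ∀ T', T' ⊆ W → ∀ s ∈ S.D v,
      f (T ∪ T') s = S.dl chi (Q T') s := by
    have : ∀ T' : Finset I, ∃ Q : V, T' ⊆ W → ∀ s ∈ S.D v, f (T ∪ T') s = S.dl chi Q s := by
      intro T'
      by_cases hT' : T' ⊆ W
      · obtain ⟨Q, hQ⟩ := hf T' hT'
        exact ⟨Q, fun _ => hQ⟩
      · exact ⟨0, fun hc => absurd hc hT'⟩
    choose Q hQ using this
    exact ⟨Q, hQ⟩
  obtain ⟨Q, hQ⟩ := hQ
  set R : V := ∑ T' ∈ W.powerset, (-1 : ℤ) ^ T'.card • Q T' with hR
  have key : ∀ s ∈ S.D v, S.dl chi R s = S.iota (h s) := by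
    intro s hs
    rw [hh s]
    change dlHom S chi s R = _
    rw [hR, map_sum]
    unfold alt
    refine sum_congr rfl fun T' hT' => ?_
    beta_reduce
    rw [map_zsmul, hQ T' (mem_powerset.1 hT') s hs]
    rfl
  exact ⟨R, fun s hs => by rw [key s hs, hS.lam_iota], key _ (hS.sg_mem v), key _ (hS.phi_mem v)⟩

end general

variable {l : ℕ} {A G V V1 Pl : Type*} [CommRing A] [Group G] [AddCommGroup V] [Module A V]
  [DistribMulAction G V] [AddCommGroup V1] [Module (ZMod l) V1] {S : Sys l A G V V1 Pl}
variable {ι : Type*} [Fintype ι] {X : ι → Type*} {r k : ℕ} {Γ : Grid S X} {τ : Twr l G V1 ι r}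

theorem psi_spec {x : ∀ i, X i} (hx : x ∈ τ.Y Γ k) (n : Fin (r + 1)) :
    τ.IsTow Γ k x n (τ.psi Γ k x n) := by
  unfold Twr.psi
  rw [dif_pos (hx.2 n)]
  exact (hx.2 n).choose_spec

/-- The base of the tower. -/
theorem psi_base_sg (hS : S.Ok) (hΓ : Γ.Ok) (hτ : τ.Ok Γ k) {x : ∀ i, X i} (hx : x ∈ τ.Y Γ k)
    (n : Fin (r + 1)) (m : ι) :
    S.lam ^ (τ.jl n - 1) • τ.psi Γ k x n (Γ.sgx m (x m)) = S.iota ((τ.c n).2 m) := by
  rw [(psi_spec hx n).base, Grid.ch_sgx hS hΓ (hτ.c_mem n).1]

variable [DecidableEq ι]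

/-- I4: the difference cochain is in the finite group. -/
theorem delta_mem (hS : S.Ok) (hΓ : Γ.Ok) (hτ : τ.Ok Γ k) {c0 : Fin (r + 1) → ι → V}
    {y z : ∀ i, X i} {n : Fin (r + 1)} {W T : Finset ι} (hWT : Disjoint W T) (hne : W.Nonempty)
    (hcj : ∀ m, Γ.cj m (y m) = Γ.cj m (z m))
    (hY : ∀ T', T' ⊆ W → mix (T ∪ T') y z ∈ τ.Y Γ k ∧ τ.col Γ k (mix (T ∪ T') y z) = c0)
    (hmin : ∀ W', W' ⊂ W → W'.Nonempty → ∀ T', T' ⊆ W \ W' →
      Mn S (τ.sig n) (τ.jl n) (τ.fam Γ k y z n) W' (T ∪ T')) :
    ∃ h ∈ HH Γ (mix T y z) W, ∀ s, S.iota (h s) =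
      alt W (fun P => S.lam ^ (τ.jl n - ix (τ.sig n) W) • τ.fam Γ k y z n P s) T := by
  classical
  have hsel : ∀ T', T' ⊆ W → S.IsSel (Γ.chi (mix (T ∪ T') y z)) (τ.jl n)
      (τ.fam Γ k y z n (T ∪ T')) := fun T' hT' => (psi_spec (hY T' hT').1 n).sel
  -- degenerate cubes
  by_cases hdeg : ∃ i ∈ W, y i = z i
  · obtain ⟨i, hi, hyz⟩ := hdeg
    refine ⟨fun _ => 0, HH_zero hS Γ _ W, fun s => ?_⟩
    rw [map_zero]
    symm
    apply alt_eq_zero_of_indep hi
    intro T' hT'
    have : mix (insert i (T ∪ T')) y z = mix (T ∪ T') y z := by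
      funext j
      by_cases hji : j = i
      · subst hji
        rw [mix_mem y z (mem_insert_self _ _)]
        by_cases hjT : j ∈ T ∪ T'
        · rw [mix_mem y z hjT]
        · rw [mix_notMem y z hjT, hyz]
      · by_cases hjT : j ∈ T ∪ T'
        · rw [mix_mem y z hjT, mix_mem y z (mem_insert_of_mem hjT)]
        · rw [mix_notMem y z hjT, mix_notMem y z (by
            rw [mem_insert]
            push Not
            exact ⟨hji, hjT⟩)]
    unfold Twr.fam
    rw [this]
  push Not at hdeg
  obtain ⟨h, hh, hh'⟩ := delta_coc hS (chi0 := Γ.chi y) (del := Γ.del y z) (σ := τ.sig n)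
    (j := τ.jl n) (Psi := τ.fam Γ k y z n) hWT hne (fun T' hT' => (hsel T' hT').tf)
    (fun T' hT' s t => by
      rw [← Grid.chi_mix]
      exact (hsel T' hT').coc s t)
    (fun W' hW' T' hT' => by
      rcases eq_empty_or_nonempty W' with rfl | hne'
      · intro s
        rw [alt_empty, ix_of_disjoint (disjoint_empty_left _), card_empty, Nat.sub_zero]
        exact (hsel T' (hT'.trans sdiff_subset)).lev s
      · exact hmin W' hW' hne' T' hT')
  refine ⟨h, ⟨hh, ?_, ?_⟩, hh'⟩
  · -- the local conditions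
    intro v hv
    have hchi : ∀ T', T' ⊆ W → ∀ s ∈ S.D v,
        Γ.chi (mix (T ∪ T') y z) s = Γ.chi (mix T y z) s := by
      intro T' hT'
      rcases hv with hv | ⟨m, hm, rfl⟩
      · exact Grid.chi_bad hΓ _ _ hv
      · have h1 : mix (T ∪ T') y z m = mix T y z m := by
          by_cases hmT : m ∈ T
          · rw [mix_mem y z hmT, mix_mem y z (mem_union_left _ hmT)]
          · rw [mix_notMem y z hmT, mix_notMem y z (by
              rw [mem_union]
              push Not
              exact ⟨hmT, fun hc => hm (hT' hc)⟩)]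
        have h2 := (hY T' hT').1.1
        have h3 := (hY ∅ (empty_subset _)).1.1
        rw [union_empty] at h3
        intro s hs
        rw [← h1] at hs
        exact Grid.chi_D hS hΓ h2 h3 h1 (fun _ => 1) s (mem_D_conj_one hs)
    refine delta_loc hS (f := fun P s => S.lam ^ (τ.jl n - ix (τ.sig n) W) •
      τ.fam Γ k y z n P s) (W := W) (T := T) (fun T' hT' => ?_) hh'
    obtain ⟨Q, hQ⟩ := zv_congr (hchi T' hT') ((hsel T' hT').loc v)
    exact ⟨S.lam ^ (τ.jl n - ix (τ.sig n) W) • Q, fun s hs => by
      beta_reduce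
      rw [Sys.dl_smul hS, hQ s hs]⟩
  · -- unramified places
    intro v hv hvm
    have hsgv := Sys.ac_sg hS (hΓ.bad_good v hv)
    have hmixm : ∀ T', T' ⊆ W → ∀ m, m ∉ W → mix (T ∪ T') y z m = mix T y z m := by
      intro T' hT' m hm
      by_cases hmT : m ∈ T
      · rw [mix_mem y z hmT, mix_mem y z (mem_union_left _ hmT)]
      · rw [mix_notMem y z hmT, mix_notMem y z (by
          rw [mem_union]
          push Not
          exact ⟨hmT, fun hc => hm (hT' hc)⟩)]
    -- the representatives do not depend on the vertex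
    have hcjm : ∀ P m, Γ.cj m (mix P y z m) = Γ.cj m (y m) := by
      intro P m
      by_cases hmP : m ∈ P
      · rw [mix_mem y z hmP, hcj]
      · rw [mix_notMem y z hmP]
    -- the vertices which do not contain `v`
    have hoff : ∀ a, ∀ T', T' ⊆ W → (∀ m, v ≠ Γ.pl m (mix (T ∪ T') y z m)) →
        τ.fam Γ k y z n (T ∪ T') (a * S.sg v * a⁻¹) = 0 := fun a T' hT' hm =>
      sel_sg_off_conj hS hΓ (hsel T' hT') hv hm a
    by_cases hcase : ∃ m ∈ W, v = Γ.pl m (y m) ∨ v = Γ.pl m (z m)
    · obtain ⟨m, hmW, hvm'⟩ := hcase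
      have hmT : m ∉ T := fun hc => (disjoint_left.1 hWT hmW) hc
      set a := Γ.cj m (y m) with ha
      -- it is enough to consider the conjugate
      suffices hconj : h (a * S.sg v * a⁻¹) = 0 by
        rwa [cocG_conj hh.2 a hsgv, ac_eq_zero] at hconj
      apply hS.iota_inj
      rw [map_zero, hh']
      have hon : ∀ T', T' ⊆ W → v = Γ.pl m (mix (T ∪ T') y z m) →
          τ.fam Γ k y z n (T ∪ T') (a * S.sg v * a⁻¹) = c0 n m := by
        intro T' hT' hm
        rw [← (hY T' hT').2, hm, ha, ← hcjm (T ∪ T') m]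
        rfl
      -- the other directions do not contain `v`
      have hoth : ∀ T', T' ⊆ W → ∀ m', m' ≠ m → v ≠ Γ.pl m' (mix (T ∪ T') y z m') := by
        intro T' _ m' hm' hc
        rcases hvm' with h1 | h1 <;>
        · rw [h1] at hc
          exact hm' (hΓ.pl_dir _ _ _ _ hc).symm
      have hval : ∀ T', T' ⊆ W → τ.fam Γ k y z n (T ∪ T') (a * S.sg v * a⁻¹) =
          if v = Γ.pl m (mix (T ∪ T') y z m) then c0 n m else 0 := by
        intro T' hT'
        split_ifs with h1
        · exact hon T' hT' h1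
        · refine hoff a T' hT' fun m' => ?_
          by_cases hm' : m' = m
          · subst hm'
            exact h1
          · exact hoth T' hT' m' hm'
      -- the value depends only on whether `m ∈ T'`
      have hval2 : ∃ α β : V, (∀ T', T' ⊆ W → m ∉ T' →
          τ.fam Γ k y z n (T ∪ T') (a * S.sg v * a⁻¹) = α) ∧ (∀ T', T' ⊆ W → m ∈ T' →
          τ.fam Γ k y z n (T ∪ T') (a * S.sg v * a⁻¹) = β) ∧
          S.lam ^ (τ.jl n - ix (τ.sig n) {m}) • α = 0 ∧
          S.lam ^ (τ.jl n - ix (τ.sig n) {m}) • β = 0 := by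
        have hz0 : S.lam ^ (τ.jl n - ix (τ.sig n) {m}) • c0 n m = 0 := by
          have h2 := congrFun (congrFun (hY ∅ (empty_subset _)).2 n) m
          unfold Twr.col at h2
          rw [← h2]
          by_cases hmσ : m ∈ τ.sig n
          · have e1 : ix (τ.sig n) {m} = 0 := by
              rw [ix_of_not, card_singleton]
              rw [disjoint_singleton_left, not_not]
              exact hmσ
            rw [e1, Nat.sub_zero]
            exact (psi_spec (hY ∅ (empty_subset _)).1 n).sel.lev _
          · have e1 : ix (τ.sig n) {m} = 1 := by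
              rw [ix_of_disjoint, card_singleton]
              rwa [disjoint_singleton_left]
            have h1 := psi_base_sg hS hΓ hτ (hY ∅ (empty_subset _)).1 n m
            rw [hτ.supp n m hmσ, map_zero] at h1
            rw [e1]
            exact h1
        refine ⟨if v = Γ.pl m (y m) then c0 n m else 0, if v = Γ.pl m (z m) then c0 n m else 0,
          fun T' hT' hm => ?_, fun T' hT' hm => ?_, ?_, ?_⟩
        · rw [hval T' hT', mix_notMem y z (by
            rw [mem_union]
            push Not
            exact ⟨hmT, hm⟩)]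
        · rw [hval T' hT', mix_mem y z (mem_union_right _ hm)]
        · split_ifs
          · exact hz0
          · exact smul_zero _
        · split_ifs
          · exact hz0
          · exact smul_zero _
      obtain ⟨α, β, h1, h2, h3, h4⟩ := hval2
      rw [alt_of_mem hmW]
      have e1 : alt (W.erase m) (fun P => S.lam ^ (τ.jl n - ix (τ.sig n) W) •
          τ.fam Γ k y z n P (a * S.sg v * a⁻¹)) T = alt (W.erase m)
          (fun _ => S.lam ^ (τ.jl n - ix (τ.sig n) W) • α) T := by
        apply alt_congr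
        intro T' hT'
        rw [h1 T' (hT'.trans (erase_subset _ _)) fun hc => notMem_erase m W (hT' hc)]
      have e2 : alt (W.erase m) (fun P => S.lam ^ (τ.jl n - ix (τ.sig n) W) •
          τ.fam Γ k y z n P (a * S.sg v * a⁻¹)) (insert m T) = alt (W.erase m)
          (fun _ => S.lam ^ (τ.jl n - ix (τ.sig n) W) • β) (insert m T) := by
        apply alt_congr
        intro T' hT'
        have e3 : insert m T ∪ T' = T ∪ insert m T' := by
          rw [union_insert, insert_union]
        rw [e3, h2 (insert m T') (insert_subset hmW (hT'.trans (erase_subset _ _)))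
          (mem_insert_self _ _)]
      rw [e1, e2]
      rcases eq_empty_or_nonempty (W.erase m) with he | he
      · have hWm : W = {m} := by
          rw [← insert_erase hmW, he]
          rfl
        rw [he, alt_empty, alt_empty, hWm, h3, h4, sub_zero]
      · rw [alt_const he, alt_const he, sub_zero]
    · push Not at hcase
      apply hS.iota_inj
      rw [map_zero, hh']
      have hout : ∀ T', T' ⊆ W → ∀ m, m ∉ W → v ≠ Γ.pl m (mix (T ∪ T') y z m) := by
        intro T' hT' m hm
        rw [hmixm T' hT' m hm]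
        exact hvm m hm
      have : alt W (fun P => S.lam ^ (τ.jl n - ix (τ.sig n) W) •
          τ.fam Γ k y z n P (S.sg v)) T = alt W (fun _ => (0 : V)) T := by
        apply alt_congr
        intro T' hT'
        have h0 := hoff 1 T' hT' (by
          intro m
          by_cases hm : m ∈ W
          · by_cases hmT : m ∈ T ∪ T'
            · rw [mix_mem y z hmT]
              exact (hcase m hm).2
            · rw [mix_notMem y z hmT]
              exact (hcase m hm).1
          · exact hout T' hT' m hm)
        rw [inv_one, mul_one, one_mul] at h0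
        rw [h0, smul_zero]
      rw [this, alt_zero]

end Pool.Agent.SmL
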