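import Pool.Agent.Lib.SmL.I.Cube
import Pool.Agent.Lib.SmL.I.Delta
import Pool.Agent.Lib.SmL.H.Sum
import Pool.Agent.Lib.SmL.H.Last
import Pool.Agent.Lib.SmL.H.Diag
import Pool.Agent.Lib.SmL.G.ConjOk

/-!
# SMITH-L, block I, section I5 (part 2): the claim

If `x` is good for `x0` then `x` is a point of the type and the alternating sum of `Fab` over the
cube `(x0, x)` is a symbol of `Th`. There are two cases: `b` is supported in the direction `ib`, and
(symmetric levels) the vector of `b` is a multiple of the vector of `c 0`, which is supported in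
`ia` and `ib`.
-/

set_option autoImplicit false

open Finset

namespace Pool.Agent.SmL.IC

open Pool.Agent.SmL Pool.Agent.SmL.IT Pool.Agent.SmA

variable {l : ℕ} {A G V V1 Pl : Type*} [CommRing A] [Group G] [AddCommGroup V] [Module A V]
  [DistribMulAction G V] [AddCommGroup V1] [Module (ZMod l) V1] {S : Sys l A G V V1 Pl}
variable {ι : Type*} [Fintype ι] [DecidableEq ι] {X : ι → Type*} {r k : ℕ} {Γ : Grid S X}
  {τ : Twr l G V1 ι r} {x0 x : ∀ i, X i}

omit [DecidableEq ι] in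
theorem exists_notMem {T : Finset ι} (hT : T ≠ univ) : ∃ i, i ∉ T := by
  by_contra hc
  push Not at hc
  exact hT (eq_univ_iff_forall.2 hc)

theorem subset_erase {T : Finset ι} {i : ι} (hi : i ∉ T) : T ⊆ univ.erase i := by
  intro a ha
  rw [mem_erase]
  exact ⟨fun h => hi (h ▸ ha), mem_univ a⟩

/-- All the vertices but the last one are points of the type with the colour of `x0`. -/
theorem good_vertex (h : τ.Good Γ k x0 x) {T : Finset ι} (hT : T ≠ univ) :
    mix T x0 x ∈ τ.Y Γ k ∧ τ.col Γ k (mix T x0 x) = τ.col Γ k x0 := by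
  obtain ⟨i, hi⟩ := exists_notMem hT
  exact (h i).2.1 T (subset_erase hi)

theorem good_ne (hcard : 2 ≤ Fintype.card ι) (h : τ.Good Γ k x0 x) (i : ι) :
    Γ.pl i (x0 i) ≠ Γ.pl i (x i) := by
  have h1 : 1 < Fintype.card ι := hcard
  obtain ⟨j, hj⟩ := Fintype.exists_ne_of_one_lt_card h1 i
  exact (h j).1 i (mem_erase.2 ⟨hj.symm, mem_univ i⟩)

theorem good_mn (h : τ.Good Γ k x0 x) (n : Fin (r + 1)) {U P : Finset ι} (hUP : Disjoint U P)
    (h0 : U.Nonempty) (hj : ix (τ.sig n) U ≤ τ.jl n) (hne : P ∪ U ≠ univ) :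
    Mn S (τ.sig n) (τ.jl n) (τ.fam Γ k x0 x n) U P := by
  obtain ⟨i, hi⟩ := exists_notMem hne
  rw [mem_union, not_or] at hi
  refine (h i).2.2 n U (subset_erase hi.2) h0 hj P ?_
  intro a ha
  rw [mem_sdiff]
  exact ⟨subset_erase hi.1 ha, fun hc => disjoint_left.1 hUP hc ha⟩

theorem good_symOk (hcard : 3 ≤ Fintype.card ι) (h : τ.Good Γ k x0 x) : Γ.SymOk x0 x :=
  Grid.symOk_of_mix hcard fun _ hT => (good_vertex h hT).1.1

theorem good_mem_Xs (hcard : 3 ≤ Fintype.card ι) (h : τ.Good Γ k x0 x) (T : Finset ι) :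
    mix T x0 x ∈ Γ.Xs :=
  Grid.mem_Xs_of_symOk (good_symOk hcard h) T

theorem good_cubeOk (hS : S.Ok) (hΓ : Γ.Ok) (hcard : 3 ≤ Fintype.card ι)
    (h : τ.Good Γ k x0 x) :
    CubeOk (S.conj (Γ.cg x0 x)) Γ.ex (Γ.chi x0) (Γ.del x0 x) (Γ.plc x0 x) :=
  Grid.cubeOk hS hΓ (good_ne (by omega) h) (good_symOk hcard h)

/-- The Selmer cocycles of the conjugated system. -/
theorem conj_sel (hS : S.Ok) (hΓ : Γ.Ok) (x0 x : ∀ i, X i) (P : Finset ι) (j : ℕ) (Psi : G → V)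
    (g : Pl → G) : (S.conj g).IsSel (chiC (Γ.chi x0) (Γ.del x0 x) P) j Psi ↔
      S.IsSel (chiC (Γ.chi x0) (Γ.del x0 x) P) j Psi :=
  Sys.conj_isSel hS (chiC_hom hS (Grid.chi_hom hS hΓ x0) (Grid.del_hom hS hΓ x0 x) P)

theorem conj_sel1 (hS : S.Ok) (hΓ : Γ.Ok) (x0 x : ∀ i, X i) (P : Finset ι) (b : G → V1)
    (g : Pl → G) : (S.conj g).IsSel1 (chiC (Γ.chi x0) (Γ.del x0 x) P) b ↔
      S.IsSel1 (chiC (Γ.chi x0) (Γ.del x0 x) P) b :=
  Sys.conj_isSel1 hS (chiC_hom hS (Grid.chi_hom hS hΓ x0) (Grid.del_hom hS hΓ x0 x) P)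

/-- The tower of the vertex `T ≠ univ`. -/
theorem good_fam (h : τ.Good Γ k x0 x) (n : Fin (r + 1)) {T : Finset ι} (hT : T ≠ univ) :
    τ.IsTow Γ k (mix T x0 x) n (τ.fam Γ k x0 x n T) :=
  psi_spec (good_vertex h hT).1 n

/-- The completed family. -/
noncomputable def lst (τ : Twr l G V1 ι r) (Γ : Grid S X) (k : ℕ) (x0 x : ∀ i, X i)
    (n : Fin (r + 1)) : Finset ι → G → V :=
  lastFam (univ \ τ.sig n) (τ.fam Γ k x0 x n)

theorem lst_of_ne (n : Fin (r + 1)) {T : Finset ι} (hT : T ≠ univ) :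
    lst τ Γ k x0 x n T = τ.fam Γ k x0 x n T :=
  lastFam_of_ne _ _ hT

/-- H5 for the grid. -/
theorem good_last (hS : S.Ok) (hΓ : Γ.Ok) (hτ : τ.Ok Γ k) (hk : 1 ≤ k)
    (hI : Fintype.card ι = k + 2) (h : τ.Good Γ k x0 x) (n : Fin (r + 1)) :
    (∀ P, S.IsSel (chiC (Γ.chi x0) (Γ.del x0 x) P) (τ.jl n) (lst τ Γ k x0 x n P)) ∧
    MnAll S univ (τ.sig n) (τ.jl n) (lst τ Γ k x0 x n) := by
  have key := last_vertex (hS.conj (Γ.cg x0 x)) (good_cubeOk hS hΓ (by omega) h) (hτ.jl_le n) hI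
    (hτ.sig_card n) (Psi := τ.fam Γ k x0 x n) ?_ ?_
  · exact ⟨fun P => (conj_sel hS hΓ x0 x P _ _ _).1 (key.1 P), key.2⟩
  · intro P hP
    have h1 := (good_fam h n hP).sel
    rw [Grid.chi_mix] at h1
    exact (conj_sel hS hΓ x0 x P _ _ _).2 h1
  · intro U P hUP h0 hj hne
    exact good_mn h n hUP h0 hj hne

theorem good_star (hS : S.Ok) (hΓ : Γ.Ok) (hτ : τ.Ok Γ k) (hk : 1 ≤ k)
    (hI : Fintype.card ι = k + 2) (h : τ.Good Γ k x0 x) (n : Fin (r + 1)) :
    Star S univ (τ.jl n) (lst τ Γ k x0 x n) := by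
  have h1 := good_last hS hΓ hτ hk hI h n
  exact star_of_min (fun P _ s => (h1.1 P).lev s) h1.2

omit [DecidableEq ι] in
/-- The value of a code at a point which differs only in directions where it is not supported. -/
theorem ch_congr (hΓ : Γ.Ok) {c : GCode G V1 ι} {y z : ∀ i, X i} (h : ∀ i, y i = z i ∨ c.2 i = 0)
    (s : G) : Γ.ch c y s = Γ.ch c z s := by
  unfold Grid.ch
  congr 1
  refine sum_congr rfl fun i _ => ?_
  rcases h i with h1 | h1
  · rw [h1]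
  · rw [h1, Grid.be_zero hΓ, Grid.be_zero hΓ]

theorem good_base (hS : S.Ok) (hΓ : Γ.Ok) (hτ : τ.Ok Γ k) (hk : 1 ≤ k)
    (hI : Fintype.card ι = k + 2) (h : τ.Good Γ k x0 x) (n : Fin (r + 1)) (s : G) :
    S.lam ^ (τ.jl n - 1) • lst τ Γ k x0 x n univ s = S.iota (Γ.ch (τ.c n) x s) := by
  -- a direction outside of the support
  obtain ⟨i, hi⟩ : ∃ i, i ∉ τ.sig n := by
    apply exists_notMem
    intro he
    have h1 := hτ.sig_card n
    rw [he, card_univ] at h1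
    omega
  have hd : Disjoint ({i} : Finset ι) (τ.sig n) := disjoint_singleton_left.2 hi
  have h1 := (good_last hS hΓ hτ hk hI h n).2 {i} (univ.erase i) (subset_univ _) (subset_univ _)
    (by simp) (singleton_nonempty i) (by
      rw [ix_of_disjoint hd, card_singleton]
      exact hτ.jl_pos n) s
  rw [alt_singleton, ix_of_disjoint hd, card_singleton, insert_erase (mem_univ i)] at h1
  have hne : (univ.erase i : Finset ι) ≠ univ := fun he => by
    have := notMem_erase i (univ : Finset ι)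
    rw [he] at this
    exact this (mem_univ i)
  rw [lst_of_ne n hne] at h1
  rw [← sub_eq_zero.1 h1, (good_fam h n hne).base]
  congr 1
  refine ch_congr hΓ (fun j => ?_) s
  by_cases hj : j = i
  · subst hj
    exact Or.inr (hτ.supp n j hi)
  · left
    simp [mix, hj]

/-- The pairing of the conjugated system at the vertices. -/
theorem conj_ct (hS : S.Ok) (hΓ : Γ.Ok) (hτ : τ.Ok Γ k) (hk : 1 ≤ k)
    (hI : Fintype.card ι = k + 2) (h : τ.Good Γ k x0 x) (n : Fin (r + 1))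
    {d : GCode G V1 ι} (hd : d ∈ Γ.FF) (g : Pl → G) (T : Finset ι) :
    (S.conj g).CT (chiC (Γ.chi x0) (Γ.del x0 x) T) (lst τ Γ k x0 x n T)
        (bC (Γ.ch d x0) (Γ.dbe d.2 x0 x) T) =
      S.CT (Γ.chi (mix T x0 x)) (lst τ Γ k x0 x n T) (Γ.ch d (mix T x0 x)) := by
  rw [← Grid.chi_mix, ← Grid.ch_mix]
  refine Sys.conj_CT hS (Grid.chi_hom hS hΓ _) (j := τ.jl n) ?_
    (hd.2 _ (good_mem_Xs (by omega) h T))
  rw [Grid.chi_mix]
  exact (good_last hS hΓ hτ hk hI h n).1 T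

/-- The Selmer cocycles of a code at the vertices. -/
theorem good_b (hS : S.Ok) (hΓ : Γ.Ok) (hcard : 3 ≤ Fintype.card ι) (h : τ.Good Γ k x0 x)
    {d : GCode G V1 ι} (hd : d ∈ Γ.FF) (g : Pl → G) (T : Finset ι) :
    (S.conj g).IsSel1 (chiC (Γ.chi x0) (Γ.del x0 x) T) (bC (Γ.ch d x0) (Γ.dbe d.2 x0 x) T) := by
  rw [conj_sel1 hS hΓ, ← Grid.chi_mix, ← Grid.ch_mix]
  exact hd.2 _ (good_mem_Xs hcard h T)

theorem good_val (hS : S.Ok) (hΓ : Γ.Ok) (hτ : τ.Ok Γ k) (hk : 1 ≤ k)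
    (hI : Fintype.card ι = k + 2) (h : τ.Good Γ k x0 x) (n : Fin (r + 1)) (hl : τ.jl n < k)
    {d : GCode G V1 ι} (hd : d ∈ Γ.FF) :
    S.CT (Γ.chi x) (lst τ Γ k x0 x n univ) (Γ.ch d x) = τ.fl n d := by
  have hsym := good_symOk (by omega) h
  have h1 := value_const (hS.conj (Γ.cg x0 x)) (good_cubeOk hS hΓ (by omega) h)
    (good_star hS hΓ hτ hk hI h n)
    (fun T => (conj_sel hS hΓ x0 x T _ _ _).2 ((good_last hS hΓ hτ hk hI h n).1 T))
    (by have := hτ.jl_le n; omega) (Grid.betOk hS hΓ d.2 hsym) (Γ.ch d x0)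
    (fun T => good_b hS hΓ (by omega) h hd _ T) (f := τ.fl n d) (fun T hT => by
      rw [conj_ct hS hΓ hτ hk hI h n hd, lst_of_ne n hT]
      exact (good_fam h n hT).val hl d hd)
  rwa [conj_ct hS hΓ hτ hk hI h n hd, Grid.mix_univ] at h1

/-- The last value of the completed family is a tower at the point `x`. -/
theorem good_tow (hS : S.Ok) (hΓ : Γ.Ok) (hτ : τ.Ok Γ k) (hk : 1 ≤ k)
    (hI : Fintype.card ι = k + 2) (h : τ.Good Γ k x0 x) (n : Fin (r + 1)) :
    τ.IsTow Γ k x n (lst τ Γ k x0 x n univ) where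
  sel := by
    have h1 := (good_last hS hΓ hτ hk hI h n).1 univ
    rwa [← Grid.chi_mix, Grid.mix_univ] at h1
  base := good_base hS hΓ hτ hk hI h n
  val := fun hl _ hd => good_val hS hΓ hτ hk hI h n hl hd

/-- The claim, first part. -/
theorem good_Y (hS : S.Ok) (hΓ : Γ.Ok) (hτ : τ.Ok Γ k) (hk : 1 ≤ k)
    (hI : Fintype.card ι = k + 2) (h : τ.Good Γ k x0 x) : x ∈ τ.Y Γ k := by
  refine ⟨?_, fun n => ⟨_, good_tow hS hΓ hτ hk hI h n⟩⟩
  have h1 := good_mem_Xs (by omega) h univ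
  rwa [Grid.mix_univ] at h1

omit [DecidableEq ι] in
/-- The pairing with `b` is the same for all the towers of `a`. -/
theorem tow_CT (hS : S.Ok) (hΓ : Γ.Ok) (hτ : τ.Ok Γ k) (hx : x ∈ τ.Y Γ k) {Psi Psi' : G → V}
    (h : τ.IsTow Γ k x 0 Psi) (h' : τ.IsTow Γ k x 0 Psi') :
    S.CT (Γ.chi x) Psi (Γ.ch τ.b x) = S.CT (Γ.chi x) Psi' (Γ.ch τ.b x) := by
  have hchi := Grid.chi_hom hS hΓ x
  have hb := hτ.b_mem.2 x hx.1
  have h1 : S.IsSel (Γ.chi x) (k - 1) (Psi + -Psi') := by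
    refine Sys.IsSel.of_lev (k := τ.jl 0) (Sys.IsSel.add hS h.sel (Sys.IsSel.neg h'.sel)) ?_
    intro s
    have e1 := h.base s
    have e2 := h'.base s
    rw [hτ.jl_zero] at e1 e2
    rw [Pi.add_apply, Pi.neg_apply, smul_add, smul_neg, e1, e2, add_neg_cancel]
  have h2 := hτ.perp x hx _ h1
  have h3 : Psi = (Psi + -Psi') + Psi' := by rw [neg_add_cancel_right]
  rw [h3, Sys.CT_add_left hS hchi h1 h'.sel hb, h2, zero_add]

omit [DecidableEq ι] in
/-- `Fab` at a vertex. -/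
theorem fab_eq (hS : S.Ok) (hΓ : Γ.Ok) (hτ : τ.Ok Γ k) (hx : x ∈ τ.Y Γ k) {Psi : G → V}
    (h : τ.IsTow Γ k x 0 Psi) : τ.Fab Γ k x = S.CT (Γ.chi x) Psi (Γ.ch τ.b x) :=
  tow_CT hS hΓ hτ hx (psi_spec hx 0) h

theorem phiC_congr {I : Type*} [DecidableEq I] {j : ℕ} {Psi Psi' : Finset I → G → V}
    {R : Finset I} (h : ∀ T, T ⊆ R → Psi T = Psi' T) : PhiC S j Psi R = PhiC S j Psi' R := by
  funext s
  unfold PhiC
  congr 1
  refine alt_congr fun T hT => ?_
  rw [empty_union, h T hT]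

theorem lst_phiC (n : Fin (r + 1)) {R : Finset ι} (hR : R ≠ univ) (j : ℕ) :
    PhiC S j (lst τ Γ k x0 x n) R = PhiC S j (τ.fam Γ k x0 x n) R := by
  apply phiC_congr
  intro T hT
  apply lst_of_ne
  intro he
  apply hR
  rw [he] at hT
  exact eq_univ_iff_forall.2 fun a => hT (mem_univ a)

omit [Fintype ι] in
/-- The relation of `Th` for the conjugated system. -/
theorem conj_thRel {g : Pl → G} {j : ℕ} {del : ι → G → ZMod l} {Psi : Finset ι → G → V}
    {W : Finset ι} {Th : G → V1} (h : ThRel S j del Psi W Th) :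
    ThRel (S.conj g) j del Psi W Th := h

/-- The relation of `Th` for the completed family. -/
theorem lst_rel {j : ℕ} {ib : ι} {Th : G → V1}
    (hrel : ThRel S j (Γ.del x0 x) (τ.fam Γ k x0 x 0) (univ.erase ib) Th) :
    ThRel S j (Γ.del x0 x) (lst τ Γ k x0 x 0) (univ.erase ib) Th := by
  intro s t
  have h0 := hrel s t
  have h3 : ∀ T ∈ (univ.erase ib).powerset.erase ∅,
      pdel (Γ.del x0 x) T s • PhiC S j (τ.fam Γ k x0 x 0) (univ.erase ib \ T) t =
      pdel (Γ.del x0 x) T s • PhiC S j (lst τ Γ k x0 x 0) (univ.erase ib \ T) t := by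
    intro T _
    rw [lst_phiC 0 _ j]
    intro he
    have h1 : ib ∈ univ.erase ib \ T := by rw [he]; exact mem_univ ib
    exact notMem_erase ib univ (mem_sdiff.1 h1).1
  rw [sum_congr rfl h3] at h0
  exact h0

/-- The alternating sum of `Fab` over the cube in terms of the conjugated system. -/
theorem fab_conj (hS : S.Ok) (hΓ : Γ.Ok) (hτ : τ.Ok Γ k) (hk : 1 ≤ k)
    (hI : Fintype.card ι = k + 2) (h : τ.Good Γ k x0 x) (T : Finset ι) :
    τ.Fab Γ k (mix T x0 x) =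
      (S.conj (Γ.cg x0 x)).CT (chiC (Γ.chi x0) (Γ.del x0 x) T) (lst τ Γ k x0 x 0 T)
        (bC (Γ.ch τ.b x0) (Γ.dbe τ.b.2 x0 x) T) := by
  rw [conj_ct hS hΓ hτ hk hI h 0 hτ.b_mem]
  by_cases hT : T = univ
  · subst hT
    rw [Grid.mix_univ]
    exact fab_eq hS hΓ hτ (good_Y hS hΓ hτ hk hI h) (good_tow hS hΓ hτ hk hI h 0)
  · rw [lst_of_ne 0 hT]
    exact fab_eq hS hΓ hτ (good_vertex h hT).1 (good_fam h 0 hT)

/-- The value of a pairing with the cocycle of the direction `i` of a vector of codes. -/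
theorem sum_dbe (hS : S.Ok) (hΓ : Γ.Ok) (hcard : 2 ≤ Fintype.card ι)
    (h : τ.Good Γ k x0 x) (w : ι → V1) (i : ι) (Th : G → V1) :
    ∑ e : Bool, (S.conj (Γ.cg x0 x)).e (Th ((S.conj (Γ.cg x0 x)).phi (Γ.plc x0 x i e)))
      (Γ.dbe w x0 x i ((S.conj (Γ.cg x0 x)).sg (Γ.plc x0 x i e))) =
    S.e (Th (Γ.phx i (x i)) - Th (Γ.phx i (x0 i))) (w i) := by
  have hne := good_ne hcard h
  rw [Fintype.sum_bool, Grid.cg_phi hΓ (Grid.Sep.of_ne hne), Grid.cg_phi hΓ (Grid.Sep.of_ne hne),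
    Grid.cg_sg hΓ (Grid.Sep.of_ne hne), Grid.cg_sg hΓ (Grid.Sep.of_ne hne),
    Grid.dbe_sgx hS hΓ _ (hne i), Grid.dbe_sgx hS hΓ _ (hne i)]
  change S.e _ _ + S.e _ _ = _
  rw [if_pos rfl, if_neg (by simp), map_neg, map_sub, LinearMap.sub_apply, ← sub_eq_add_neg]
  rfl

/-- The top sum theorem, with the alternating sum written out. -/
theorem top_sum' {ex : ι → ZMod l} {chi0 : G → ZMod l} {del : ι → G → ZMod l} {j : ℕ}
    {Psi : Finset ι → G → V} (hS : S.Ok) {pl : ι → Bool → Pl} (hC : CubeOk S ex chi0 del pl)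
    (hst : Star S univ j Psi) (hPsi : ∀ X, S.IsSel (chiC chi0 del X) j (Psi X))
    (hI : Fintype.card ι = j + 2) {bet : ι → G → V1} (hB : BetOk S chi0 del pl bet)
    (b0 : G → V1)
    (hb : ∀ X, S.IsSel1 (chiC chi0 del X) (bC b0 bet X)) (B : Finset ι)
    (hw : ∀ i, i ∉ B → ∀ s, bet i s = 0) {Th : ι → G → V1} (htf : ∀ i ∈ B, S.TF (Th i))
    (hrel : ∀ i ∈ B, ThRel S j del Psi (univ.erase i) (Th i))
    (hunr : ∀ i ∈ B, ∀ v ∈ S.good, Th i (S.sg v) = 0) :
    ∑ X : Finset ι, (-1) ^ X.card * S.CT (chiC chi0 del X) (Psi X) (bC b0 bet X) =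
      -∑ i ∈ B, ∑ e : Bool, S.e (Th i (S.phi (pl i e))) (bet i (S.sg (pl i e))) := by
  have h1 := top_sum hS hC hst hPsi hI hB b0 hb B hw htf hrel hunr
  unfold alt at h1
  rw [powerset_univ] at h1
  simp only [empty_union, zsmul_eq_mul, Int.cast_pow, Int.cast_neg, Int.cast_one] at h1
  rw [h1]
  congr 1
  refine sum_congr rfl fun i _ => ?_
  rw [Fintype.sum_bool, add_comm]

/-- The claim, second part: the alternating sum of `Fab` over the cube, `b` supported in the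
direction `ib`. -/
theorem good_sum (hS : S.Ok) (hΓ : Γ.Ok) (hτ : τ.Ok Γ k) (hk : 1 ≤ k)
    (hI : Fintype.card ι = k + 2) (h : τ.Good Γ k x0 x) (ib : ι)
    (hb : ∀ i, i ≠ ib → τ.b.2 i = 0) {Th : G → V1} (htf : S.TF Th)
    (hrel : ThRel S k (Γ.del x0 x) (τ.fam Γ k x0 x 0) (univ.erase ib) Th)
    (hunr : ∀ v ∈ S.good, Th ((S.conj (Γ.cg x0 x)).sg v) = 0) :
    ∑ T : Finset ι, (-1) ^ T.card * τ.Fab Γ k (mix T x0 x) =
      -S.e (Th (Γ.phx ib (x ib)) - Th (Γ.phx ib (x0 ib))) (τ.b.2 ib) := by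
  have hst := good_star hS hΓ hτ hk hI h 0
  have hlast := (good_last hS hΓ hτ hk hI h 0).1
  have hsym := good_symOk (by omega) h
  rw [hτ.jl_zero] at hst hlast
  have h1 := top_sum' (hS.conj (Γ.cg x0 x)) (good_cubeOk hS hΓ (by omega) h) hst
    (fun T => (conj_sel hS hΓ x0 x T _ _ _).2 (hlast T)) hI
    (Grid.betOk hS hΓ τ.b.2 hsym) (Γ.ch τ.b x0)
    (fun T => good_b hS hΓ (by omega) h hτ.b_mem _ T) {ib}
    (fun i hi s => by
      unfold Grid.dbe
      rw [hb i (by simpa using hi), Grid.be_zero hΓ, Grid.be_zero hΓ, sub_zero])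
    (Th := fun _ => Th) (fun _ _ => htf) (fun i hi => by
      rw [mem_singleton.1 hi]
      exact conj_thRel (lst_rel hrel)) (fun _ _ => hunr)
  rw [sum_congr rfl fun T _ => by rw [fab_conj hS hΓ hτ hk hI h T], h1, sum_singleton,
    sum_dbe hS hΓ (by omega) h]

/-- The colours of the completed family. -/
theorem good_col (hΓ : Γ.Ok) (hI : Fintype.card ι = k + 2) (h : τ.Good Γ k x0 x)
    (n : Fin (r + 1)) {i : ι} (e : Bool) {T : Finset ι} (hT : T.card ≤ k) (hiT : i ∉ T) :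
    lst τ Γ k x0 x n (if e then insert i T else T)
      ((S.conj (Γ.cg x0 x)).sg (Γ.plc x0 x i e)) = τ.col Γ k x0 n i := by
  have hne := good_ne (by omega) h
  have hne' : (if e then insert i T else T) ≠ univ := by
    intro he
    have h1 : (if e then insert i T else T : Finset ι).card = k + 2 := by
      rw [he, card_univ, hI]
    cases e with
    | true =>
      simp only [if_true] at h1
      rw [card_insert_of_notMem hiT] at h1
      omega
    | false =>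
      simp only [Bool.false_eq_true, if_false] at h1
      omega
  rw [lst_of_ne n hne', Grid.cg_sg hΓ (Grid.Sep.of_ne hne)]
  have h3 := congrFun (congrFun (good_vertex h hne').2 n) i
  rw [← h3]
  unfold Twr.col
  change τ.psi Γ k _ n _ = τ.psi Γ k _ n _
  congr 2
  cases e with
  | true =>
    simp [mix, Grid.pt]
  | false =>
    simp [mix, Grid.pt, hiT]

/-- H7 for the grid: the functions `Phi_R`, `ib ∉ R`, vanish at the Frobenius elements of the places
of the direction `ib`. -/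
theorem good_phi_zero (hS : S.Ok) (hΓ : Γ.Ok) (hτ : τ.Ok Γ k) (hk : 1 ≤ k)
    (hI : Fintype.card ι = k + 2) (h : τ.Good Γ k x0 x) {R : Finset ι} (hR : R.Nonempty)
    (hj : R.card ≤ k) {ib : ι} (hib : ib ∉ R) (e : Bool) :
    PhiC S k (τ.fam Γ k x0 x 0) R (Γ.phx ib (Grid.pt x0 x ib e)) = 0 := by
  have hst := good_star hS hΓ hτ hk hI h 0
  have hlast := (good_last hS hΓ hτ hk hI h 0).1
  have hne := good_ne (by omega) h
  rw [hτ.jl_zero] at hst hlast
  have hRu : R ≠ univ := fun he => hib (he ▸ mem_univ ib)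
  rw [← lst_phiC 0 hRu k]
  have key := phiC_zero_on_D (hS.conj (Γ.cg x0 x)) (good_cubeOk hS hΓ (by omega) h) hst
    (fun T _ => (conj_sel hS hΓ x0 x T _ _ _).2 (hlast T))
    (subset_univ R) hR hj hib (mem_univ ib) e
    (c := τ.col Γ k x0 0 ib) (fun T hT => good_col hΓ hI h 0 e ((card_le_card hT).trans hj)
      (fun hc => hib (hT hc))) _ ((hS.conj (Γ.cg x0 x)).phi_mem _)
  rw [Grid.cg_phi hΓ (Grid.Sep.of_ne hne)] at key
  exact key

/-- `Phi` of one direction. -/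
theorem good_phi_one (hS : S.Ok) (hτ : τ.Ok Γ k)
    (hI : Fintype.card ι = k + 2) (h : τ.Good Γ k x0 x) (i : ι) (s : G) :
    PhiC S k (lst τ Γ k x0 x 0) {i} s = -Γ.dbe (τ.c 0).2 x0 x i s := by
  have hne : ∀ T : Finset ι, T.card ≤ 1 → T ≠ univ := by
    intro T hT he
    rw [he, card_univ, hI] at hT
    omega
  have hbase : ∀ T : Finset ι, T.card ≤ 1 → S.lam ^ (k - 1) • lst τ Γ k x0 x 0 T s =
      S.iota (Γ.ch (τ.c 0) (mix T x0 x) s) := by
    intro T hT
    rw [lst_of_ne 0 (hne T hT)]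
    have h1 := (good_fam h 0 (hne T hT)).base s
    rwa [hτ.jl_zero] at h1
  unfold PhiC
  rw [alt_singleton, card_singleton, insert_empty_eq, hbase ∅ (by simp), hbase {i} (by simp),
    ← map_sub, Sys.un_iota hS, Grid.ch_mix, Grid.ch_mix]
  unfold bC
  rw [sum_empty, sum_singleton, add_zero, sub_add_cancel_left]

/-- Existence of `Th` for the completed family. -/
theorem good_exists_Th (hS : S.Ok) (hΓ : Γ.Ok) (hτ : τ.Ok Γ k) (hk : 1 ≤ k)
    (hI : Fintype.card ι = k + 2) (h : τ.Good Γ k x0 x) (i : ι) :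
    ∃ Th : G → V1, S.TF Th ∧
      ThRel (S.conj (Γ.cg x0 x)) k (Γ.del x0 x) (lst τ Γ k x0 x 0) (univ.erase i) Th ∧
      ∀ v ∈ S.good, Th ((S.conj (Γ.cg x0 x)).sg v) = 0 := by
  have hst := good_star hS hΓ hτ hk hI h 0
  have hlast := (good_last hS hΓ hτ hk hI h 0).1
  rw [hτ.jl_zero] at hst hlast
  have hS' := hS.conj (Γ.cg x0 x)
  have hC := good_cubeOk hS hΓ (by omega) h
  have hd : ∀ X : Finset ι, ∃ (hat : G → V) (Q : Pl → V),
      (S.conj (Γ.cg x0 x)).LiftData (chiC (Γ.chi x0) (Γ.del x0 x) X)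
        (lst τ Γ k x0 x 0 X) hat Q := fun X =>
    Sys.exists_liftData hS' (chiC_hom hS' hC.chi0_hom hC.del_hom X)
      ((conj_sel hS hΓ x0 x X _ _ _).2 (hlast X))
  choose hat Q hd using hd
  have hst' : Star (S.conj (Γ.cg x0 x)) univ k (lst τ Γ k x0 x 0) := hst
  exact exists_Th hS' (W := univ.erase i) (j := k) (by
    rw [card_erase_of_mem (mem_univ i), card_univ, hI]
    omega) hC (hst'.mono (subset_univ _)) (fun X _ => hd X)

/-- The claim, second part, diagonal case: the vector of `b` is a multiple of the vector of `c 0`,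
which is supported in `ia` and `ib`, and the level is symmetric. -/
theorem good_sumD (hS : S.Ok) (hΓ : Γ.Ok) (hτ : τ.Ok Γ k) (hk : 1 ≤ k)
    (hI : Fintype.card ι = k + 2) (h : τ.Good Γ k x0 x) (hsy : S.se * (-1) ^ k = 1)
    {κ : Type*} [Fintype κ] [DecidableEq κ] {f : κ ↪ ι} (hκ : Fintype.card κ = k)
    {ia ib : ι} (hab : ia ≠ ib) (hfa : ∀ i, f i ≠ ia) (hfb : ∀ i, f i ≠ ib)
    (hall : ∀ x : ι, x = ia ∨ x = ib ∨ ∃ i, f i = x) (hσ : τ.sig 0 = {ia, ib})
    {μ : ZMod l} (hb : ∀ i, τ.b.2 i = μ • (τ.c 0).2 i) {Th : G → V1} (htf : S.TF Th)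
    (hrel : ThRel S k (Γ.del x0 x) (τ.fam Γ k x0 x 0) (univ.erase ib) Th)
    (hunr : ∀ v ∈ S.good, Th ((S.conj (Γ.cg x0 x)).sg v) = 0) :
    ∑ T : Finset ι, (-1) ^ T.card * τ.Fab Γ k (mix T x0 x) =
      -(2 * S.e (Th (Γ.phx ib (x ib)) - Th (Γ.phx ib (x0 ib))) (τ.b.2 ib)) := by
  obtain ⟨ThA, htA, hrA, huA⟩ := good_exists_Th hS hΓ hτ hk hI h ia
  have hst := good_star hS hΓ hτ hk hI h 0
  obtain ⟨hlast, hmn⟩ := good_last hS hΓ hτ hk hI h 0
  have hsym := good_symOk (by omega) h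
  rw [hτ.jl_zero] at hst hlast hmn
  rw [hσ] at hmn
  have hS' := hS.conj (Γ.cg x0 x)
  have hC := good_cubeOk hS hΓ (by omega) h
  have hsel : ∀ T, (S.conj (Γ.cg x0 x)).IsSel (chiC (Γ.chi x0) (Γ.del x0 x) T) k
      (lst τ Γ k x0 x 0 T) := fun T => (conj_sel hS hΓ x0 x T _ _ _).2 (hlast T)
  have hrel' : ThRel (S.conj (Γ.cg x0 x)) k (Γ.del x0 x) (lst τ Γ k x0 x 0) (univ.erase ib) Th :=
    conj_thRel (lst_rel hrel)
  have h1 := top_sum' hS' hC hst hsel hI
    (Grid.betOk hS hΓ τ.b.2 hsym) (Γ.ch τ.b x0)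
    (fun T => good_b hS hΓ (by omega) h hτ.b_mem _ T) {ia, ib}
    (fun i hi s => by
      have h2 : τ.b.2 i = 0 := by
        rw [hb, hτ.supp 0 i (by rw [hσ]; exact hi), smul_zero]
      unfold Grid.dbe
      rw [h2, Grid.be_zero hΓ, Grid.be_zero hΓ, sub_zero])
    (Th := fun i => if i = ib then Th else ThA) (fun i hi => by
      by_cases hib : i = ib
      · rw [if_pos hib]
        exact htf
      · rw [if_neg hib]
        exact htA) (fun i hi => by
      by_cases hib : i = ib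
      · rw [if_pos hib, hib]
        exact hrel'
      · have hia : i = ia := by simpa [hib] using hi
        rw [if_neg hib, hia]
        exact hrA) (fun i hi => by
      by_cases hib : i = ib
      · rw [if_pos hib]
        exact hunr
      · rw [if_neg hib]
        exact huA)
  have h2 := diag_rec hS' hC (Grid.betOk hS hΓ (τ.c 0).2 hsym) hκ hk hab hfa hfb hall hsel hmn
    (fun i e => ⟨_, fun T hT hiT => good_col hΓ hI h 0 e hT hiT⟩)
    (fun s => good_phi_one hS hτ hI h ia s) (fun s => good_phi_one hS hτ hI h ib s)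
    hrA htA huA hrel' htf hunr
  rw [sum_dbe hS hΓ (by omega) h, sum_dbe hS hΓ (by omega) h] at h2
  rw [sum_congr rfl fun T _ => by rw [fab_conj hS hΓ hτ hk hI h T], h1, sum_pair hab]
  rw [if_neg hab, if_pos rfl, sum_dbe hS hΓ (by omega) h, sum_dbe hS hΓ (by omega) h, hb ia, hb ib,
    map_smul, map_smul, smul_eq_mul, smul_eq_mul]
  have h3 : ((-1 : ZMod l) ^ k) * (-1) ^ k = 1 := by
    rw [← mul_pow]
    simp
  change S.se * _ = _ at h2
  set a := S.e (ThA (Γ.phx ia (x ia)) - ThA (Γ.phx ia (x0 ia))) ((τ.c 0).2 ia)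
  set b := S.e (Th (Γ.phx ib (x ib)) - Th (Γ.phx ib (x0 ib))) ((τ.c 0).2 ib)
  have h4 : a = b := by
    linear_combination ((-1) ^ k) * h2 + b * h3 - a * hsy
  rw [h4]
  ring

/-- `Fab` at the last vertex in terms of the alternating sum. -/
theorem fab_of_sum (hI : Fintype.card ι = k + 2) {c : ZMod l}
    (h : ∑ T : Finset ι, (-1) ^ T.card * τ.Fab Γ k (mix T x0 x) = -c) :
    τ.Fab Γ k x = -(-1) ^ k *
      ((∑ T ∈ univ.erase univ, (-1) ^ T.card * τ.Fab Γ k (mix T x0 x)) + c) := by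
  rw [← add_sum_erase univ _ (mem_univ (univ : Finset ι)), Grid.mix_univ, card_univ, hI] at h
  have h3 : ((-1 : ZMod l) ^ k) * (-1) ^ k = 1 := by
    rw [← mul_pow]
    simp
  have h4 : (-1 : ZMod l) ^ (k + 2) = (-1) ^ k := by
    rw [pow_add]
    norm_num
  rw [h4] at h
  linear_combination ((-1) ^ k) * h - τ.Fab Γ k x * h3

end Pool.Agent.SmL.IC
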