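import Pool.Agent.Lib.SmL.I.GridDefs
import Pool.Agent.Lib.SmL.I.Frame
import Pool.Agent.Lib.SmL.I.FrC
import Pool.Agent.Lib.SmL.G6.Codes

/-!
# SMITH-L, block I: the codes over a vector of marked primes and the codes over the grid
-/

set_option autoImplicit false

open Finset

namespace Pool.Agent.SmL.CData

open Pool.Agent.SmL.IT

variable {l : ℕ} {A G V V1 Pl : Type} [CommRing A] [Group G] [AddCommGroup V] [Module A V]
  [DistribMulAction G V] [AddCommGroup V1] [Module (ZMod l) V1] {S : Sys l A G V V1 Pl}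
  {X : PSys} {cd : CData S X}
  {J : Type} [Fintype J] {m : ℕ} {p : J → cd.Mk} {dir : Dir m ↪ J} {ex : J → ZMod l}

theorem mem_offD {j : J} : j ∈ offD dir ↔ ∀ i, dir i ≠ j := by
  unfold offD
  simp

/-- The vector of a point of the grid. -/
noncomputable def rxN (p : J → cd.Mk) (dir : Dir m ↪ J) (x : ∀ i, cd.XB p dir i) : J → cd.Mk :=
  cd.replN p dir fun i => (x i).1

omit [Fintype J] in
theorem rxN_dir (x : ∀ i, cd.XB p dir i) (i : Dir m) : rxN p dir x (dir i) = (x i).1 :=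
  FrN.repl_dir _ i

omit [Fintype J] in
theorem rxN_off (x : ∀ i, cd.XB p dir i) {j : J} (h : ∀ i, dir i ≠ j) : rxN p dir x j = p j :=
  FrN.repl_off _ h

/-- The vector `p` as a point of the grid. -/
def xpN (p : J → cd.Mk) (dir : Dir m ↪ J) : ∀ i, cd.XB p dir i := fun i =>
  ⟨p (dir i), rfl, rfl, fun _ _ => ⟨rfl, fun _ _ => rfl⟩⟩

omit [Fintype J] in
theorem rxN_xp : rxN p dir (xpN p dir) = p := by
  funext j
  by_cases h : ∃ i, dir i = j
  · obtain ⟨i, rfl⟩ := h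
    rw [rxN_dir]
    rfl
  · push Not at h
    rw [rxN_off _ h]

/-- A sum over `J` splits into the directions and the rest. -/
theorem sum_rxN {M : Type} [AddCommMonoid M] (F : J → cd.Mk → M) (x : ∀ i, cd.XB p dir i) :
    ∑ j, F j (rxN p dir x j) = ∑ j ∈ offD dir, F j (p j) + ∑ i, F (dir i) (x i).1 := by
  classical
  rw [← Finset.sum_add_sum_compl (offD dir)]
  congr 1
  · exact Finset.sum_congr rfl fun j hj => by rw [rxN_off _ (mem_offD.1 hj)]
  · have h1 : (offD dir)ᶜ = univ.image dir := by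
      ext j
      rw [mem_compl, mem_offD, mem_image]
      push Not
      simp
    rw [h1, Finset.sum_image fun a _ b _ h => dir.injective h]
    exact Finset.sum_congr rfl fun i _ => by rw [rxN_dir]

/-- The code over the grid of a code over `J`. -/
noncomputable def gcodeN (p : J → cd.Mk) (dir : Dir m ↪ J) (c : cd.CodeN J) :
    GCode G V1 (Dir m) :=
  (fun s => cd.hb c.1 s + ∑ j ∈ offD dir, cd.bex (p j) (c.2 j) s, fun i => c.2 (dir i))

theorem chi_gridN (x : ∀ i, cd.XB p dir i) :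
    (cd.gridN ex p dir).chi x = cd.chiN ex (rxN p dir x) := by
  funext s
  have h := sum_rxN (fun j y => ex j * cd.ch y.1 s) x
  change cd.chi0 s + ∑ j ∈ offD dir, ex j * cd.ch (p j).1 s + ∑ i, ex (dir i) * cd.ch (x i).1.1 s =
    cd.chi0 s + ∑ j, ex j * cd.ch (rxN p dir x j).1 s
  rw [h, add_assoc]

theorem ch_gridN (c : cd.CodeN J) (x : ∀ i, cd.XB p dir i) :
    (cd.gridN ex p dir).ch (gcodeN p dir c) x = cd.homN (rxN p dir x) c := by
  funext s
  have h := sum_rxN (fun j y => cd.bex y (c.2 j) s) x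
  change cd.hb c.1 s + ∑ j ∈ offD dir, cd.bex (p j) (c.2 j) s +
    ∑ i, cd.bex (x i).1 (c.2 (dir i)) s = cd.hb c.1 s + ∑ j, cd.bex (rxN p dir x j) (c.2 j) s
  rw [h, add_assoc]

theorem mem_XsN (hS : S.Ok) (hd : cd.DirOk ex p dir) (x : ∀ i, cd.XB p dir i) :
    x ∈ (cd.gridN ex p dir).Xs ↔ cd.DirEq dir (rxN p dir x) p := by
  have : Fact l.Prime := ⟨hS.prime⟩
  have key : ∀ (i : Dir m) (a : ZMod l), (ex (dir i))⁻¹ * (ex (dir i) * a) = a := fun i a =>
    inv_mul_cancel_left₀ (hd.ex_ne _) a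
  constructor
  · rintro ⟨h1, h2, h3⟩
    refine ⟨fun i k hik => ?_, fun i k hik w => ?_, fun i w => ?_⟩
    · rw [rxN_dir, rxN_dir]
      exact mul_left_cancel₀ (hd.ex_ne (dir i)) (h1 i k hik)
    · rw [rxN_dir, rxN_dir]
      exact h2 i k hik w
    · rw [rxN_dir]
      have h4 := h3 i w
      change cd.bex (x i).1 w (cd.phx (x i).1) -
        ((ex (dir i))⁻¹ * (ex (dir i) * cd.ch (x i).1.1 (cd.phx (x i).1))) • w = _ at h4
      rw [key] at h4
      exact h4
  · rintro ⟨h1, h2, h3⟩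
    refine ⟨fun i k hik => ?_, fun i k hik w => ?_, fun i w => ?_⟩
    · have := h1 i k hik
      rw [rxN_dir, rxN_dir] at this
      exact congrArg (fun a => ex (dir i) * a) this
    · have := h2 i k hik w
      rw [rxN_dir, rxN_dir] at this
      exact this
    · have := h3 i w
      rw [rxN_dir] at this
      change cd.bex (x i).1 w (cd.phx (x i).1) -
        ((ex (dir i))⁻¹ * (ex (dir i) * cd.ch (x i).1.1 (cd.phx (x i).1))) • w = _
      rw [key]
      exact this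

theorem xpN_mem (hS : S.Ok) (hd : cd.DirOk ex p dir) : xpN p dir ∈ (cd.gridN ex p dir).Xs := by
  rw [mem_XsN hS hd, rxN_xp]
  exact ⟨fun _ _ _ => rfl, fun _ _ _ _ => rfl, fun _ _ => rfl⟩

/-! ### Valid codes -/

theorem split_rxN (hc : cd.Ok) (hd : cd.DirOk ex p dir) (x : ∀ i, cd.XB p dir i) (i : Dir m) :
    cd.Split (rxN p dir x (dir i)) := by
  rw [rxN_dir]
  exact FrN.split_repl hc (hd.split i) (x i)

theorem valid_rxN (hc : cd.Ok) (hd : cd.DirOk ex p dir) (x : ∀ i, cd.XB p dir i)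
    (c : cd.CodeN J) : cd.ValidN (rxN p dir x) c ↔ cd.ValidN p c := by
  refine forall_congr' fun j => ?_
  by_cases hj : ∃ i, dir i = j
  · obtain ⟨i, rfl⟩ := hj
    exact ⟨fun _ => FrN.split_fx (hd.split i) _,
      fun _ => FrN.split_fx (split_rxN hc hd x i) _⟩
  · push Not at hj
    rw [rxN_off _ hj]

theorem pvec_rxN (hd : cd.DirOk ex p dir) (x : ∀ i, cd.XB p dir i) : cd.PVecN (rxN p dir x) :=
  FrN.pvec_repl hd.vec hd.dist x

theorem gcodeN_isC (hS : S.Ok) (hc : cd.Ok) {c : cd.CodeN J} (hv : cd.ValidN p c) :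
    (cd.gridN ex p dir).IsC (gcodeN p dir c) := by
  refine ⟨?_, fun v hv' => ?_⟩
  · exact Sys.CocG.add hS (hb_coc hc c.1)
      (CData.cocG_sum hS (offD dir) (fun j => cd.bex (p j) (c.2 j)) fun j _ => bex_coc hc (hv j))
  · have h1 : v ∈ Set.range cd.pl := by
      by_contra h
      exact hv' (Or.inl h)
    obtain ⟨Q, rfl⟩ := h1
    have h2 : ∀ j, (∀ i, dir i ≠ j) → Q ≠ (p j).1 := by
      intro j hj h
      exact hv' (Or.inr ⟨j, hj, by rw [h]⟩)
    change cd.hb c.1 (S.sg (cd.pl Q)) + ∑ j ∈ offD dir, cd.bex (p j) (c.2 j) (S.sg (cd.pl Q)) = 0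
    rw [hb_unr hc, zero_add]
    refine Finset.sum_eq_zero fun j hj => ?_
    exact bex_unr hc (hv j) (h2 j (mem_offD.1 hj))

theorem gcodeN_inj (hc : cd.Ok) (hd : cd.DirOk ex p dir) {c c' : cd.CodeN J}
    (h : cd.ValidN p c) (h' : cd.ValidN p c') (h0 : gcodeN p dir c = gcodeN p dir c') :
    c = c' := by
  refine homN_inj hc hd.vec h h' ?_
  have h1 := ch_gridN (ex := ex) (p := p) (dir := dir) c (xpN p dir)
  have h2 := ch_gridN (ex := ex) (p := p) (dir := dir) c' (xpN p dir)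
  rw [rxN_xp] at h1 h2
  rw [← h1, ← h2, h0]

/-- Every code over the grid comes from a code over `J`. -/
theorem exists_gcodeN (hS : S.Ok) (hc : cd.Ok) (hd : cd.DirOk ex p dir)
    (hΓ : (cd.gridN ex p dir).Ok) {g : GCode G V1 (Dir m)} (hg : (cd.gridN ex p dir).IsC g) :
    ∃ c : cd.CodeN J, cd.ValidN p c ∧ gcodeN p dir c = g := by
  have hcoc := Grid.ch_coc hS hΓ hg (xpN p dir)
  obtain ⟨c, hv, hcc⟩ := homN_surj_of hS hc hd.vec hcoc (by
    intro Q hQ
    refine Grid.ch_sg_off hΓ hg (xpN p dir) ?_ ?_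
    · rintro (h | ⟨j, -, hj⟩)
      · exact h ⟨Q, rfl⟩
      · exact hQ j (hc.pl_inj hj)
    · intro i h
      exact hQ (dir i) (hc.pl_inj h).symm)
  refine ⟨c, hv, Grid.ch_inj hS hΓ (xpN p dir) (gcodeN_isC hS hc hv) hg ?_⟩
  rw [ch_gridN, rxN_xp, hcc]

/-- The frame of the grid at a point. -/
theorem gcodeN_mem_FF (hS : S.Ok) (hc : cd.Ok) (hΓ : (cd.gridN ex p dir).Ok)
    (hd : cd.DirOk ex p dir) {x : ∀ i, cd.XB p dir i} (hx : x ∈ (cd.gridN ex p dir).Xs)
    {c : cd.CodeN J} (hv : cd.ValidN p c) :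
    gcodeN p dir c ∈ (cd.gridN ex p dir).FF ↔ c ∈ cd.FN ex (rxN p dir x) := by
  rw [Grid.mem_FF hS hΓ hx, chi_gridN, ch_gridN, mem_FN, valid_rxN hc hd x]
  exact ⟨fun h => ⟨hv, h.2⟩, fun h => ⟨gcodeN_isC hS hc hv, h.2⟩⟩

/-- The frame does not depend on the point. -/
theorem FN_rxN (hS : S.Ok) (hc : cd.Ok) (hd : cd.DirOk ex p dir) {x : ∀ i, cd.XB p dir i}
    (hx : x ∈ (cd.gridN ex p dir).Xs) : cd.FN ex (rxN p dir x) = cd.FN ex p := by
  have h := FrN.frameThm hS hc J _ ex m p dir hd x (xpN p dir) (by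
    have := (mem_XsN hS hd x).1 hx
    change cd.DirEq dir (rxN p dir x) (rxN p dir (xpN p dir))
    rw [rxN_xp]
    exact this)
  change cd.FN ex (rxN p dir x) = cd.FN ex (rxN p dir (xpN p dir)) at h
  rwa [rxN_xp] at h

/-- The size of the 2-Selmer group at the points of the grid. -/
theorem sel_cardN (hS : S.Ok) (hc : cd.Ok) (hd : cd.DirOk ex p dir)
    {x : ∀ i, cd.XB p dir i} (hx : x ∈ (cd.gridN ex p dir).Xs) :
    {b | S.IsSel1 ((cd.gridN ex p dir).chi x) b}.Finite ∧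
      {b | S.IsSel1 ((cd.gridN ex p dir).chi x) b}.ncard = Nat.card (cd.FN ex p) := by
  have hv := pvec_rxN hd x
  have h1 : Set.BijOn (cd.homN (rxN p dir x)) (cd.FN ex p)
      {b | S.IsSel1 ((cd.gridN ex p dir).chi x) b} := by
    rw [chi_gridN, ← FN_rxN hS hc hd hx]
    refine ⟨fun c hcF => hcF.2, fun c hcF c' hcF' hcc => homN_inj hc hv hcF.1 hcF'.1 hcc,
      fun b hb => ?_⟩
    obtain ⟨c, hcv, hcc⟩ := homN_surj hS hc hv hb
    exact ⟨c, ⟨hcv, by rw [hcc]; exact hb⟩, hcc⟩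
  have := hS.fin1
  have : NeZero l := ⟨hS.prime.ne_zero⟩
  have hfin : (cd.FN ex p).Finite := Set.toFinite _
  refine ⟨h1.finite_iff_finite.1 hfin, ?_⟩
  rw [← h1.image_eq, h1.injOn.ncard_image, ← Nat.card_coe_set_eq]

end Pool.Agent.SmL.CData
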