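import Pool.Agent.Lib.SmL.H.Defs
import Pool.Agent.Lib.SmA.Cubes

/-!
# SMITH-L (l odd), block I: definitions

Version of `Lib/SmN/I/Defs.lean` over `ZMod l`.

A grid `Γ : Grid S X` has for every direction `i : ι` a set `X i` of pairs (place, place of `Ω` above
it): `Γ.pl i x` is the place, which splits in the field of `V1`, `Γ.cj i x` an element of the
finite set `Γ.R` of representatives of `G / ker ac`, and `Γ.sgx i x`, `Γ.phx i x` the elements
`S.sg`, `S.phi` of the place conjugated by `Γ.cj i x`. `Γ.th i x` is a character, with the value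
`Γ.ex i ≠ 0` (the exponent of the direction) at the tame generator of the place, `Γ.be i x w`
a cocycle with the value `w` at `Γ.sgx i x`. `Γ.chi0` is the base character, `Γ.bad` the set of the bad
places, `Γ.sm`, `Γ.sb`, `Γ.ss` the prescribed symbols. `Γ.chi x` is the twist at the point `x`, `Γ.Xs`
the set of the points with the prescribed symbols.

A code `c : GCode G V1 ι` is a cocycle `c.1` unramified outside of `Γ.bad` and a vector `c.2` of
elements of `V1`; it gives at every point `x` the cocycle `Γ.ch c x`. `Γ.FF` is the set of the codes of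
the elements of the Selmer groups.
-/

set_option autoImplicit false

open Finset

namespace Pool.Agent.SmL

variable {l : ℕ} {A G V V1 Pl : Type*} [CommRing A] [Group G] [AddCommGroup V] [Module A V]
  [DistribMulAction G V] [AddCommGroup V1] [Module (ZMod l) V1]

/-- The codes of cocycles `G → V1` over a grid. -/
abbrev GCode (G : Type*) (V1 : Type*) (ι : Type*) := (G → V1) × (ι → V1)

/-- The data of a grid. -/
structure Grid (S : Sys l A G V V1 Pl) {ι : Type*} (X : ι → Type*) where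
  pl : ∀ i, X i → Pl
  cj : ∀ i, X i → G
  ex : ι → ZMod l
  th : ∀ i, X i → G → ZMod l
  be : ∀ i, X i → V1 → G → V1
  chi0 : G → ZMod l
  bad : Set Pl
  R : Finset G
  sm : ι → ι → ZMod l
  sb : ι → ι → V1 → V1
  ss : ι → V1 → V1

namespace Grid

variable {S : Sys l A G V V1 Pl} {ι : Type*} {X : ι → Type*}

/-- The tame generator at the point `x` of the direction `i`. -/
def sgx (Γ : Grid S X) (i : ι) (x : X i) : G := Γ.cj i x * S.sg (Γ.pl i x) * (Γ.cj i x)⁻¹

/-- The Frobenius element at the point `x` of the direction `i`. -/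
def phx (Γ : Grid S X) (i : ι) (x : X i) : G := Γ.cj i x * S.phi (Γ.pl i x) * (Γ.cj i x)⁻¹

/-- The hypotheses (I0): `pl i x` is a good place, split in the field of `V1`, where only
`th i x` and `be i x w` are ramified; on the decomposition groups of the bad places the characters
`th i x`, `x ∈ X i`, agree and the cocycles `be i x w`, `x ∈ X i`, agree up to coboundaries (g1); the
cocycles which are unramified outside of the bad places, the base character and the action on
`V[lam^2]` agree at the Frobenius elements of `X i` (g2). -/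
structure Ok (Γ : Grid S X) : Prop where
  bad_good : ∀ v, v ∉ Γ.bad → v ∈ S.good
  pl_bad : ∀ i x, Γ.pl i x ∉ Γ.bad
  split : ∀ i x, S.ac (S.phi (Γ.pl i x)) = 1
  pl_dir : ∀ i x j y, Γ.pl i x = Γ.pl j y → i = j
  pl_inj : ∀ i x y, Γ.pl i x = Γ.pl i y → Γ.cj i x = Γ.cj i y → x = y
  cj_mem : ∀ i x, Γ.cj i x ∈ Γ.R
  ex_ne : ∀ i, Γ.ex i ≠ 0
  th_hom : ∀ i x, S.HomG (Γ.th i x)
  th_self : ∀ i x, Γ.th i x (S.sg (Γ.pl i x)) = Γ.ex i
  th_unr : ∀ i x v, v ∉ Γ.bad → v ≠ Γ.pl i x → Γ.th i x (S.sg v) = 0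
  th_bad : ∀ v ∈ Γ.bad, ∀ i x y, ∀ s ∈ S.D v, Γ.th i x s = Γ.th i y s
  be_coc : ∀ i x w, S.CocG (Γ.be i x w)
  be_add : ∀ i x w w' s, Γ.be i x (w + w') s = Γ.be i x w s + Γ.be i x w' s
  be_self : ∀ i x w, Γ.be i x w (Γ.sgx i x) = w
  be_unr : ∀ i x w v, v ∉ Γ.bad → v ≠ Γ.pl i x → Γ.be i x w (S.sg v) = 0
  be_bad : ∀ v ∈ Γ.bad, ∀ i x y w, ∃ z, ∀ s ∈ S.D v, Γ.be i x w s - Γ.be i y w s = S.ac s z - z
  chi0_hom : S.HomG Γ.chi0
  chi0_unr : ∀ v, v ∉ Γ.bad → Γ.chi0 (S.sg v) = 0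
  unif_coc : ∀ c, S.CocG c → (∀ v, v ∉ Γ.bad → c (S.sg v) = 0) →
    ∀ i x y, c (Γ.phx i x) = c (Γ.phx i y)
  unif_chi : ∀ i x y, Γ.chi0 (Γ.phx i x) = Γ.chi0 (Γ.phx i y)
  unif_sq : ∀ Q : V, S.lam ^ 2 • Q = 0 → ∀ i x y, Γ.phx i x • Q = Γ.phx i y • Q

variable (Γ : Grid S X)

/-- The points with the prescribed symbols. The last condition is a condition on every single
coordinate (the spin). -/
def Xs : Set (∀ i, X i) :=
  {x | (∀ i j, i ≠ j → Γ.th i (x i) (Γ.phx j (x j)) = Γ.sm i j) ∧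
    (∀ i j, i ≠ j → ∀ w, Γ.be i (x i) w (Γ.phx j (x j)) = Γ.sb i j w) ∧
    ∀ i w, Γ.be i (x i) w (Γ.phx i (x i)) -
      ((Γ.ex i)⁻¹ * Γ.th i (x i) (Γ.phx i (x i))) • w = Γ.ss i w}

/-- `c` is a code: the first component is a cocycle unramified outside of the bad places. -/
def IsC (c : GCode G V1 ι) : Prop := S.CocG c.1 ∧ ∀ v, v ∉ Γ.bad → c.1 (S.sg v) = 0

/-- The difference of the characters of the two ends of the direction `i` (`z` minus `y`). -/
def del (y z : ∀ i, X i) (i : ι) (s : G) : ZMod l := Γ.th i (z i) s - Γ.th i (y i) s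

/-- The difference of the cocycles of the two ends of the direction `i` (`z` minus `y`). -/
def dbe (w : ι → V1) (y z : ∀ i, X i) (i : ι) (s : G) : V1 :=
  Γ.be i (z i) (w i) s - Γ.be i (y i) (w i) s

/-- The two ends of the direction `i`. -/
def pt (x0 x : ∀ i, X i) (i : ι) (e : Bool) : X i := if e then x i else x0 i

/-- The places of the cube `(x0, x)`. -/
def plc (Γ : Grid S X) (x0 x : ∀ i, X i) (i : ι) (e : Bool) : Pl := Γ.pl i (pt x0 x i e)

open Classical in
/-- The representatives at the places of the cube `(x0, x)`. -/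
noncomputable def cg (Γ : Grid S X) (x0 x : ∀ i, X i) (v : Pl) : G :=
  if h : ∃ p : ι × Bool, v = Γ.plc x0 x p.1 p.2 then Γ.cj h.choose.1 (pt x0 x h.choose.1 h.choose.2)
  else 1

variable [Fintype ι]

/-- The twist at the point `x`. -/
def chi (x : ∀ i, X i) (s : G) : ZMod l := Γ.chi0 s + ∑ i, Γ.th i (x i) s

/-- The cocycle with the code `c` at the point `x`. -/
def ch (c : GCode G V1 ι) (x : ∀ i, X i) (s : G) : V1 := c.1 s + ∑ i, Γ.be i (x i) (c.2 i) s

/-- The frame: the codes of the elements of the `lam`-Selmer groups. -/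
def FF : Set (GCode G V1 ι) := {c | Γ.IsC c ∧ ∀ x ∈ Γ.Xs, S.IsSel1 (Γ.chi x) (Γ.ch c x)}

end Grid

/-- The type data (I2, I3): `c 0 = a`, `c 1`, ..., `c r` are codes, `jl n ≥ 1` is the level of the
tower of `c n`, `fl n` the values of the pairing with the top of this tower (used if `jl n < k`),
`sig n` the set of the directions where `c n` is supported (at most two), `b` the right code. -/
structure Twr (l : ℕ) (G : Type*) (V1 : Type*) (ι : Type*) (r : ℕ) where
  c : Fin (r + 1) → GCode G V1 ι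
  jl : Fin (r + 1) → ℕ
  fl : Fin (r + 1) → GCode G V1 ι → ZMod l
  sig : Fin (r + 1) → Finset ι
  b : GCode G V1 ι

namespace Twr

variable {S : Sys l A G V V1 Pl} {ι : Type*} [Fintype ι] {X : ι → Type*} {r : ℕ}

/-- `Psi` is a top of the tower number `n` at the point `x`. -/
structure IsTow (τ : Twr l G V1 ι r) (Γ : Grid S X) (k : ℕ) (x : ∀ i, X i) (n : Fin (r + 1))
    (Psi : G → V) : Prop where
  sel : S.IsSel (Γ.chi x) (τ.jl n) Psi
  base : ∀ s, S.lam ^ (τ.jl n - 1) • Psi s = S.iota (Γ.ch (τ.c n) x s)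
  val : τ.jl n < k → ∀ d ∈ Γ.FF, S.CT (Γ.chi x) Psi (Γ.ch d x) = τ.fl n d

/-- The points of the given type. -/
def Y (τ : Twr l G V1 ι r) (Γ : Grid S X) (k : ℕ) : Set (∀ i, X i) :=
  {x | x ∈ Γ.Xs ∧ ∀ n, ∃ Psi, τ.IsTow Γ k x n Psi}

open Classical in
/-- The chosen towers. -/
noncomputable def psi (τ : Twr l G V1 ι r) (Γ : Grid S X) (k : ℕ) (x : ∀ i, X i)
    (n : Fin (r + 1)) : G → V := if h : ∃ Psi, τ.IsTow Γ k x n Psi then h.choose else 0

/-- The function `F_ab` (meaningful on `Y`). -/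
noncomputable def Fab (τ : Twr l G V1 ι r) (Γ : Grid S X) (k : ℕ) (x : ∀ i, X i) : ZMod l :=
  S.CT (Γ.chi x) (τ.psi Γ k x 0) (Γ.ch τ.b x)

/-- The colour of a point. -/
noncomputable def col (τ : Twr l G V1 ι r) (Γ : Grid S X) (k : ℕ) (x : ∀ i, X i) :
    Fin (r + 1) → ι → V := fun n i => τ.psi Γ k x n (Γ.sgx i (x i))

/-- The hypotheses on the type data: the codes are in the frame, `c n` is supported in `sig n` (at
most two directions), `c 0 = a` has a tower of level `k`, `b` is orthogonal to the Selmer cocycles of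
level `k - 1` at all points of the type. -/
structure Ok (τ : Twr l G V1 ι r) (Γ : Grid S X) (k : ℕ) : Prop where
  c_mem : ∀ n, τ.c n ∈ Γ.FF
  b_mem : τ.b ∈ Γ.FF
  jl_pos : ∀ n, 1 ≤ τ.jl n
  jl_le : ∀ n, τ.jl n ≤ k
  jl_zero : τ.jl 0 = k
  sig_card : ∀ n, (τ.sig n).card ≤ 2
  supp : ∀ n i, i ∉ τ.sig n → (τ.c n).2 i = 0
  perp : ∀ x ∈ τ.Y Γ k, ∀ Psi, S.IsSel (Γ.chi x) (k - 1) Psi →
    S.CT (Γ.chi x) Psi (Γ.ch τ.b x) = 0

variable [DecidableEq ι]

/-- The towers on the vertices of the cube `(y, z)`. -/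
noncomputable def fam (τ : Twr l G V1 ι r) (Γ : Grid S X) (k : ℕ) (y z : ∀ i, X i)
    (n : Fin (r + 1)) (T : Finset ι) : G → V := τ.psi Γ k (SmA.mix T y z) n

/-- I4: the vertices of the `U`-cube `(y, z)` are in `B`, the two ends of a direction have the same
representative `cj` and all its faces are minimal. -/
def PU (τ : Twr l G V1 ι r) (Γ : Grid S X) (k : ℕ) (B : Set (∀ i, X i)) (U : Finset ι)
    (y z : ∀ i, X i) : Prop :=
  (∀ j, j ∉ U → y j = z j) ∧ (∀ j, Γ.cj j (y j) = Γ.cj j (z j)) ∧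
  (∀ T, T ⊆ U → SmA.mix T y z ∈ B) ∧
    ∀ n, ∀ W, W ⊆ U → W.Nonempty → ix (τ.sig n) W ≤ τ.jl n →
      ∀ T, T ⊆ U \ W → Mn S (τ.sig n) (τ.jl n) (τ.fam Γ k y z n) W T

/-- I5: all the conditions on the faces of the cube `(x0, x)` inside the face with directions `U` at
the position `∅`: the places of the two ends are different, the vertices are in `Y`, with the colour
of `x0`, and the faces are minimal. -/
def FaceOk (τ : Twr l G V1 ι r) (Γ : Grid S X) (k : ℕ) (U : Finset ι) (x0 x : ∀ i, X i) : Prop :=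
  (∀ i ∈ U, Γ.pl i (x0 i) ≠ Γ.pl i (x i)) ∧
  (∀ T, T ⊆ U → SmA.mix T x0 x ∈ τ.Y Γ k ∧ τ.col Γ k (SmA.mix T x0 x) = τ.col Γ k x0) ∧
    ∀ n, ∀ W, W ⊆ U → W.Nonempty → ix (τ.sig n) W ≤ τ.jl n →
      ∀ T, T ⊆ U \ W → Mn S (τ.sig n) (τ.jl n) (τ.fam Γ k x0 x n) W T

/-- `x` is good for `x0`: the conditions hold on all the faces `{eps_i = 0}`. -/
def Good (τ : Twr l G V1 ι r) (Γ : Grid S X) (k : ℕ) (x0 x : ∀ i, X i) : Prop :=
  ∀ i : ι, τ.FaceOk Γ k (univ.erase i) x0 x

end Twr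

end Pool.Agent.SmL
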