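import Pool.Agent.Lib.SmL.I.Frame
import Pool.Agent.Lib.SmL.H.Min

/-!
# SMITH-L, block I, section I4: the twist and the codes at the vertices of a cube; the finite group
`HH Γ x W`
-/

set_option autoImplicit false

open Finset

namespace Pool.Agent.SmL

open Pool.Agent.SmL.IT Pool.Agent.SmA

variable {l : ℕ} {A G V V1 Pl : Type*} [CommRing A] [Group G] [AddCommGroup V] [Module A V]
  [DistribMulAction G V] [AddCommGroup V1] [Module (ZMod l) V1] {S : Sys l A G V V1 Pl}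
variable {ι : Type*} [Fintype ι] [DecidableEq ι] {X : ι → Type*}

omit [Fintype ι] [DecidableEq ι] in
theorem Grid.del_hom (hS : S.Ok) {Γ : Grid S X} (hΓ : Γ.Ok) (y z : ∀ i, X i) (i : ι) :
    S.HomG (Γ.del y z i) :=
  homG_sub hS (hΓ.th_hom i (z i)) (hΓ.th_hom i (y i))

omit [Fintype ι] [DecidableEq ι] in
theorem Grid.dbe_coc (hS : S.Ok) {Γ : Grid S X} (hΓ : Γ.Ok) (w : ι → V1) (y z : ∀ i, X i)
    (i : ι) : S.CocG (Γ.dbe w y z i) :=
  cocG_sub hS (hΓ.be_coc i (z i) (w i)) (hΓ.be_coc i (y i) (w i))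

omit [Fintype ι] in
theorem mix_mem {P : Finset ι} (y z : ∀ i, X i) {i : ι} (h : i ∈ P) : mix P y z i = z i := by
  simp [mix, h]

omit [Fintype ι] in
theorem mix_notMem {P : Finset ι} (y z : ∀ i, X i) {i : ι} (h : i ∉ P) : mix P y z i = y i := by
  simp [mix, h]

omit [Fintype ι] in
theorem Grid.th_mix (Γ : Grid S X) (y z : ∀ i, X i) (P : Finset ι) (i : ι) (s : G) :
    Γ.th i (mix P y z i) s = Γ.th i (y i) s + (if i ∈ P then Γ.del y z i s else 0) := by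
  by_cases h : i ∈ P
  · rw [mix_mem y z h, if_pos h, Grid.del, add_sub_cancel]
  · rw [mix_notMem y z h, if_neg h, add_zero]

omit [Fintype ι] in
theorem Grid.be_mix (Γ : Grid S X) (w : ι → V1) (y z : ∀ i, X i) (P : Finset ι) (i : ι) (s : G) :
    Γ.be i (mix P y z i) (w i) s =
      Γ.be i (y i) (w i) s + (if i ∈ P then Γ.dbe w y z i s else 0) := by
  by_cases h : i ∈ P
  · rw [mix_mem y z h, if_pos h, Grid.dbe, add_sub_cancel]
  · rw [mix_notMem y z h, if_neg h, add_zero]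

theorem Grid.chi_mix (Γ : Grid S X) (y z : ∀ i, X i) (P : Finset ι) :
    Γ.chi (mix P y z) = chiC (Γ.chi y) (Γ.del y z) P := by
  funext s
  unfold Grid.chi chiC
  rw [sum_congr rfl fun i _ => Γ.th_mix y z P i s, sum_add_distrib, ← add_assoc,
    ← sum_filter]
  simp

theorem Grid.ch_mix (Γ : Grid S X) (c : GCode G V1 ι) (y z : ∀ i, X i) (P : Finset ι) :
    Γ.ch c (mix P y z) = bC (Γ.ch c y) (Γ.dbe c.2 y z) P := by
  funext s
  unfold Grid.ch bC
  rw [sum_congr rfl fun i _ => Γ.be_mix c.2 y z P i s, sum_add_distrib, ← add_assoc,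
    ← sum_filter]
  simp

omit [DecidableEq ι] in
/-- A Selmer cocycle is unramified at the good places which are not on the point. -/
theorem sel_sg_off (hS : S.Ok) {Γ : Grid S X} (hΓ : Γ.Ok) {x : ∀ i, X i} {j : ℕ} {Psi : G → V}
    (h : S.IsSel (Γ.chi x) j Psi) {v : Pl} (hv : v ∉ Γ.bad) (hx : ∀ m, v ≠ Γ.pl m (x m)) :
    Psi (S.sg v) = 0 := by
  obtain ⟨Q, hQ⟩ := h.loc v
  rw [hQ _ (hS.sg_mem v)]
  exact Sys.dl_sg_zero hS (hΓ.bad_good v hv) (Grid.chi_sg_off hΓ x hv hx) Q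

omit [DecidableEq ι] in
/-- The same at the conjugates of the tame generator. -/
theorem sel_sg_off_conj (hS : S.Ok) {Γ : Grid S X} (hΓ : Γ.Ok) {x : ∀ i, X i} {j : ℕ}
    {Psi : G → V} (h : S.IsSel (Γ.chi x) j Psi) {v : Pl} (hv : v ∉ Γ.bad)
    (hx : ∀ m, v ≠ Γ.pl m (x m)) (a : G) : Psi (a * S.sg v * a⁻¹) = 0 := by
  have hchi := Grid.chi_hom hS hΓ x
  have h1 := (Sys.conj_isSel hS (g := fun _ => a) hchi).2 h
  obtain ⟨Q, hQ⟩ := h1.loc v
  have h2 := hQ _ ((hS.conj fun _ => a).sg_mem v)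
  change Psi (a * S.sg v * a⁻¹) = S.dl (Γ.chi x) Q ((S.conj fun _ => a).sg v) at h2
  rw [h2]
  refine Sys.dl_sg_zero (hS.conj fun _ => a) (hΓ.bad_good v hv) ?_ Q
  change Γ.chi x (a * S.sg v * a⁻¹) = 0
  rw [Grid.chi_conj hS hΓ, Grid.chi_sg_off hΓ x hv hx]

/-- The group of I4: cocycles in the Kummer groups at the bad places and at the places of `x`
outside of `W`, unramified at all other places. -/
def HH (Γ : Grid S X) (x : ∀ i, X i) (W : Finset ι) : Set (G → V1) :=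
  {h | S.CocG h ∧ (∀ v, (v ∈ Γ.bad ∨ ∃ m, m ∉ W ∧ v = Γ.pl m (x m)) →
      S.loc v h ∈ S.Wl (Γ.chi x) v) ∧
    ∀ v, v ∉ Γ.bad → (∀ m, m ∉ W → v ≠ Γ.pl m (x m)) → h (S.sg v) = 0}

omit [DecidableEq ι] in
theorem HH_zero (hS : S.Ok) (Γ : Grid S X) (x : ∀ i, X i) (W : Finset ι) :
    (fun _ => (0 : V1)) ∈ HH Γ x W :=
  ⟨cocG_zero hS, fun v _ => (S.W (Γ.chi x) v).zero_mem, fun _ _ _ => rfl⟩

/-- The difference of two elements of `HH` with the same Frobenius values at the places of `W` is in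
the Selmer group. -/
theorem HH_sub (hS : S.Ok) {Γ : Grid S X} (hΓ : Γ.Ok) {x : ∀ i, X i} {W : Finset ι} {h h' : G → V1}
    (hh : h ∈ HH Γ x W) (hh' : h' ∈ HH Γ x W)
    (he : ∀ m ∈ W, h (S.phi (Γ.pl m (x m))) = h' (S.phi (Γ.pl m (x m)))) :
    S.IsSel1 (Γ.chi x) (fun s => h s - h' s) := by
  refine ⟨cocG_sub hS hh.1 hh'.1, fun v => ?_⟩
  by_cases h1 : v ∈ Γ.bad ∨ ∃ m, m ∉ W ∧ v = Γ.pl m (x m)
  · exact (S.W (Γ.chi x) v).sub_mem (hh.2.1 v h1) (hh'.2.1 v h1)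
  · push Not at h1
    obtain ⟨hv, hm⟩ := h1
    have e1 : h (S.sg v) - h' (S.sg v) = 0 := by
      rw [hh.2.2 v hv hm, hh'.2.2 v hv hm, sub_zero]
    by_cases h2 : ∃ m, v = Γ.pl m (x m)
    · obtain ⟨m, rfl⟩ := h2
      have hmW : m ∈ W := by
        by_contra hc
        exact hm m hc rfl
      have e2 : h (S.phi (Γ.pl m (x m))) - h' (S.phi (Γ.pl m (x m))) = 0 := by
        rw [he m hmW, sub_self]
      have e3 : S.loc (Γ.pl m (x m)) (fun s => h s - h' s) = 0 := Prod.ext e1 e2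
      rw [e3]
      exact (S.W (Γ.chi x) _).zero_mem
    · push Not at h2
      rw [Sys.mem_Wl_good hS (Grid.chi_hom hS hΓ x) (hΓ.bad_good v hv)
        (Grid.chi_sg_off hΓ x hv h2)]
      exact e1

/-- The number of elements of `HH`. -/
theorem HH_card (hS : S.Ok) {Γ : Grid S X} (hΓ : Γ.Ok) (x : ∀ i, X i) (W : Finset ι)
    (hfin : {b | S.IsSel1 (Γ.chi x) b}.Finite) :
    (HH Γ x W).Finite ∧
      (HH Γ x W).ncard ≤ Nat.card V1 ^ W.card * {b | S.IsSel1 (Γ.chi x) b}.ncard := by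
  classical
  have := hS.fin1
  have : Finite {b | S.IsSel1 (Γ.chi x) b} := hfin
  let F : (G → V1) → (W → V1) := fun h m => h (S.phi (Γ.pl m.1 (x m.1)))
  let rep : (W → V1) → (G → V1) := fun u =>
    if hu : ∃ h ∈ HH Γ x W, F h = u then hu.choose else fun _ => 0
  have hrep : ∀ h ∈ HH Γ x W, rep (F h) ∈ HH Γ x W ∧ F (rep (F h)) = F h := by
    intro h hh
    have hu : ∃ h' ∈ HH Γ x W, F h' = F h := ⟨h, hh, rfl⟩
    have e : rep (F h) = hu.choose := dif_pos hu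
    rw [e]
    exact hu.choose_spec
  have hsel : ∀ h ∈ HH Γ x W, S.IsSel1 (Γ.chi x) (fun s => h s - rep (F h) s) := by
    intro h hh
    obtain ⟨h1, h2⟩ := hrep h hh
    exact HH_sub hS hΓ hh h1 fun m hm => (congrFun h2 ⟨m, hm⟩).symm
  let J : HH Γ x W → (W → V1) × {b | S.IsSel1 (Γ.chi x) b} := fun h =>
    (F h.1, ⟨fun s => h.1 s - rep (F h.1) s, hsel h.1 h.2⟩)
  have hJ : Function.Injective J := by
    intro h h' hJ
    have e1 : F h.1 = F h'.1 := congrArg Prod.fst hJ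
    have e2 := congrArg (fun q => q.2.1) hJ
    apply Subtype.ext
    funext s
    have e3 : h.1 s - rep (F h.1) s = h'.1 s - rep (F h'.1) s := congrFun e2 s
    rw [e1] at e3
    exact sub_left_injective e3
  have hfin' : Finite (HH Γ x W) := Finite.of_injective J hJ
  refine ⟨hfin', ?_⟩
  have h1 := Nat.card_le_card_of_injective J hJ
  rw [Nat.card_prod, Nat.card_fun] at h1
  rw [← Nat.card_coe_set_eq, ← Nat.card_coe_set_eq]
  refine h1.trans (le_of_eq ?_)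
  rw [Nat.card_eq_fintype_card (α := W), Fintype.card_coe]

end Pool.Agent.SmL
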