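import Pool.Agent.Lib.SmL.I.FrA

/-!
SMITH-L, block I, `FrameThm`, part B: the Selmer codes are constant along the points of the
big grid with the same direction symbols.
-/

set_option autoImplicit false

open Finset

namespace Pool.Agent.SmL.FrN

open Pool.Agent.SmL.IT

variable {l : ℕ} {A G V V1 Pl : Type} [CommRing A] [Group G] [AddCommGroup V] [Module A V]
  [DistribMulAction G V] [AddCommGroup V1] [Module (ZMod l) V1] {S : Sys l A G V V1 Pl}
  {X : PSys} {cd : CData S X}
variable {J : Type} [Fintype J] {m : ℕ} {p p' : J → cd.Mk} {dir : Dir m ↪ J} {ex : J → ZMod l}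

/-- Two vectors in the same big block, with the same direction symbols. -/
structure Cmp (p p' : J → cd.Mk) (dir : Dir m ↪ J) : Prop where
  vec : cd.PVecN p
  vec' : cd.PVecN p'
  off : ∀ j, (∀ i, dir i ≠ j) → p' j = p j
  split : ∀ i, cd.Split (p (dir i))
  split' : ∀ i, cd.Split (p' (dir i))
  kf : ∀ i, cd.kf (cd.phx (p (dir i))) = cd.kf (cd.phx (p' (dir i)))
  ch : ∀ i j, (∀ i', dir i' ≠ j) →
    cd.ch (p j).1 (cd.phx (p (dir i))) = cd.ch (p j).1 (cd.phx (p' (dir i)))
  be : ∀ i j, (∀ i', dir i' ≠ j) → ∀ w, cd.Fx (p j) w →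
    cd.bex (p j) w (cd.phx (p (dir i))) = cd.bex (p j) w (cd.phx (p' (dir i)))
  eq : cd.DirEq dir p p'

theorem Cmp.symm (h : Cmp p p' dir) : Cmp p' p dir where
  vec := h.vec'
  vec' := h.vec
  off j hj := (h.off j hj).symm
  split := h.split'
  split' := h.split
  kf i := (h.kf i).symm
  ch i j hj := by rw [h.off j hj]; exact (h.ch i j hj).symm
  be i j hj w hw := by
    rw [h.off j hj] at hw ⊢
    exact (h.be i j hj w hw).symm
  eq := ⟨fun i k hik => (h.eq.ch i k hik).symm, fun i k hik w => (h.eq.be i k hik w).symm,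
    fun i w => (h.eq.self i w).symm⟩

theorem Cmp.valid (h : Cmp p p' dir) {c : cd.CodeN J} (hv : cd.ValidN p c) :
    cd.ValidN p' c := by
  intro j
  by_cases hj : ∃ i, dir i = j
  · obtain ⟨i, rfl⟩ := hj
    exact split_fx (h.split' i) _
  · push Not at hj
    rw [h.off j hj]
    exact hv j

/-- The sums over the entries, compared entry by entry at a place. -/
theorem loc_homN_sub {c : cd.CodeN J} (v : Pl)
    (h : ∀ j, ∃ u, S.loc v (cd.bex (p j) (c.2 j)) - S.loc v (cd.bex (p' j) (c.2 j)) =
      S.cob v u) : ∃ u, S.loc v (cd.homN p c) - S.loc v (cd.homN p' c) = S.cob v u := by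
  choose u hu using h
  refine ⟨∑ j, u j, ?_⟩
  have h1 : ∀ j, cd.bex (p j) (c.2 j) (S.sg v) - cd.bex (p' j) (c.2 j) (S.sg v) =
      S.ac (S.sg v) (u j) - u j := fun j => congrArg Prod.fst (hu j)
  have h2 : ∀ j, cd.bex (p j) (c.2 j) (S.phi v) - cd.bex (p' j) (c.2 j) (S.phi v) =
      S.ac (S.phi v) (u j) - u j := fun j => congrArg Prod.snd (hu j)
  refine Prod.ext ?_ ?_
  · change cd.homN p c (S.sg v) - cd.homN p' c (S.sg v) = S.ac (S.sg v) (∑ j, u j) - ∑ j, u j
    rw [CData.homN, CData.homN, add_sub_add_left_eq_sub, ← sum_sub_distrib, map_sum,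
      ← sum_sub_distrib]
    exact sum_congr rfl fun j _ => h1 j
  · change cd.homN p c (S.phi v) - cd.homN p' c (S.phi v) = S.ac (S.phi v) (∑ j, u j) - ∑ j, u j
    rw [CData.homN, CData.homN, add_sub_add_left_eq_sub, ← sum_sub_distrib, map_sum,
      ← sum_sub_distrib]
    exact sum_congr rfl fun j _ => h2 j

/-- Transfer of the local condition. -/
theorem wl_transfer (hS : S.Ok) {chi chi' : G → ZMod l} {v : Pl} {b b' : G → V1}
    (hchi : ∀ s ∈ S.D v, chi s = chi' s) (h : ∃ u, S.loc v b - S.loc v b' = S.cob v u)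
    (hb : S.loc v b ∈ S.Wl chi v) : S.loc v b' ∈ S.Wl chi' v := by
  obtain ⟨u, hu⟩ := h
  have h1 : S.loc v b' + S.cob v u = S.loc v b := by rw [← hu]; abel
  refine wl_congr hS hchi ?_
  rw [← wl_add_cob hS v _ u, h1]
  exact hb

/-- The entries at a place off the directions: the symbols of the characters. -/
theorem Cmp.ch_off (hc : cd.Ok) (h : Cmp p p' dir) {j : J} (hj : ∀ i, dir i ≠ j) (k : J) :
    cd.ch (p k).1 (cd.phx (p j)) = cd.ch (p' k).1 (cd.phx (p j)) := by
  by_cases hk : ∃ i, dir i = k
  · obtain ⟨i, rfl⟩ := hk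
    obtain ⟨Rr, hR⟩ := hc.ch_rec
    have hne : (p (dir i)).1 ≠ (p j).1 := fun he => hj i (h.vec he)
    have hne' : (p' (dir i)).1 ≠ (p j).1 := fun he => by
      rw [← h.off j hj] at he
      exact hj i (h.vec' he)
    have e1 := hR _ _ hne
    have e2 := hR _ _ hne'
    rw [h.kf i, ← e2, h.ch i j hj] at e1
    exact sub_left_inj.1 e1
  · push Not at hk
    rw [h.off k hk]

theorem Cmp.mem_FN (hS : S.Ok) (hc : cd.Ok) (hex : ∀ j, ex j ≠ 0) (h : Cmp p p' dir) {c : cd.CodeN J}
    (hcF : c ∈ cd.FN ex p) : c ∈ cd.FN ex p' := by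
  have : Fact l.Prime := ⟨hS.prime⟩
  obtain ⟨hv, -, hloc⟩ := hcF
  have hv' := h.valid hv
  refine ⟨hv', CData.homN_coc hS hc hv', fun v => ?_⟩
  have hchi := CData.chiN_hom hS hc ex p
  have hchi' := CData.chiN_hom hS hc ex p'
  by_cases hvr : v ∈ Set.range cd.pl
  · obtain ⟨Q, rfl⟩ := hvr
    by_cases hQ : ∃ j, (p' j).1 = Q
    · obtain ⟨j, rfl⟩ := hQ
      by_cases hj : ∃ i, dir i = j
      · -- a direction
        obtain ⟨i, rfl⟩ := hj
        refine (cond_congr hS hc hchi hchi' (h.split i) (h.split' i) (h.kf i) (hex (dir i))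
          (CData.chiN_ram hc h.vec _) (CData.chiN_ram hc h.vec' _) (CData.homN_coc hS hc hv)
          (CData.homN_coc hS hc hv') (CData.homN_ram hc h.vec hv _)
          (CData.homN_ram hc h.vec' hv' _) ?_).1 (hloc _)
        -- the symbols
        have key : ∀ (q : J → cd.Mk) (s : G) (u : ZMod l) (w : V1),
            cd.homN q c s - (u * cd.chiN ex q s) • w = (cd.hb c.1 s - (u * cd.chi0 s) • w) +
              ∑ k, (cd.bex (q k) (c.2 k) s - (u * (ex k * cd.ch (q k).1 s)) • w) := by
          intro q s u w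
          rw [CData.homN, CData.chiN, sum_sub_distrib, mul_add, add_smul, mul_sum, sum_smul]
          abel
        rw [key, key]
        congr 1
        · congr 1
          · obtain ⟨z, hz⟩ := hc.kf_coc _ (CData.hb_coc hc c.1) (CData.hb_unr hc c.1) _ _ (h.kf i)
            rw [split_ac (h.split i)] at hz
            change cd.hb c.1 (cd.phx (p (dir i))) - cd.hb c.1 (cd.phx (p' (dir i))) = z - z at hz
            rw [sub_self, sub_eq_zero] at hz
            exact hz
          · rw [hc.kf_hom _ hc.chi0_hom hc.chi0_unr _ _ (h.kf i)]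
        · refine sum_congr rfl fun k _ => ?_
          by_cases hk : ∃ i', dir i' = k
          · obtain ⟨i', rfl⟩ := hk
            by_cases hii : i' = i
            · subst hii
              rw [inv_mul_cancel_left₀ (hex _), inv_mul_cancel_left₀ (hex _)]
              exact h.eq.self i' _
            · rw [h.eq.be i' i hii, h.eq.ch i' i hii]
          · push Not at hk
            rw [h.off k hk, h.ch i k hk, h.be i k hk _ (hv k)]
      · -- off the directions
        push Not at hj
        rw [h.off j hj]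
        refine wl_transfer hS ?_ (loc_homN_sub _ fun k => ?_) (hloc _)
        · have hd : S.HomG (fun s => cd.chiN ex p s - cd.chiN ex p' s) := homG_sub hS hchi hchi'
          have h1 := homG_D hS hd (cd.pl (p j).1) (by
            have e2 := CData.chiN_ram (ex := ex) hc h.vec' j
            rw [h.off j hj] at e2
            rw [CData.chiN_ram hc h.vec j, e2, sub_self]) (by
            have e3 : ∀ q : J → cd.Mk, cd.chiN ex q (S.phi (cd.pl (p j).1)) =
                cd.chiN ex q (cd.phx (p j)) := fun q => by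
              rw [CData.phx, homG_conj (CData.chiN_hom hS hc ex q).2]
            rw [e3, e3, CData.chiN, CData.chiN, add_sub_add_left_eq_sub, ← sum_sub_distrib]
            exact sum_eq_zero fun k _ => by rw [h.ch_off hc hj k, sub_self])
          exact fun s hs => sub_eq_zero.1 (h1 s hs)
        · by_cases hk : ∃ i', dir i' = k
          · obtain ⟨i', rfl⟩ := hk
            refine rec_off hS hc (h.split i') (h.split' i') ?_ ?_ (h.kf i')
              (fun w' hw' => h.be i' j hj w' hw') _
            · exact fun he => hj i' (h.vec he.symm)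
            · intro he
              rw [← h.off j hj] at he
              exact hj i' (h.vec' he.symm)
          · push Not at hk
            refine ⟨0, ?_⟩
            rw [h.off k hk, sub_self]
            refine Prod.ext ?_ ?_
            · change (0 : V1) = S.ac _ 0 - 0
              rw [map_zero, sub_zero]
            · change (0 : V1) = S.ac _ 0 - 0
              rw [map_zero, sub_zero]
    · -- an unramified place
      push Not at hQ
      rw [Sys.mem_Wl_good hS hchi' (hc.pl_good _) (CData.chiN_unr hc hQ)]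
      exact CData.homN_unr hc hv' hQ
  · -- a bad place
    refine wl_transfer hS ?_ (loc_homN_sub _ fun k => ?_) (hloc _)
    · intro s hs
      rw [CData.chiN, CData.chiN]
      congr 1
      refine sum_congr rfl fun k _ => ?_
      by_cases hk : ∃ i', dir i' = k
      · obtain ⟨i', rfl⟩ := hk
        rw [(hc.kf_bad _ _ (h.kf i') v hvr).1 s hs]
      · push Not at hk
        rw [h.off k hk]
    · by_cases hk : ∃ i', dir i' = k
      · obtain ⟨i', rfl⟩ := hk
        obtain ⟨z, hz⟩ := (hc.kf_bad _ _ (h.kf i') v hvr).2 (c.2 (dir i')) (hv _)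
        exact ⟨z, Prod.ext (hz _ (hS.sg_mem v)) (hz _ (hS.phi_mem v))⟩
      · push Not at hk
        refine ⟨0, ?_⟩
        rw [h.off k hk, sub_self]
        refine Prod.ext ?_ ?_
        · change (0 : V1) = S.ac _ 0 - 0
          rw [map_zero, sub_zero]
        · change (0 : V1) = S.ac _ 0 - 0
          rw [map_zero, sub_zero]

/-- The frame is the same at two points of a big block with the same direction symbols. -/
theorem Cmp.FN_eq (hS : S.Ok) (hc : cd.Ok) (hex : ∀ j, ex j ≠ 0) (h : Cmp p p' dir) : cd.FN ex p = cd.FN ex p' :=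
  Set.Subset.antisymm (fun _ hc' => h.mem_FN hS hc hex hc') fun _ hc' => h.symm.mem_FN hS hc hex hc'

end Pool.Agent.SmL.FrN
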