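import Pool.Agent.Lib.SmL.I.Defs
import Pool.Agent.Lib.SmL.Cnt.Stmts

/-!
# SMITH-L, block I: the grid of the big classes in the directions

Version of `Lib/SmN/I/GridDefs.lean` for an odd prime `l`; `ex` are the exponents of the twist.
-/

set_option autoImplicit false

open Finset

namespace Pool.Agent.SmL.CData

variable {l : ℕ} {A G V V1 Pl : Type} [CommRing A] [Group G] [AddCommGroup V] [Module A V]
  [DistribMulAction G V] [AddCommGroup V1] [Module (ZMod l) V1] {S : Sys l A G V V1 Pl} {X : PSys}
  (cd : CData S X)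

open Classical in
/-- The entries off the directions. -/
noncomputable def offD {J I : Type} [Fintype J] (dir : I ↪ J) : Finset J :=
  univ.filter fun j => ∀ i, dir i ≠ j

/-- The grid of the big classes `XB` in the directions. -/
noncomputable def gridN {J : Type} [Fintype J] {m : ℕ} (ex : J → ZMod l) (p : J → cd.Mk)
    (dir : Dir m ↪ J) : Grid S (fun i => cd.XB p dir i) where
  pl := fun _ x => cd.pl x.1.1
  cj := fun _ x => x.1.2.1
  ex := fun i => ex (dir i)
  th := fun i x s => ex (dir i) * cd.ch x.1.1 s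
  be := fun _ x w => cd.bex x.1 w
  chi0 := fun s => cd.chi0 s + ∑ j ∈ offD dir, ex j * cd.ch (p j).1 s
  bad := (Set.range cd.pl)ᶜ ∪ {v | ∃ j, (∀ i, dir i ≠ j) ∧ cd.pl (p j).1 = v}
  R := cd.R
  sm := fun i j => ex (dir i) * cd.ch (p (dir i)).1 (cd.phx (p (dir j)))
  sb := fun i j w => cd.bex (p (dir i)) w (cd.phx (p (dir j)))
  ss := fun i w => cd.bex (p (dir i)) w (cd.phx (p (dir i))) -
    cd.ch (p (dir i)).1 (cd.phx (p (dir i))) • w

end Pool.Agent.SmL.CData
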