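import Pool.Agent.Lib.SmL.A.GridAbs
import Pool.Agent.Lib.SmL.I.LastDefs
import Pool.Agent.Lib.SmL.I.UData
import Pool.Agent.Lib.SmL.I.Many

/-!
# SMITH-L (l odd), block I: the theorem over the abstract grid (grid_abs, I4, I5, cancellation)

`HasTop τ Γ F Bd`: at the good pairs the function `F` is `h` (a function of `x0`, the coordinates `x'`
and the last coordinate) times functions which miss a coordinate, and the sums over the last
coordinate of the products of the `h` over the vertices of a cube are at most `Bd`.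
-/

set_option autoImplicit false

open Finset

namespace Pool.Agent.SmL

open Pool.Agent.SmA

/-- The density constant of I4 (`M = #V1`, `g = #R`). -/
noncomputable def cGr (M g m r N : ℕ) (δ : ℝ) : ℝ :=
  (δ / nCol M m r (m + 2)) ^ (2 ^ (m + 2)) / (nCls M g N r (m + 2) : ℝ) ^ (2 ^ (m + 2))

/-- The bound for the sums over the last coordinate (`M = #V1`). -/
noncomputable def bGr (l M m K0 R a q C D : ℕ) : ℝ :=
  C * (K0 * ((l : ℝ) ^ m * (M : ℝ) ^ 2 ^ m) ^ 2 ^ (m + 1) * (R + 1)) ^ a * √((q : ℝ) ^ D)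

variable {l : ℕ} {A G V V1 Pl : Type*} [CommRing A] [Group G] [AddCommGroup V] [Module A V]
  [DistribMulAction G V] [AddCommGroup V1] [Module (ZMod l) V1] {S : Sys l A G V V1 Pl}
variable {m r : ℕ} {X : Option (Option (Fin m)) → Type*}

/-- The form of `F` at the good pairs, and the bound for the sums over the last coordinate. -/
def HasTop [Fintype (X none)] (τ : Twr l G V1 (Option (Option (Fin m))) r) (Γ : Grid S X)
    (F : (∀ i, X i) → ℂ) (Bd : ℝ) : Prop :=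
  ∃ h : (∀ i, X i) → (∀ i : Option (Fin m), X (some i)) → X none → ℂ,
    (∀ x0 x P, ‖h x0 x P‖ ≤ 1) ∧
    (∀ x0, ∃ ψ : Option (Option (Fin m)) → (∀ i, X i) → ℂ, (∀ j, Misses j (ψ j)) ∧
      ∀ x, τ.Good Γ m x0 x → F x = h x0 (fun i => x (some i)) (x none) * ∏ j, ψ j x) ∧
    ∀ x0 : ∀ i, X i, ∀ a b : ∀ i : Option (Fin m), X (some i),
      (∀ i, ¬ Γ.pl (some i) (a i) = Γ.pl (some i) (b i) ∧
        ¬ Γ.pl (some i) (a i) = Γ.pl (some i) (x0 (some i)) ∧
        ¬ Γ.pl (some i) (b i) = Γ.pl (some i) (x0 (some i))) →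
      ‖∑ P : X none, ∏ W : Finset (Option (Fin m)), cj #W (h x0 (mix W a b) P)‖ ≤ Bd

variable {Γ : Grid S X} {τ : Twr l G V1 (Option (Option (Fin m))) r}
variable [∀ i, Fintype (X i)] [∀ i, Nonempty (X i)]

open Classical in
/-- Theorem I over an abstract grid. -/
theorem grid_core (hS : S.Ok) (hΓ : Γ.Ok) (hτ : τ.Ok Γ m) (hm : 1 ≤ m)
    (N0 : ℕ) (hN0 : 0 < N0) (hsel : ∀ x ∈ τ.Y Γ m, {b | S.IsSel1 (Γ.chi x) b}.Finite ∧
      {b | S.IsSel1 (Γ.chi x) b}.ncard ≤ N0)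
    (hR : 0 < Γ.R.card) (F : (∀ i, X i) → ℂ) (hF : ∀ x, ‖F x‖ ≤ 1) (Bd : ℝ)
    (hT : HasTop τ Γ F Bd) (γ : ℝ) (hγ0 : 0 ≤ γ)
    (hγ : Bd ^ 2 / (Fintype.card (X none) : ℝ) ^ 2 +
      3 * Γ.R.card * ∑ i : Option (Fin m), 1 / (Fintype.card (X (some i)) : ℝ) ≤ γ ^ 2 ^ (m + 2))
    (δ c : ℝ) (hδ : 0 ≤ δ)
    (hc' : c ≤ cGr (Nat.card V1) Γ.R.card m r N0 δ)
    (hc : ∑ i, 1 / (Fintype.card (X i) : ℝ) ≤ c / 2) (N : ℕ) (hN : 2 ≤ c * N) :
    ‖∑ x ∈ univ with x ∈ τ.Y Γ m, F x‖ ≤ (δ + 2 ^ N * γ) * Fintype.card (∀ i, X i) := by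
  have hcard : Fintype.card (Option (Option (Fin m))) = m + 2 := by simp
  obtain ⟨h, hh, hform, hBd⟩ := hT
  refine grid_abs (fun i a b => Γ.pl (some i) a = Γ.pl (some i) b)
    (fun i a b h => h.symm) Γ.R.card (fun i c => ?_) _ F hF
    (fun x0 x => τ.Good Γ m x0 x)
    (fun x0 x h => mem_filter.2 ⟨mem_univ x, IC.good_Y hS hΓ hτ hm hcard h⟩)
    (fun x0 => UD.hfac τ Γ m x0) h hh hform Bd hBd γ hγ0 ?_ δ c hδ (fun B hB hBδ => ?_) hc N hN
  · refine card_le_card_of_injOn (fun b => Γ.cj (some i) b) (fun b _ => hΓ.cj_mem _ b) ?_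
    intro b hb b' hb' hbb
    have h1 := (mem_filter.1 hb).2
    have h2 := (mem_filter.1 hb').2
    exact hΓ.pl_inj (some i) b b' (h1.trans h2.symm) hbb
  · have h1 : Fintype.card (Option (Fin m)) + 1 = m + 2 := by simp
    rw [h1]
    exact hγ
  · have h1 := many_good hS hΓ hτ N0 hN0 hsel hR B (fun x hx => (mem_filter.1 (hB hx)).2) δ hδ hBδ
    rw [hcard] at h1
    refine le_trans ?_ h1
    unfold cGr at hc'
    gcongr

end Pool.Agent.SmL
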