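import Pool.Agent.Lib.Sm.I.GridNum

/-!
# SMITH-L (l odd), block I: the numerical part of Theorem I and the choice of the parameters

Version of `Lib/SmN/I/NumN.lean`: the number of the primes is at most `2 l log n`.
-/

set_option autoImplicit false

namespace Pool.Agent.SmL.INum

open Pool.Agent.Sm.INum (small)

/-- The bound for `2 ^ t`. -/
theorem two_pow_le {l n t : ℕ} (hn : 3 ≤ n) (ht : (t : ℝ) ≤ 2 * l * Real.log n) :
    (2 : ℝ) ^ t ≤ (n : ℝ) ^ (2 * l) := by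
  have hnpos : (0 : ℝ) < n := by positivity
  have hlog : 0 ≤ Real.log n := Real.log_nonneg (by exact_mod_cast (by omega : 1 ≤ n))
  have h1 : (2 : ℝ) ^ t = Real.exp (t * Real.log 2) := by
    rw [mul_comm, Real.exp_mul, Real.exp_log (by norm_num), Real.rpow_natCast]
  have h2 : (n : ℝ) ^ (2 * l) = Real.exp ((2 * l : ℕ) * Real.log n) := by
    rw [mul_comm ((2 * l : ℕ) : ℝ) (Real.log n), Real.exp_mul, Real.exp_log hnpos,
      Real.rpow_natCast]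
  rw [h1, h2]
  refine Real.exp_le_exp.mpr ?_
  have h3 : Real.log 2 ≤ 1 := by
    have := Real.log_two_lt_d9
    linarith
  have h4 : (t : ℝ) * Real.log 2 ≤ t * 1 := by
    gcongr
  push_cast
  linarith

/-- The numerical part of Theorem I. `x` is the number of marked primes in a Chebotarev class. -/
theorem main (l B1 a C K E0 q : ℕ) (hq : 2 ≤ q) (ε : ℝ) (hε : 0 < ε) :
    ∃ n0 : ℕ, 3 ≤ n0 ∧ ∀ n : ℕ, n0 ≤ n → ∀ t : ℕ, (t : ℝ) ≤ 2 * l * Real.log n →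
    ∀ b : ℕ, b ≤ B1 * t → ∀ d : ℕ, ⌊(Real.log n) ^ 3⌋₊ ≤ d → ∀ r : ℕ, r ≤ E0 * n →
    ∀ x : ℝ, (q : ℝ) ^ (9 * d / 10) ≤ x →
    0 < x ∧ 1 / x ≤ ε ∧
    (C * ((2 : ℝ) ^ b * K * (r + 1)) ^ a * √((q : ℝ) ^ d)) ^ 2 / x ^ 2 ≤ ε := by
  obtain ⟨n1, hn1, h1⟩ := small 0 (2 / ε + 1) 1 one_pos
  obtain ⟨n2, hn2, h2⟩ := small (2 * (2 * l * B1 + 1) * a) ((C : ℝ) ^ 2 * (K * (E0 + 1)) ^ (2 * a) *
    (q : ℝ) ^ 3) ε hε
  refine ⟨max n1 n2, hn1.trans (le_max_left _ _), fun n hn t ht b hb d hd r hr x hx => ?_⟩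
  have hn3 : 3 ≤ n := hn1.trans ((le_max_left _ _).trans hn)
  have hnr : (1 : ℝ) ≤ n := by exact_mod_cast (by omega : 1 ≤ n)
  have htp := two_pow_le hn3 ht
  have hq2 : (2 : ℝ) ≤ q := by exact_mod_cast hq
  have hq1 : (1 : ℝ) ≤ q := by linarith
  have hq0 : (0 : ℝ) < q := by linarith
  have hx0 : 0 < x := lt_of_lt_of_le (by positivity) hx
  have e1 := h1 n ((le_max_left _ _).trans hn) d hd
  have e2 := h2 n ((le_max_right _ _).trans hn) d hd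
  rw [pow_zero, mul_one, one_mul] at e1
  refine ⟨hx0, ?_, ?_⟩
  · -- `1 / x`
    have h3 : (2 : ℝ) ^ (d / 2) ≤ 2 * x := by
      calc (2 : ℝ) ^ (d / 2) ≤ 2 ^ (9 * d / 10 + 1) :=
            pow_le_pow_right₀ (by norm_num) (by omega)
        _ = 2 * 2 ^ (9 * d / 10) := by ring
        _ ≤ 2 * (q : ℝ) ^ (9 * d / 10) := by gcongr
        _ ≤ 2 * x := by gcongr
    rw [div_le_iff₀ hx0]
    have h4 : 2 / ε ≤ 2 * x := by linarith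
    rw [div_le_iff₀ hε] at h4
    linarith
  · have hbb : (2 : ℝ) ^ b ≤ (n : ℝ) ^ (2 * l * B1) := by
      calc (2 : ℝ) ^ b ≤ 2 ^ (B1 * t) := pow_le_pow_right₀ (by norm_num) hb
        _ = ((2 : ℝ) ^ t) ^ B1 := by rw [mul_comm, pow_mul]
        _ ≤ ((n : ℝ) ^ (2 * l)) ^ B1 := by gcongr
        _ = (n : ℝ) ^ (2 * l * B1) := by rw [← pow_mul]
    have hrr : (r : ℝ) + 1 ≤ (E0 + 1) * n := by
      have : (r : ℝ) ≤ E0 * n := by exact_mod_cast hr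
      nlinarith
    have h3 : ((2 : ℝ) ^ b * K * (r + 1)) ≤ (K * (E0 + 1)) * (n : ℝ) ^ (2 * l * B1 + 1) := by
      calc ((2 : ℝ) ^ b * K * (r + 1)) ≤ (n : ℝ) ^ (2 * l * B1) * K * ((E0 + 1) * n) := by gcongr
        _ = (K * (E0 + 1)) * (n : ℝ) ^ (2 * l * B1 + 1) := by ring
    have h4 : (C * ((2 : ℝ) ^ b * K * (r + 1)) ^ a * √((q : ℝ) ^ d)) ^ 2 ≤
        (C : ℝ) ^ 2 * (K * (E0 + 1)) ^ (2 * a) * (n : ℝ) ^ (2 * (2 * l * B1 + 1) * a) *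
          (q : ℝ) ^ d := by
      calc (C * ((2 : ℝ) ^ b * K * (r + 1)) ^ a * √((q : ℝ) ^ d)) ^ 2
          ≤ (C * ((K * (E0 + 1)) * (n : ℝ) ^ (2 * l * B1 + 1)) ^ a * √((q : ℝ) ^ d)) ^ 2 := by
            gcongr
        _ = (C : ℝ) ^ 2 * (K * (E0 + 1)) ^ (2 * a) * (n : ℝ) ^ (2 * (2 * l * B1 + 1) * a) *
            (√((q : ℝ) ^ d)) ^ 2 := by
            have g1 : (n : ℝ) ^ (2 * (2 * l * B1 + 1) * a) = ((n : ℝ) ^ (2 * l * B1 + 1)) ^ (2 * a) := by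
              rw [← pow_mul]
              congr 1
              ring
            rw [g1]
            generalize (n : ℝ) ^ (2 * l * B1 + 1) = y
            generalize (K : ℝ) * (E0 + 1) = A
            ring
        _ = _ := by rw [Real.sq_sqrt (by positivity)]
    have h5 : (2 : ℝ) ^ (d / 2) * (q : ℝ) ^ d ≤ (q : ℝ) ^ 3 * x ^ 2 := by
      calc (2 : ℝ) ^ (d / 2) * (q : ℝ) ^ d ≤ (q : ℝ) ^ (d / 2) * (q : ℝ) ^ d := by gcongr
        _ = (q : ℝ) ^ (d / 2 + d) := by rw [pow_add]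
        _ ≤ (q : ℝ) ^ (3 + 9 * d / 10 * 2) := pow_le_pow_right₀ hq1 (by omega)
        _ = (q : ℝ) ^ 3 * ((q : ℝ) ^ (9 * d / 10)) ^ 2 := by rw [pow_add, pow_mul]
        _ ≤ (q : ℝ) ^ 3 * x ^ 2 := by gcongr
    rw [div_le_iff₀ (by positivity)]
    have h2p : (0 : ℝ) < 2 ^ (d / 2) := by positivity
    have h6 : (2 : ℝ) ^ (d / 2) * ((C : ℝ) ^ 2 * (K * (E0 + 1)) ^ (2 * a) *
        (n : ℝ) ^ (2 * (2 * l * B1 + 1) * a) * (q : ℝ) ^ d) ≤ 2 ^ (d / 2) * (ε * x ^ 2) := by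
      calc (2 : ℝ) ^ (d / 2) * ((C : ℝ) ^ 2 * (K * (E0 + 1)) ^ (2 * a) *
          (n : ℝ) ^ (2 * (2 * l * B1 + 1) * a) * (q : ℝ) ^ d)
          = ((C : ℝ) ^ 2 * (K * (E0 + 1)) ^ (2 * a) * (n : ℝ) ^ (2 * (2 * l * B1 + 1) * a)) *
            ((2 : ℝ) ^ (d / 2) * (q : ℝ) ^ d) := by ring
        _ ≤ ((C : ℝ) ^ 2 * (K * (E0 + 1)) ^ (2 * a) * (n : ℝ) ^ (2 * (2 * l * B1 + 1) * a)) *
            ((q : ℝ) ^ 3 * x ^ 2) := by gcongr
        _ = ((C : ℝ) ^ 2 * (K * (E0 + 1)) ^ (2 * a) * (q : ℝ) ^ 3 *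
            (n : ℝ) ^ (2 * (2 * l * B1 + 1) * a)) * x ^ 2 := by ring
        _ ≤ (ε * 2 ^ (d / 2)) * x ^ 2 := by gcongr
        _ = 2 ^ (d / 2) * (ε * x ^ 2) := by ring
    exact h4.trans (le_of_mul_le_mul_left h6 h2p)

/-- A common lower bound for finitely many positive numbers. -/
private theorem exists_le_all (f : ℕ → ℝ) (hf : ∀ r, 0 < f r) (R : ℕ) :
    ∃ c : ℝ, 0 < c ∧ ∀ r, r ≤ R → c ≤ f r := by
  induction R with
  | zero =>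
    refine ⟨f 0, hf 0, fun r hr => ?_⟩
    rw [Nat.le_zero.1 hr]
  | succ R ih =>
    obtain ⟨c, hc, h⟩ := ih
    refine ⟨min c (f (R + 1)), lt_min hc (hf _), fun r hr => ?_⟩
    rcases Nat.lt_or_ge R r with h1 | h1
    · have : r = R + 1 := by omega
      rw [this]
      exact min_le_right _ _
    · exact (min_le_left _ _).trans (h r h1)

/-- The parameters of Theorem I. `f r δ` is the proportion of the good pairs in the sets of density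
`δ` (from `many_good`). -/
theorem grid_num (l B1 a C K E0 q m R g0 : ℕ) (hq : 2 ≤ q) (f : ℕ → ℝ → ℝ)
    (hf : ∀ r δ, 0 < δ → 0 < f r δ) (η : ℝ) (hη : 0 < η) :
    ∃ (n₀ N : ℕ) (γ δ c ε : ℝ), 0 ≤ γ ∧ 0 ≤ δ ∧ 2 ≤ c * N ∧ (∀ r, r ≤ R → c ≤ f r δ) ∧
      δ + 2 ^ N * γ ≤ η ∧
      ε + 3 * g0 * ((m + 1 : ℕ) * ε) ≤ γ ^ 2 ^ (m + 2) ∧ (m + 2 : ℕ) * ε ≤ c / 2 ∧
      ∀ n : ℕ, n₀ ≤ n → 3 ≤ n ∧ E0 < ⌊(Real.log n) ^ 3⌋₊ ∧
        ∀ t : ℕ, (t : ℝ) ≤ 2 * l * Real.log n → ∀ b : ℕ, b ≤ B1 * t →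
        ∀ d : ℕ, ⌊(Real.log n) ^ 3⌋₊ ≤ d → ∀ x : ℝ, (q : ℝ) ^ (9 * d / 10) ≤ x →
          0 < x ∧ 1 / x ≤ ε ∧ ∀ rr : ℕ, rr ≤ E0 * n →
            (C * ((2 : ℝ) ^ b * K * (rr + 1)) ^ a * √((q : ℝ) ^ d)) ^ 2 / x ^ 2 ≤ ε := by
  set δ : ℝ := η / 2 with hδ
  have hδ0 : 0 < δ := by positivity
  obtain ⟨c, hc0, hc⟩ := exists_le_all (fun r => f r δ) (fun r => hf r δ hδ0) R
  obtain ⟨N, hN⟩ := exists_nat_ge (2 / c)
  set γ : ℝ := δ / 2 ^ N with hγ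
  have hγ0 : 0 < γ := by positivity
  set ε : ℝ := min (γ ^ 2 ^ (m + 2) / (3 * g0 * (m + 1) + 1)) (c / (2 * (m + 2))) with hε
  have hε0 : 0 < ε := by
    refine lt_min ?_ ?_ <;> positivity
  -- thresholds
  obtain ⟨n1, hn1, h1⟩ := small 0 (2 ^ (E0 + 1)) 1 one_pos
  obtain ⟨n3, hn3, h3⟩ := main l B1 a C K E0 q hq ε hε0
  refine ⟨max n1 n3, N, γ, δ, c, ε, hγ0.le, hδ0.le, ?_, hc, ?_, ?_, ?_, ?_⟩
  · rw [div_le_iff₀ hc0] at hN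
    linarith
  · have e1 : (2 : ℝ) ^ N * γ = δ := by
      rw [hγ]
      field_simp
    rw [e1, hδ]
    linarith
  · have e1 : ε ≤ γ ^ 2 ^ (m + 2) / (3 * g0 * (m + 1) + 1) := min_le_left _ _
    rw [le_div_iff₀ (by positivity)] at e1
    push_cast
    linarith
  · have e1 : ε ≤ c / (2 * (m + 2)) := min_le_right _ _
    rw [le_div_iff₀ (by positivity)] at e1
    push_cast
    linarith
  · intro n hn
    have hnn1 : n1 ≤ n := (le_max_left _ _).trans hn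
    have hnn3 : n3 ≤ n := (le_max_right _ _).trans hn
    have hn0 : 3 ≤ n := hn1.trans hnn1
    have hS0 : E0 < ⌊(Real.log n) ^ 3⌋₊ := by
      have e1 := h1 n hnn1 _ le_rfl
      rw [pow_zero, mul_one, one_mul] at e1
      have e2 : E0 + 1 ≤ ⌊(Real.log n) ^ 3⌋₊ / 2 := by
        by_contra hcon
        push Not at hcon
        have : (2 : ℝ) ^ (⌊(Real.log n) ^ 3⌋₊ / 2) < 2 ^ (E0 + 1) :=
          pow_lt_pow_right₀ (by norm_num) hcon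
        linarith
      omega
    refine ⟨hn0, hS0, fun t ht b hb d hd x hx => ?_⟩
    obtain ⟨g1, g2, -⟩ := h3 n hnn3 t ht b hb d hd 0 (Nat.zero_le _) x hx
    exact ⟨g1, g2, fun rr hrr => (h3 n hnn3 t ht b hb d hd rr hrr x hx).2.2⟩

end Pool.Agent.SmL.INum
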