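import Pool.Agent.Lib.SmL.I.GridEnd
import Pool.Agent.Lib.SmL.I.GridDefs
import Pool.Agent.Lib.SmL.I.NumN
import Pool.Agent.Lib.SmL.Cnt.Psi

/-!
# SMITH-L (l odd), block I: Theorem I from the type data and the data of the last direction

Version of `Lib/SmN/I/GridThmN.lean` over `ZMod l`, for both shapes of the type data.
-/

set_option autoImplicit false

open Finset

namespace Pool.Agent.SmL.FrN

variable {l : ℕ} {A G V V1 Pl : Type} [CommRing A] [Group G] [AddCommGroup V] [Module A V]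
  [DistribMulAction G V] [AddCommGroup V1] [Module (ZMod l) V1] {S : Sys l A G V V1 Pl} {X : PSys}
  {cd : CData S X}

/-- The data of the last direction, with bounds. -/
def HasLast (cd : CData S X) (m K1 B1 : ℕ) : Prop :=
  ∀ (J : Type) (_ : Fintype J) (ex : J → ZMod l) (p : J → cd.Mk) (dir : Dir m ↪ J),
    cd.DirOk ex p dir →
    ∃ (M : Subgroup G) (K0 : ℕ) (Q : G → Prop) (E B0 : Finset X.Pr) (rr : ℕ),
      K0 ≤ K1 * 2 ^ (B1 * Nat.card J) ∧ rr ≤ 4 * cd.degN p ∧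
      LastOk (cd.gridN ex p dir) cd.pl X.deg (fun _ x => x.1.1) M K0 Q (X.deg (p (dir none)).1)
        E B0 rr

/-- What the type data give for the grid of the big classes. -/
structure TwrFor {J : Type} [Fintype J] {m n : ℕ} (ex : J → ZMod l) (p : J → cd.Mk)
    (dir : Dir m ↪ J) (a b : cd.CodeN J) (τ : Twr l G V1 (Dir m) n) : Prop where
  ok : τ.Ok (cd.gridN ex p dir) m
  card : 2 ^ (n + 1) ≤ Nat.card (cd.FN ex p)
  mem : ∀ x, x ∈ τ.Y (cd.gridN ex p dir) m ↔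
    cd.TypEqN ex dir (cd.replN p dir fun i => (x i).1) p
  fab : ∀ x ∈ τ.Y (cd.gridN ex p dir) m, τ.Fab (cd.gridN ex p dir) m x =
    cd.FFN ex (cd.replN p dir fun i => (x i).1) m a b
  sel : ∀ x ∈ τ.Y (cd.gridN ex p dir) m, {b | S.IsSel1 ((cd.gridN ex p dir).chi x) b}.Finite ∧
    {b | S.IsSel1 ((cd.gridN ex p dir).chi x) b}.ncard ≤ Nat.card (cd.FN ex p)

/-- The form at the good pairs, for all the data of the last direction. -/
def TopFor {J : Type} [Fintype J] {m n : ℕ} (ex : J → ZMod l) (p : J → cd.Mk)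
    (dir : Dir m ↪ J) (τ : Twr l G V1 (Dir m) n) (q a C : ℕ) : Prop :=
  ∀ (_ : ∀ i, Fintype (cd.XB p dir i)) (M : Subgroup G) (K0 : ℕ) (Q : G → Prop)
    (E B0 : Finset X.Pr) (rr : ℕ),
    LastOk (cd.gridN ex p dir) cd.pl X.deg (fun _ x => x.1.1) M K0 Q (X.deg (p (dir none)).1)
      E B0 rr →
    HasTop τ (cd.gridN ex p dir) (fun x => psi (τ.Fab (cd.gridN ex p dir) m x))
      (bGr l (Nat.card V1) m K0 rr a q C (X.deg (p (dir none)).1))

/-- The classes are finite. -/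
theorem finite_XB (hX : ∀ d, Finite (X.Of d)) {J : Type} {m : ℕ} (p : J → cd.Mk)
    (dir : Dir m ↪ J) (i : Dir m) : Finite (cd.XB p dir i) := by
  have h1 := hX (X.deg (p (dir i)).1)
  exact Finite.of_injective (β := X.Of (X.deg (p (dir i)).1) × {g : G // g ∈ cd.R})
    (fun x => (⟨x.1.1, x.2.1⟩, x.1.2)) fun x y h => by
      simp only [Prod.mk.injEq, Subtype.mk.injEq] at h
      exact Subtype.ext (Prod.ext h.1 h.2)

open Classical in
/-- **Theorem I**, for given type data. -/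
theorem grid_fin (hS : S.Ok) (hc : cd.Ok) (hX : ∀ d, Finite (X.Of d)) {q a C : ℕ}
    (hq : 2 ≤ q) {m K1 B1 : ℕ} (hm : 1 ≤ m) (hL : HasLast cd m K1 B1)
    (hG : ∀ (J : Type) (_ : Fintype J) (ex : J → ZMod l) (p : J → cd.Mk) (dir : Dir m ↪ J),
      cd.DirOk ex p dir → (cd.gridN ex p dir).Ok) (R : ℕ) (η : ℝ) (hη : 0 < η) :
    ∃ n₀ : ℕ, ∀ (J : Type) (_ : Fintype J) (ex : J → ZMod l)
    (p : J → cd.Mk) (a' b' : cd.CodeN J) (dir : Dir m ↪ J), cd.DirOk ex p dir → n₀ ≤ cd.degN p →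
    Nat.card (cd.FN ex p) ≤ 2 ^ R →
    (∃ (n : ℕ) (τ : Twr l G V1 (Dir m) n), TwrFor ex p dir a' b' τ ∧ TopFor ex p dir τ q a C) →
    (∀ i, (q : ℝ) ^ (9 * X.deg (p (dir i)).1 / 10) ≤ Nat.card (cd.XB p dir i)) →
    ‖∑ᶠ x : (i : Dir m) → cd.XB p dir i,
        if cd.TypEqN ex dir (cd.replN p dir fun i => (x i).1) p then
          psi (cd.FFN ex (cd.replN p dir fun i => (x i).1) m a' b') else 0‖ ≤
      η * ∏ i, (Nat.card (cd.XB p dir i) : ℝ) := by
  have hl0 : NeZero l := ⟨hS.prime.ne_zero⟩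
  have hV : Finite V1 := hS.fin1
  have hV0 : 0 < Nat.card V1 := Nat.card_pos
  have hR0 : 0 < cd.R.card := by
    obtain ⟨h, h1, -⟩ := hc.rep 1
    exact card_pos.2 ⟨h, h1.1⟩
  set g0 := cd.R.card with hg0
  obtain ⟨n₀, N, γ, δ, c, ε, hγ0, hδ0, hcN, hcf, hδγ, hε1, hε2, hn⟩ :=
    INum.grid_num l B1 a C (K1 * (l ^ m * Nat.card V1 ^ 2 ^ m) ^ 2 ^ (m + 1)) 4 q m R g0 hq
      (fun r δ => cGr (Nat.card V1) g0 m r (2 ^ R) δ) (fun r δ hδ => by
        unfold cGr nCol nCls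
        positivity) η hη
  refine ⟨n₀, fun J _ ex p a' b' dir hd hn0 hF hτ0 hXB => ?_⟩
  obtain ⟨r, τ, hτ, hTop⟩ := hτ0
  obtain ⟨hn3, hN4, hbig⟩ := hn _ hn0
  obtain ⟨M, K0, Q, E, B0, rr, hK0, hrr, hLO⟩ := hL J _ ex p dir hd
  have hfin : ∀ i, Finite (cd.XB p dir i) := finite_XB hX p dir
  let _ : ∀ i, Fintype (cd.XB p dir i) := fun i => Fintype.ofFinite _
  -- the lower bounds
  have hb1 : ∀ i, 0 < (Fintype.card (cd.XB p dir i) : ℝ) ∧
      1 / (Fintype.card (cd.XB p dir i) : ℝ) ≤ ε ∧ ∀ rr : ℕ, rr ≤ 4 * cd.degN p →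
        (C * ((2 : ℝ) ^ (B1 * Nat.card J) *
          ((K1 * (l ^ m * Nat.card V1 ^ 2 ^ m) ^ 2 ^ (m + 1) : ℕ) : ℝ) * (rr + 1)) ^ a *
          √((q : ℝ) ^ X.deg (p (dir i)).1)) ^ 2 / (Fintype.card (cd.XB p dir i) : ℝ) ^ 2 ≤ ε :=
    fun i => hbig (Nat.card J) hd.few _ le_rfl _ (hd.large i) _ (by
      have h1 := hXB i
      rwa [Nat.card_eq_fintype_card] at h1)
  have hneX : ∀ i, Nonempty (cd.XB p dir i) := fun i => by
    have h1 := (hb1 i).1
    exact Fintype.card_pos_iff.1 (by exact_mod_cast h1)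
  -- the left-hand side
  have hLHS : ∑ᶠ x : (i : Dir m) → cd.XB p dir i,
        (if cd.TypEqN ex dir (cd.replN p dir fun i => (x i).1) p then
          psi (cd.FFN ex (cd.replN p dir fun i => (x i).1) m a' b') else 0) =
      ∑ x ∈ univ with x ∈ τ.Y (cd.gridN ex p dir) m,
        psi (τ.Fab (cd.gridN ex p dir) m x) := by
    rw [finsum_eq_sum_of_fintype, ← sum_filter]
    refine sum_congr (filter_congr fun x _ => (hτ.mem x).symm) fun x hx => ?_
    rw [← hτ.fab x (mem_filter.1 hx).2]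
  rw [hLHS]
  have hprod : (∏ i, (Nat.card (cd.XB p dir i) : ℝ)) =
      Fintype.card (∀ i, cd.XB p dir i) := by
    rw [Fintype.card_pi]
    push_cast
    exact prod_congr rfl fun i _ => by rw [Nat.card_eq_fintype_card]
  rw [hprod]
  have hrR : r ≤ R := by
    have h2 : 2 ^ (r + 1) ≤ 2 ^ R := hτ.card.trans hF
    have h3 : r + 1 ≤ R := (Nat.pow_le_pow_iff_right (by norm_num)).1 h2
    omega
  have hend := grid_core hS (hG J _ ex p dir hd) hτ.ok hm
    (2 ^ R) (by positivity) (fun x hx => ⟨(hτ.sel x hx).1, (hτ.sel x hx).2.trans hF⟩) hR0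
    (fun x => psi (τ.Fab (cd.gridN ex p dir) m x)) (fun x => (norm_psi _).le) _
    (hTop _ M K0 Q E B0 rr hLO) γ hγ0 (by
      refine le_trans (add_le_add ?_ ?_) hε1
      · refine le_trans ?_ ((hb1 none).2.2 rr hrr)
        have hK0' : (K0 : ℝ) ≤ K1 * 2 ^ (B1 * Nat.card J) := by exact_mod_cast hK0
        have hkey : (K0 : ℝ) * ((l : ℝ) ^ m * (Nat.card V1 : ℝ) ^ 2 ^ m) ^ 2 ^ (m + 1) ≤
            2 ^ (B1 * Nat.card J) *
              ((K1 * (l ^ m * Nat.card V1 ^ 2 ^ m) ^ 2 ^ (m + 1) : ℕ) : ℝ) := by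
          push_cast
          calc (K0 : ℝ) * ((l : ℝ) ^ m * (Nat.card V1 : ℝ) ^ 2 ^ m) ^ 2 ^ (m + 1)
              ≤ (K1 * 2 ^ (B1 * Nat.card J)) *
                  ((l : ℝ) ^ m * (Nat.card V1 : ℝ) ^ 2 ^ m) ^ 2 ^ (m + 1) := by gcongr
            _ = 2 ^ (B1 * Nat.card J) *
                (K1 * ((l : ℝ) ^ m * (Nat.card V1 : ℝ) ^ 2 ^ m) ^ 2 ^ (m + 1)) := by ring
        have hb0 : 0 ≤ bGr l (Nat.card V1) m K0 rr a q C (X.deg (p (dir none)).1) := by
          unfold bGr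
          positivity
        refine div_le_div_of_nonneg_right (pow_le_pow_left₀ hb0 ?_ 2) (by positivity)
        unfold bGr
        exact mul_le_mul_of_nonneg_right (mul_le_mul_of_nonneg_left (pow_le_pow_left₀
          (by positivity) (mul_le_mul_of_nonneg_right hkey (by positivity)) a) (by positivity))
          (by positivity)
      · have h1 : (((cd.gridN ex p dir).R.card : ℕ) : ℝ) = g0 := rfl
        rw [h1]
        gcongr
        calc ∑ i : Option (Fin m), 1 / (Fintype.card (cd.XB p dir (some i)) : ℝ)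
            ≤ ∑ i : Option (Fin m), ε := sum_le_sum fun i _ => (hb1 (some i)).2.1
          _ = (m + 1 : ℕ) * ε := by
              rw [sum_const, card_univ, Fintype.card_option, Fintype.card_fin, nsmul_eq_mul])
    δ c hδ0 (hcf r hrR) (by
      refine le_trans ?_ hε2
      calc ∑ i : Dir m, 1 / (Fintype.card (cd.XB p dir i) : ℝ)
          ≤ ∑ i : Dir m, ε := sum_le_sum fun i _ => (hb1 i).2.1
        _ = (m + 2 : ℕ) * ε := by
            rw [sum_const, card_univ, Fintype.card_option, Fintype.card_option,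
              Fintype.card_fin, nsmul_eq_mul]) N hcN
  refine hend.trans ?_
  gcongr

end Pool.Agent.SmL.FrN
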